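import Mathlib
import Pool.Agent.Lib.MP_64d474_lc.ZtScheme

/-!
Geometric decay of a potential; covering the complements of several subspaces by a few points of an
approximating set.
-/

open Module

namespace Pool.Agent.Lib.MP_64d474_lc.Op

theorem two_mul_pred_pow_le (x : ℕ) (hx : 1 ≤ x) : 2 * (x - 1) ^ x ≤ x ^ x := by
  obtain ⟨a, rfl⟩ : ∃ a, x = a + 1 := ⟨x - 1, by omega⟩
  rw [Nat.add_sub_cancel]
  have h : ∀ n : ℕ, a ^ n + n * a ^ (n - 1) ≤ (a + 1) ^ n := by
    intro n
    induction n with
    | zero => simp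
    | succ n ih =>
      rw [Nat.add_sub_cancel]
      rcases Nat.eq_zero_or_pos n with rfl | hn
      · simp
      · have h1 : a ^ n = a * a ^ (n - 1) := by
          rw [← pow_succ']
          congr 1
          omega
        calc a ^ (n + 1) + (n + 1) * a ^ n ≤ (a ^ n + n * a ^ (n - 1)) * (a + 1) := by
              rw [h1]
              have h2 : a ^ (n + 1) = a * (a * a ^ (n - 1)) := by rw [← h1, pow_succ']
              rw [h2]
              nlinarith [Nat.zero_le (n * a ^ (n - 1))]
          _ ≤ (a + 1) ^ n * (a + 1) := Nat.mul_le_mul_right _ ih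
          _ = (a + 1) ^ (n + 1) := (pow_succ _ _).symm
  have h1 := h (a + 1)
  rw [Nat.add_sub_cancel] at h1
  have h2 : a ^ (a + 1) ≤ (a + 1) * a ^ a := by
    rw [pow_succ']
    exact Nat.mul_le_mul_right _ (Nat.le_succ a)
  omega

/-- the closing arithmetic of a potential that decays geometrically -/
theorem decay_zero {x t Γ Γ₀ : ℕ} (hx : 1 ≤ x) (h0 : Γ₀ < 2 ^ t)
    (h : x ^ (x * t) * Γ ≤ (x - 1) ^ (x * t) * Γ₀) : Γ = 0 := by
  by_contra hne
  have h1 : x ^ (x * t) ≤ (x - 1) ^ (x * t) * Γ₀ := by
    refine le_trans ?_ h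
    exact Nat.le_mul_of_pos_right _ (Nat.pos_of_ne_zero hne)
  have hxt : 0 < x ^ (x * t) := Nat.pow_pos (by omega)
  have h2 : 0 < (x - 1) ^ (x * t) := by
    rcases Nat.eq_zero_or_pos ((x - 1) ^ (x * t)) with h3 | h3
    · rw [h3, zero_mul] at h1
      omega
    · exact h3
  have h3 : (x - 1) ^ (x * t) * Γ₀ < (x - 1) ^ (x * t) * 2 ^ t := Nat.mul_lt_mul_of_pos_left h0 h2
  have h4 : (x - 1) ^ (x * t) * 2 ^ t ≤ x ^ (x * t) := by
    rw [pow_mul, pow_mul, ← mul_pow, mul_comm]
    exact Nat.pow_le_pow_left (two_mul_pred_pow_le x hx) t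
  omega

section

variable {F : Type*} [Field F] [CharZero F] {m : ℕ}

/-- one step of the covering -/
theorem cover_step {S : Set (Fin m → F)} {κ c : ℕ} {Λ : Type} [Fintype Λ] [DecidableEq Λ]
    (hS : RankApprox (F := F) (Λ → F) S κ) (V : Λ → Submodule F (Fin m → F))
    (hV : ∀ b, m ≤ finrank F (V b) + c) (W : Submodule F (Fin m → F)) :
    ∃ a ∈ S, κ * c * (∑ b, (m - finrank F (V b ⊔ (W ⊔ Submodule.span F {a}) :
      Submodule F (Fin m → F)))) + ∑ b, (m - finrank F (V b ⊔ W : Submodule F (Fin m → F))) ≤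
      κ * c * ∑ b, (m - finrank F (V b ⊔ W : Submodule F (Fin m → F))) := by
  classical
  -- functionals
  have hex : ∀ b, ∃ f : Module.Dual F (Fin m → F), (∀ v ∈ V b ⊔ W, f v = 0) ∧
      (V b ⊔ W ≠ ⊤ → f ≠ 0) := by
    intro b
    by_cases hb : V b ⊔ W = ⊤
    · exact ⟨0, fun _ _ => rfl, fun h => absurd hb h⟩
    · obtain ⟨x, -, hx⟩ := SetLike.exists_of_lt (lt_top_iff_ne_top.mpr hb)
      obtain ⟨f, hf1, hf2⟩ := Submodule.exists_dual_map_eq_bot_of_notMem hx inferInstance
      refine ⟨f, fun v hv => ?_, fun _ h => hf1 (by rw [h, LinearMap.zero_apply])⟩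
      have h1 : f v ∈ (V b ⊔ W).map f := ⟨v, hv, rfl⟩
      rw [hf2] at h1
      exact h1
  choose f hf0 hf using hex
  obtain ⟨y, hy⟩ : ∃ y, ∀ b : {b : Λ // V b ⊔ W ≠ ⊤}, f b y ≠ 0 := by
    refine Module.Dual.exists_forall_ne_zero_of_forall_exists (fun b : {b : Λ // V b ⊔ W ≠ ⊤} =>
      f b.1) fun b => ?_
    by_contra hcon
    push Not at hcon
    exact hf b.1 b.2 (LinearMap.ext hcon)
  let C : (Fin m → F) →ₗ[F] Module.End F (Λ → F) :=
    { toFun := fun v => Matrix.toLin' (Matrix.diagonal fun b => f b v)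
      map_add' := fun u v => by
        rw [← map_add, Matrix.diagonal_add]
        have h : (fun b => f b (u + v)) = fun b => f b u + f b v := funext fun b => map_add _ _ _
        rw [h]
      map_smul' := fun s v => by
        rw [RingHom.id_apply, ← map_smul, ← Matrix.diagonal_smul]
        have h : (fun b => f b (s • v)) = s • fun b => f b v := funext fun b => map_smul _ _ _
        rw [h] }
  have hC : ∀ v, rk (C v) = (Finset.univ.filter fun b => f b v ≠ 0).card := by
    intro v
    show (Matrix.diagonal fun b => f b v).rank = _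
    rw [Matrix.rank_diagonal, Fintype.card_subtype]
  obtain ⟨a, ha, h1⟩ := hS C y
  rw [hC, hC] at h1
  refine ⟨a, ha, ?_⟩
  set bad := Finset.univ.filter fun b => V b ⊔ W ≠ ⊤ with hbad
  have h2 : bad.card ≤ κ * (Finset.univ.filter fun b => f b a ≠ 0).card := by
    refine le_trans (Finset.card_le_card ?_) h1
    intro b hb
    rw [hbad, Finset.mem_filter] at hb
    rw [Finset.mem_filter]
    exact ⟨Finset.mem_univ b, hy ⟨b, hb.2⟩⟩
  -- the potential is at most `c` times the number of bad labels
  have h3 : ∑ b, (m - finrank F (V b ⊔ W : Submodule F (Fin m → F))) ≤ c * bad.card := by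
    rw [← Finset.sum_filter_add_sum_filter_not Finset.univ (fun b => V b ⊔ W ≠ ⊤)]
    have h4 : ∑ b ∈ Finset.univ.filter (fun b => ¬ (V b ⊔ W ≠ ⊤)),
        (m - finrank F (V b ⊔ W : Submodule F (Fin m → F))) = 0 := by
      refine Finset.sum_eq_zero fun b hb => ?_
      rw [Finset.mem_filter, not_not] at hb
      rw [hb.2, finrank_top, finrank_fintype_fun_eq_card, Fintype.card_fin, Nat.sub_self]
    rw [h4, add_zero, mul_comm, ← smul_eq_mul]
    refine Finset.sum_le_card_nsmul _ _ _ fun b _ => ?_
    have h5 := hV b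
    have h6 : finrank F (V b) ≤ finrank F (V b ⊔ W : Submodule F (Fin m → F)) :=
      Submodule.finrank_mono le_sup_left
    omega
  -- the decrease
  have h4 : ∑ b, (m - finrank F (V b ⊔ (W ⊔ Submodule.span F {a}) :
      Submodule F (Fin m → F))) + (Finset.univ.filter fun b => f b a ≠ 0).card ≤
      ∑ b, (m - finrank F (V b ⊔ W : Submodule F (Fin m → F))) := by
    rw [Finset.card_filter, ← Finset.sum_add_distrib]
    refine Finset.sum_le_sum fun b _ => ?_
    have h5 : V b ⊔ W ≤ V b ⊔ (W ⊔ Submodule.span F {a}) := by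
      rw [← sup_assoc]
      exact le_sup_left
    have h6 := Submodule.finrank_mono h5
    have h7 : finrank F (V b ⊔ (W ⊔ Submodule.span F {a}) : Submodule F (Fin m → F)) ≤ m := by
      refine (Submodule.finrank_le _).trans ?_
      rw [finrank_fintype_fun_eq_card, Fintype.card_fin]
    split_ifs with hb
    · have h8 : V b ⊔ W < V b ⊔ (W ⊔ Submodule.span F {a}) := by
        refine lt_of_le_of_ne h5 fun h => ?_
        apply hb
        refine hf0 b a ?_
        rw [h]
        exact Submodule.mem_sup_right (Submodule.mem_sup_right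
          (Submodule.mem_span_singleton_self a))
      have h9 := Submodule.finrank_lt_finrank_of_lt h8
      omega
    · omega
  set P := ∑ b, (m - finrank F (V b ⊔ W : Submodule F (Fin m → F))) with hP
  set P' := ∑ b, (m - finrank F (V b ⊔ (W ⊔ Submodule.span F {a}) :
      Submodule F (Fin m → F))) with hP'
  set g := (Finset.univ.filter fun b => f b a ≠ 0).card with hg
  calc κ * c * P' + P ≤ κ * c * P' + c * bad.card := Nat.add_le_add_left h3 _
    _ ≤ κ * c * P' + c * (κ * g) := Nat.add_le_add_left (Nat.mul_le_mul_left _ h2) _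
    _ = κ * c * (P' + g) := by ring
    _ ≤ κ * c * P := Nat.mul_le_mul_left _ h4

/-- A few points of an approximating set span a complement of several subspaces. -/
theorem cover {S : Set (Fin m → F)} (hne : S.Nonempty) {κ c t : ℕ} (hκ : 1 ≤ κ) {Λ : Type}
    [Fintype Λ] [DecidableEq Λ]
    (hS : RankApprox (F := F) (Λ → F) S κ) (V : Λ → Submodule F (Fin m → F))
    (hV : ∀ b, m ≤ finrank F (V b) + c) (ht : Fintype.card Λ * c < 2 ^ t) :
    ∃ v : Fin (κ * c * t) → Fin m → F, (∀ i, v i ∈ S) ∧
      ∀ b, V b ⊔ Submodule.span F (Set.range v) = ⊤ := by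
  classical
  have hm : ∀ U : Submodule F (Fin m → F), finrank F U ≤ m := by
    intro U
    refine (Submodule.finrank_le _).trans ?_
    rw [finrank_fintype_fun_eq_card, Fintype.card_fin]
  have htop : ∀ U : Submodule F (Fin m → F), m - finrank F U = 0 → U = ⊤ := by
    intro U h
    refine Submodule.eq_top_of_finrank_eq ?_
    rw [finrank_fintype_fun_eq_card, Fintype.card_fin]
    have := hm U
    omega
  rcases Nat.eq_zero_or_pos c with rfl | hc
  · obtain ⟨a, ha⟩ := hne
    refine ⟨fun _ => a, fun _ => ha, fun b => ?_⟩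
    have h1 : V b = ⊤ := htop _ (by have := hV b; omega)
    rw [h1, top_sup_eq]
  have key : ∀ N : ℕ, ∃ v : Fin N → Fin m → F, (∀ i, v i ∈ S) ∧
      (κ * c) ^ N * (∑ b, (m - finrank F (V b ⊔ Submodule.span F (Set.range v) :
        Submodule F (Fin m → F)))) ≤ (κ * c - 1) ^ N * ∑ b, (m - finrank F (V b)) := by
    intro N
    induction N with
    | zero =>
      refine ⟨fun i => i.elim0, fun i => i.elim0, ?_⟩
      rw [pow_zero, pow_zero, one_mul, one_mul]
      refine Finset.sum_le_sum fun b _ => ?_
      have h1 : finrank F (V b) ≤ finrank F (V b ⊔ Submodule.span F (Set.range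
        (fun i : Fin 0 => (i.elim0 : Fin m → F))) : Submodule F (Fin m → F)) :=
        Submodule.finrank_mono le_sup_left
      omega
    | succ N ih =>
      obtain ⟨v, hv, h1⟩ := ih
      obtain ⟨a, ha, h2⟩ := cover_step hS V hV (Submodule.span F (Set.range v))
      refine ⟨Fin.snoc v a, fun i => ?_, ?_⟩
      · refine Fin.lastCases ?_ (fun i => ?_) i
        · rw [Fin.snoc_last]
          exact ha
        · rw [Fin.snoc_castSucc]
          exact hv i
      · have h3 : Submodule.span F (Set.range (Fin.snoc v a : Fin (N + 1) → Fin m → F)) =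
            Submodule.span F (Set.range v) ⊔ Submodule.span F {a} := by
          rw [← Submodule.span_union]
          congr 1
          ext x
          constructor
          · rintro ⟨i, rfl⟩
            refine Fin.lastCases ?_ (fun i => ?_) i
            · right
              rw [Fin.snoc_last]
              rfl
            · left
              rw [Fin.snoc_castSucc]
              exact ⟨i, rfl⟩
          · rintro (⟨i, rfl⟩ | hx)
            · exact ⟨i.castSucc, Fin.snoc_castSucc (α := fun _ => Fin m → F) a v i⟩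
            · rw [Set.mem_singleton_iff] at hx
              subst hx
              exact ⟨Fin.last N, Fin.snoc_last (α := fun _ => Fin m → F) x v⟩
        rw [h3]
        set P := ∑ b, (m - finrank F (V b ⊔ Submodule.span F (Set.range v) :
          Submodule F (Fin m → F))) with hP
        set P' := ∑ b, (m - finrank F (V b ⊔ (Submodule.span F (Set.range v) ⊔
          Submodule.span F {a}) : Submodule F (Fin m → F))) with hP'
        obtain ⟨x, hx⟩ : ∃ x, κ * c = x + 1 := ⟨κ * c - 1, by
          have := Nat.mul_pos hκ hc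
          omega⟩
        rw [hx] at h1 h2 ⊢
        rw [Nat.add_sub_cancel] at h1 ⊢
        have h4 : (x + 1) * P' ≤ x * P := by
          have h5 : (x + 1) * P = x * P + P := by ring
          omega
        calc (x + 1) ^ (N + 1) * P' = (x + 1) ^ N * ((x + 1) * P') := by ring
          _ ≤ (x + 1) ^ N * (x * P) := Nat.mul_le_mul_left _ h4
          _ = x * ((x + 1) ^ N * P) := by ring
          _ ≤ x * (x ^ N * ∑ b, (m - finrank F (V b))) := Nat.mul_le_mul_left _ h1
          _ = x ^ (N + 1) * ∑ b, (m - finrank F (V b)) := by ring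
  obtain ⟨v, hv, h1⟩ := key (κ * c * t)
  refine ⟨v, hv, fun b => ?_⟩
  have h2 : ∑ b, (m - finrank F (V b)) < 2 ^ t := by
    refine lt_of_le_of_lt ?_ ht
    refine (Finset.sum_le_card_nsmul Finset.univ _ c fun b _ => ?_).trans (le_of_eq ?_)
    · have := hV b
      omega
    · rw [Finset.card_univ, smul_eq_mul]
  have h3 := decay_zero (Nat.mul_pos hκ hc) h2 h1
  exact htop _ ((Finset.sum_eq_zero_iff.mp h3) b (Finset.mem_univ b))

end

end Pool.Agent.Lib.MP_64d474_lc.Op
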