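import Mathlib
import Pool.Agent.Lib.MP_64d474_lc.HnCore
import Pool.Agent.Lib.MP_64d474_lc.Op.Cover

/-!
Blocks that contain large subspaces spanned by matrices of rank one, a different subspace for every
block.
-/

open Matrix Module MvPolynomial

namespace Pool.Agent.Lib.MP_64d474_lc.Op

section

variable {F : Type*} [Field F]

/-- the block diagonal matrix with the diagonal blocks of `G b` for the labels in `R` and identity
blocks for the other labels -/
def mix {r : ℕ} (β : Fin r → ℕ) (R : ℕ → Prop) [DecidablePred R]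
    (G : ℕ → Matrix (Fin r) (Fin r) F) : Matrix (Fin r) (Fin r) F :=
  Matrix.of fun i j => if β i = β j then
    (if R (β i) then G (β i) i j else (1 : Matrix (Fin r) (Fin r) F) i j) else 0

theorem det_mix {r : ℕ} (β : Fin r → ℕ) (R : ℕ → Prop) [DecidablePred R]
    (G : ℕ → Matrix (Fin r) (Fin r) F) :
    (mix β R G).det = ∏ b ∈ Finset.univ.image β,
      if R b then ((G b).toSquareBlock β b).det else 1 := by
  classical
  have h1 : (mix β R G).BlockTriangular β := by
    intro i j hij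
    rw [mix, Matrix.of_apply, if_neg (ne_of_gt hij)]
  rw [h1.det]
  refine Finset.prod_congr rfl fun b _ => ?_
  have h2 : ∀ i j : {i // β i = b}, (mix β R G).toSquareBlock β b i j =
      if R b then G b i.1 j.1 else (1 : Matrix (Fin r) (Fin r) F) i.1 j.1 := by
    intro i j
    show mix β R G i.1 j.1 = _
    rw [mix, Matrix.of_apply, if_pos (by rw [i.2, j.2]), i.2]
  by_cases hb : R b
  · rw [if_pos hb]
    congr 1
    refine Matrix.ext fun i j => ?_
    rw [h2, if_pos hb]
    rfl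
  · rw [if_neg hb]
    have h3 : (mix β R G).toSquareBlock β b = 1 := by
      refine Matrix.ext fun i j => ?_
      rw [h2, if_neg hb, Matrix.one_apply, Matrix.one_apply]
      by_cases hij : i = j
      · rw [if_pos hij, if_pos (by rw [hij])]
      · rw [if_neg hij, if_neg (fun h => hij (Subtype.ext h))]
    rw [h3, Matrix.det_one]

theorem log_phase3 (n c : ℕ) (hc : 1 ≤ c) (hcn : c ≤ n) :
    ((3 : ℕ) : ℝ) * (2 * (c : ℝ) * Real.log (2 * c)) <
      ((18 * (Nat.log 2 n + 1) : ℕ) : ℝ) * ((c : ℝ) - (c / 2 : ℕ)) := by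
  have h := log_phase n c hc hcn
  push_cast at h ⊢
  linarith

/-- a projection to `V` along a part of `W` -/
theorem exists_proj {E : Type*} [AddCommGroup E] [Module F E] (V W : Submodule F E)
    (h : V ⊔ W = ⊤) : ∃ π : E →ₗ[F] E, (∀ x, π x ∈ V) ∧ (∀ v ∈ V, π v = v) ∧
      ∀ x, x - π x ∈ W := by
  have hs : Function.Surjective (V.mkQ ∘ₗ W.subtype) := by
    intro q
    obtain ⟨x, rfl⟩ := V.mkQ_surjective q
    have hx : x ∈ V ⊔ W := by rw [h]; exact Submodule.mem_top
    obtain ⟨v, hv, w, hw, rfl⟩ := Submodule.mem_sup.mp hx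
    refine ⟨⟨w, hw⟩, ?_⟩
    have h1 : V.mkQ v = 0 := (Submodule.Quotient.mk_eq_zero V).mpr hv
    rw [LinearMap.comp_apply, Submodule.subtype_apply, map_add, h1, zero_add]
  obtain ⟨g, hg⟩ := (V.mkQ ∘ₗ W.subtype).exists_rightInverse_of_surjective
    (LinearMap.range_eq_top.mpr hs)
  have hg' : ∀ q, V.mkQ ((g q : W) : E) = q := fun q => LinearMap.congr_fun hg q
  refine ⟨LinearMap.id - W.subtype ∘ₗ g ∘ₗ V.mkQ, fun x => ?_, fun v hv => ?_, fun x => ?_⟩
  · rw [← Submodule.Quotient.mk_eq_zero V, ← Submodule.mkQ_apply]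
    show V.mkQ (x - ((g (V.mkQ x) : W) : E)) = 0
    rw [map_sub, hg', sub_self]
  · show v - ((g (V.mkQ v) : W) : E) = v
    have h1 : V.mkQ v = 0 := (Submodule.Quotient.mk_eq_zero V).mpr hv
    rw [h1, map_zero, Submodule.coe_zero, sub_zero]
  · show x - (x - ((g (V.mkQ x) : W) : E)) ∈ W
    rw [sub_sub_cancel]
    exact (g (V.mkQ x)).2

end

/-- The blocks with rank one generators. -/
theorem r_phase {F : Type*} [Field F] [CharZero F] {n m c r t : ℕ} (hrn : r ≤ n)
    (S : Set (Fin m → F)) (hne : S.Nonempty)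
    (hNc : ∀ (E : Type) [Fintype E] [DecidableEq E], NcApprox (F := F) E S 3)
    (hRk : ∀ (E : Type) [Fintype E], RankApprox (F := F) (E → F) S 3)
    (A₀ : Matrix (Fin r) (Fin r) F) (A : Fin m → Matrix (Fin r) (Fin r) F) (β : Fin r → ℕ)
    (h0 : ∀ i j, A₀ i j ≠ 0 → β i ≤ β j) (hA : ∀ k i j, A k i j ≠ 0 → β i ≤ β j)
    (R : ℕ → Prop) [DecidablePred R] (V : ℕ → Submodule F (Fin m → F))
    (hV : ∀ b, R b → m ≤ finrank F (V b) + c)
    (hrk : ∀ b, R b → RankOneSpanned ((V b).map (blockMap A β b)))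
    (x₀ : Fin m → F) (hx₀ : (A₀ + ∑ k, x₀ k • A k).det ≠ 0) (ht : n * c < 2 ^ t) :
    ∃ w : Fin (3 * c * t) → Fin m → F, (∀ i, w i ∈ S) ∧
      ∃ a : Fin (6 * (Nat.log 2 n + 1) * (18 * (Nat.log 2 n + 1))) → Fin m → F, (∀ i, a i ∈ S) ∧
        ∀ b ∈ Finset.univ.image β, R b →
          ∃ x ∈ Submodule.span F (Set.range w) ⊔ Submodule.span F (Set.range a),
            ((A₀ + ∑ k, x k • A k).toSquareBlock β b).det ≠ 0 := by
  classical
  set l := Nat.log 2 n with hl
  -- covering
  obtain ⟨V', hV'⟩ : ∃ V' : ↥(Finset.univ.image β) → Submodule F (Fin m → F),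
    V' = fun b => if R b.1 then V b.1 else ⊤ := ⟨_, rfl⟩
  have hcard : Fintype.card ↥(Finset.univ.image β) ≤ n := by
    rw [Fintype.card_coe]
    refine Finset.card_image_le.trans ?_
    rw [Finset.card_univ, Fintype.card_fin]
    exact hrn
  obtain ⟨w, hw, hcov⟩ := cover (Λ := ↥(Finset.univ.image β)) hne (c := c) (t := t)
    (by norm_num : 1 ≤ 3) (hRk _) V' (by
      intro b
      by_cases hb : R b.1
      · have e1 : V' b = V b.1 := by
          rw [hV']
          exact if_pos hb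
        rw [e1]
        exact hV b.1 hb
      · have e1 : V' b = ⊤ := by
          rw [hV']
          exact if_neg hb
        rw [e1, finrank_top, finrank_fintype_fun_eq_card, Fintype.card_fin]
        omega) (lt_of_le_of_lt (Nat.mul_le_mul_right _ hcard) ht)
  refine ⟨w, hw, ?_⟩
  have hproj : ∀ b : ℕ, ∃ π : (Fin m → F) →ₗ[F] (Fin m → F), b ∈ Finset.univ.image β → R b →
      (∀ x, π x ∈ V b) ∧ (∀ v ∈ V b, π v = v) ∧
        ∀ x, x - π x ∈ Submodule.span F (Set.range w) := by
    intro b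
    by_cases hb : b ∈ Finset.univ.image β ∧ R b
    · have h1 := hcov ⟨b, hb.1⟩
      have h2 : V' ⟨b, hb.1⟩ = V b := by
        rw [hV']
        dsimp only
        rw [if_pos hb.2]
      rw [h2] at h1
      obtain ⟨π, hπ⟩ := exists_proj _ _ h1
      exact ⟨π, fun _ _ => hπ⟩
    · exact ⟨0, fun h1 h2 => absurd ⟨h1, h2⟩ hb⟩
  choose π hπ using hproj
  -- the fixed part
  set M : Matrix (Fin r) (Fin r) F :=
    mix β R (fun b => A₀ + ∑ k, (x₀ - π b x₀) k • A k) with hM
  -- bases of the diagonal blocks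
  have hbas : ∀ b, ∃ t : Fin (finrank F ((V b).map (blockMap A β b))) → Matrix (Fin r) (Fin r) F,
      R b → (∀ e, t e ∈ (V b).map (blockMap A β b) ∧
        t e ∈ {M : Matrix (Fin r) (Fin r) F | M.rank ≤ 1}) ∧
        LinearIndependent F t ∧
        Submodule.span F (Set.range t) = (V b).map (blockMap A β b) := fun b => by
    by_cases hb : R b
    · obtain ⟨t, ht⟩ := exists_basis_of_gen _ _ (hrk b hb)
      exact ⟨t, fun _ => ht⟩
    · exact ⟨0, fun h => absurd h hb⟩
  choose t ht' using hbas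
  let Rs : Finset ℕ := (Finset.univ.image β).filter R
  have hRs : ∀ b : Rs, b.1 ∈ Finset.univ.image β ∧ R b.1 := fun b => Finset.mem_filter.mp b.2
  have hco : ∀ b : Rs, ∃ φ : Matrix (Fin r) (Fin r) F →ₗ[F]
      (Fin (finrank F ((V b.1).map (blockMap A β b.1))) → F),
      (∀ z, φ (∑ e, z e • t b.1 e) = z) ∧
      ∀ w ∈ Submodule.span F (Set.range (t b.1)), ∑ e, φ w e • t b.1 e = w := fun b =>
    exists_coords (t b.1) (ht' b.1 (hRs b).2).2.1
  choose φ hφ1 hφ2 using hco
  have hform : ∀ (b : Rs) e, ∃ u v : Fin r → F, t b.1 e = vecMulVec u v := fun b e =>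
    hn_rank_one_form _ ((ht' b.1 (hRs b).2).1 e).2
  choose u v huv using hform
  have ht0 : ∀ (b : Rs) e, t b.1 e ≠ 0 := fun b e => (ht' b.1 (hRs b).2).2.1.ne_zero e
  have hspan : ∀ b : Rs, Submodule.span F (Set.range (t b.1)) = (V b.1).map (blockMap A β b.1) :=
    fun b => (ht' b.1 (hRs b).2).2.2
  have htm : ∀ (b : Rs) e, t b.1 e ∈ (V b.1).map (blockMap A β b.1) :=
    fun b e => ((ht' b.1 (hRs b).2).1 e).1
  have htsupp : ∀ (b : Rs) e i j, t b.1 e i j ≠ 0 → β i = b.1 ∧ β j = b.1 := by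
    intro b e i j h
    obtain ⟨y, -, hy⟩ := htm b e
    by_contra hcon
    apply h
    rw [← hy]
    show (if β i = b.1 ∧ β j = b.1 then _ else _) = _
    rw [if_neg hcon]
  let K : Type := (b : Rs) × Fin (finrank F ((V b.1).map (blockMap A β b.1)))
  let p : K → Fin r → F := fun k => u k.1 k.2
  let q : K → Fin r → F := fun k => v k.1 k.2
  let lab : K → ℤ := fun k => (k.1.1 : ℤ)
  let Y : (Fin m → F) →ₗ[F] (K → F) := LinearMap.pi fun k : K =>
    LinearMap.proj k.2 ∘ₗ φ k.1 ∘ₗ blockMap A β k.1.1 ∘ₗ π k.1.1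
  have hYapp : ∀ x (k : K), Y x k = φ k.1 (blockMap A β k.1.1 (π k.1.1 x)) k.2 :=
    fun x k => rfl
  have hpq : ∀ (k : K) i j, p k i * q k j = t k.1.1 k.2 i j := by
    intro k i j
    rw [huv, vecMulVec_apply]
  have hnz : ∀ k : K, ∃ i j, t k.1.1 k.2 i j ≠ 0 := by
    intro k
    by_contra hcon
    push Not at hcon
    exact ht0 k.1 k.2 (Matrix.ext hcon)
  have lp : ∀ (k : K) i, p k i ≠ 0 → ((β i : ℕ) : ℤ) = lab k := by
    intro k i h
    obtain ⟨i', j', hij⟩ := hnz k
    rw [← hpq] at hij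
    have h1 := (htsupp k.1 k.2 i j' (by
      rw [← hpq]
      exact mul_ne_zero h (right_ne_zero_of_mul hij))).1
    show ((β i : ℕ) : ℤ) = ((k.1.1 : ℕ) : ℤ)
    rw [h1]
  have lq : ∀ (k : K) j, q k j ≠ 0 → ((β j : ℕ) : ℤ) = lab k := by
    intro k j h
    obtain ⟨i', j', hij⟩ := hnz k
    rw [← hpq] at hij
    have h1 := (htsupp k.1 k.2 i' j (by
      rw [← hpq]
      exact mul_ne_zero (left_ne_zero_of_mul hij) h)).2
    show ((β j : ℕ) : ℤ) = ((k.1.1 : ℕ) : ℤ)
    rw [h1]
  have hp0 : ∀ k : K, p k ≠ 0 := by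
    intro k h
    obtain ⟨i', j', hij⟩ := hnz k
    rw [← hpq, h, Pi.zero_apply, zero_mul] at hij
    exact hij rfl
  have lM : ∀ i j, M i j ≠ 0 → ((β i : ℕ) : ℤ) = ((β j : ℕ) : ℤ) := by
    intro i j h
    by_contra hcon
    apply h
    rw [hM, mix, Matrix.of_apply, if_neg]
    intro e
    exact hcon (by rw [e])
  have hY : ∀ (c : ℤ) (η : K → F), ∃ x, ∀ k : K, lab k = c → Y x k = η k := by
    intro c η
    by_cases hc : ∃ b : Rs, ((b.1 : ℕ) : ℤ) = c
    · obtain ⟨b, hb⟩ := hc
      have h1 : ∑ e, η ⟨b, e⟩ • t b.1 e ∈ (V b.1).map (blockMap A β b.1) :=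
        Submodule.sum_mem _ fun e _ => Submodule.smul_mem _ _ (htm b e)
      obtain ⟨x, hx, hxe⟩ := h1
      refine ⟨x, ?_⟩
      rintro ⟨b', e⟩ hk
      have hbb : b' = b := by
        apply Subtype.ext
        have h2 : ((b'.1 : ℕ) : ℤ) = c := hk
        exact_mod_cast h2.trans hb.symm
      subst hbb
      rw [hYapp]
      show φ b' (blockMap A β b'.1 (π b'.1 x)) e = η ⟨b', e⟩
      rw [(hπ b'.1 (hRs b').1 (hRs b').2).2.1 x hx, hxe, hφ1]
    · refine ⟨0, fun k hk => ?_⟩
      exact absurd ⟨k.1, hk⟩ hc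
  have hLL : ∀ x i j, LL p q (Y x) i j = if β i = β j ∧ R (β i) then
      (∑ k, (π (β i) x) k • A k) i j else 0 := by
    intro x i j
    rw [LL_apply]
    have h3 : ∀ b, (blockMap A β b (π b x)) i j =
        if β i = b ∧ β j = b then (∑ k, (π b x) k • A k) i j else 0 := fun b => rfl
    have h1 : ∑ k : K, Y x k * (p k i * q k j) =
        ∑ b : Rs, (blockMap A β b.1 (π b.1 x)) i j := by
      rw [Fintype.sum_sigma]
      refine Finset.sum_congr rfl fun b _ => ?_
      have h2 := hφ2 b (blockMap A β b.1 (π b.1 x)) (by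
        rw [hspan b]
        exact ⟨π b.1 x, (hπ b.1 (hRs b).1 (hRs b).2).1 x, rfl⟩)
      conv_rhs => rw [← h2]
      rw [Matrix.sum_apply]
      refine Finset.sum_congr rfl fun e _ => ?_
      rw [Matrix.smul_apply, smul_eq_mul, hpq, hYapp]
    rw [h1, Finset.sum_coe_sort Rs fun b => (blockMap A β b (π b x)) i j]
    by_cases hb : R (β i)
    · have hmem : β i ∈ Rs :=
        Finset.mem_filter.mpr ⟨Finset.mem_image_of_mem β (Finset.mem_univ i), hb⟩
      rw [Finset.sum_eq_single (β i)]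
      · rw [h3]
        by_cases hij : β i = β j
        · rw [if_pos ⟨rfl, hij.symm⟩, if_pos ⟨hij, hb⟩]
        · rw [if_neg (fun h => hij h.2.symm), if_neg (fun h => hij h.1)]
      · intro b _ hb
        rw [h3, if_neg]
        exact fun h => hb h.1.symm
      · intro h
        exact absurd hmem h
    · rw [if_neg (fun h => hb h.2)]
      refine Finset.sum_eq_zero fun b hbR => ?_
      rw [h3, if_neg]
      rintro ⟨h, -⟩
      rw [h] at hb
      exact hb (Finset.mem_filter.mp hbR).2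
  have hMLL : ∀ x, M + LL p q (Y x) =
      mix β R fun b => A₀ + ∑ k, (x₀ - π b x₀ + π b x) k • A k := by
    intro x
    refine Matrix.ext fun i j => ?_
    rw [Matrix.add_apply, hLL, hM, mix, mix, Matrix.of_apply, Matrix.of_apply]
    by_cases hij : β i = β j
    · by_cases hb : R (β i)
      · rw [if_pos hij, if_pos hb, if_pos ⟨hij, hb⟩, if_pos hij, if_pos hb]
        have e : ∀ y y' : Fin m → F,
            ∑ k, (y + y') k • A k = ∑ k, y k • A k + ∑ k, y' k • A k := by
          intro y y'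
          rw [← Finset.sum_add_distrib]
          exact Finset.sum_congr rfl fun k _ => by rw [Pi.add_apply, add_smul]
        rw [e, Matrix.add_apply, Matrix.add_apply, Matrix.add_apply, add_assoc]
      · rw [if_pos hij, if_neg hb, if_neg (fun h => hb h.2), if_pos hij, if_neg hb, add_zero]
    · rw [if_neg hij, if_neg (fun h => hij h.1), if_neg hij, add_zero]
  have htri : ∀ y : Fin m → F, (A₀ + ∑ k, y k • A k).BlockTriangular β := by
    intro y i j hij
    by_contra h
    refine absurd ?_ (not_le.mpr hij)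
    by_cases h1 : A₀ i j = 0
    · rw [Matrix.add_apply, h1, zero_add, Matrix.sum_apply] at h
      obtain ⟨k, _, hk⟩ := Finset.exists_ne_zero_of_sum_ne_zero h
      rw [Matrix.smul_apply] at hk
      exact hA k i j (right_ne_zero_of_mul hk)
    · exact h0 i j h1
  have hy₀ : (M + LL p q (Y x₀)).det ≠ 0 := by
    rw [hMLL, det_mix, Finset.prod_ne_zero_iff]
    intro b hb
    split_ifs with hR
    · rw [sub_add_cancel]
      rw [(htri x₀).det, Finset.prod_ne_zero_iff] at hx₀
      exact hx₀ b hb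
    · exact one_ne_zero
  obtain ⟨a, ha, x, hx, hfin⟩ := phase_final S 3 (18 * (l + 1)) (6 * (l + 1)) n
    (fun E _ _ _ => hNc E)
    (fun c h1 h2 => log_phase3 n c h1 h2) (pow_phase n) M p q (fun i => ((β i : ℕ) : ℤ))
    (fun i => ((β i : ℕ) : ℤ)) lab lM lp lq hp0 Y hY (by rw [Fintype.card_fin]; exact hrn)
    (Y x₀) hy₀
  refine ⟨a, ha, fun b hb hR => ?_⟩
  rw [hMLL, det_mix, Finset.prod_ne_zero_iff] at hfin
  have h1 := hfin b hb
  rw [if_pos hR] at h1
  refine ⟨x₀ - π b x₀ + π b x, ?_, h1⟩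
  have h2 : x₀ - π b x₀ + π b x = (x₀ - π b x₀) - (x - π b x) + x := by abel
  rw [h2]
  exact Submodule.add_mem_sup (Submodule.sub_mem _ ((hπ b hb hR).2.2 x₀) ((hπ b hb hR).2.2 x)) hx

end Pool.Agent.Lib.MP_64d474_lc.Op
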