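import Mathlib

/-!
# Dimension-free approximation of the rank of matrix spaces: definitions and module statements

Plan (paper proof in team-store `MP_64d474_op_blueprint.md`): sign vectors that are 4-wise
independent reach one third of the (noncommutative) rank of every matrix space, by operator scaling
and the fourth moment; amplification gives the factor `1 - 1 / q` with `(m q) ^ O(q ^ 2)` integer
vectors, for matrices of every size.
-/

open Matrix Module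

namespace Pool.Agent.Lib.MP_64d474_lc.Op

/-- the square of the Frobenius norm -/
noncomputable def fro {ι κ : Type*} [Fintype ι] [Fintype κ] (M : Matrix ι κ ℂ) : ℝ :=
  ∑ i, ∑ j, ‖M i j‖ ^ 2

/-- `∑ A_k A_k*` -/
noncomputable def lft {ι : Type*} [Fintype ι] {m : ℕ} (A : Fin m → Matrix ι ι ℂ) : Matrix ι ι ℂ :=
  ∑ k, A k * (A k)ᴴ

/-- `∑ A_k* A_k` -/
noncomputable def rgt {ι : Type*} [Fintype ι] {m : ℕ} (A : Fin m → Matrix ι ι ℂ) : Matrix ι ι ℂ :=
  ∑ k, (A k)ᴴ * A k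

/-- S1: the rank is at least `(tr M M*)² / tr (M M*)²` -/
def StRank : Prop :=
  ∀ (n : ℕ) (M : Matrix (Fin n) (Fin n) ℂ), fro M ^ 2 ≤ M.rank * fro (M * Mᴴ)

/-- second and fourth moments of signs -/
def Moments {Ω : Type} [Fintype Ω] {m : ℕ} (a : Ω → Fin m → ℝ) : Prop :=
  (∀ i j, ∑ ω, a ω i * a ω j = if i = j then (Fintype.card Ω : ℝ) else 0) ∧
  ∀ i j k l, ∑ ω, a ω i * a ω j * (a ω k * a ω l) =
    (Fintype.card Ω : ℝ) * ((if i = j ∧ k = l then 1 else 0) + (if i = k ∧ j = l then 1 else 0) +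
      (if i = l ∧ j = k then 1 else 0) - 2 * (if i = j ∧ j = k ∧ k = l then 1 else 0))

/-- S2: the fourth moment method -/
def StMoment : Prop :=
  ∀ (m n : ℕ) (Ω : Type) [Fintype Ω] [Nonempty Ω] (a : Ω → Fin m → ℝ), Moments a →
    ∀ (A : Fin m → Matrix (Fin n) (Fin n) ℂ) (r : ℕ),
      (∀ ω, (∑ k, (a ω k : ℂ) • A k).rank ≤ r) →
        (∑ k, fro (A k)) ^ 2 ≤ r * (fro (lft A) + 2 * fro (rgt A))

/-- S3: stability of the inequality of the means -/
def StAmgm : Prop :=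
  ∀ (n : ℕ) (x : Fin n → ℝ) (η : ℝ), (∀ i, 0 < x i) → ∑ i, x i = n → Real.exp (-η) ≤ ∏ i, x i →
    ∑ i, (x i - 1) ^ 2 ≤ 2 * n * η

/-- S4: normalisation of a family with nonsingular `∑ A_k A_k*` -/
def StNormal : Prop :=
  ∀ (n m : ℕ) (A : Fin m → Matrix (Fin n) (Fin n) ℂ), (lft A).det ≠ 0 →
    ∃ (x : Fin n → ℝ) (H : Matrix (Fin n) (Fin n) ℂ), (∀ i, 0 < x i) ∧
      ∑ i, x i = ∑ k, fro (A k) ∧ ∑ i, x i ^ 2 = fro (lft A) ∧
      ∑ k, fro (H * A k) = n ∧ ‖H.det‖ ^ 2 * ∏ i, x i = 1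

/-- S5: the inequality between determinant and Frobenius norm -/
def StDet : Prop :=
  ∀ (ι : Type) [Fintype ι] [DecidableEq ι] (M : Matrix ι ι ℂ),
    (Fintype.card ι : ℝ) ^ Fintype.card ι * ‖M.det‖ ^ 2 ≤ fro M ^ Fintype.card ι

/-- the blow-up of a family -/
noncomputable def blow {R : Type*} [CommRing R] {n d m : ℕ} (Y : Fin m → Matrix (Fin d) (Fin d) R)
    (B : Fin m → Matrix (Fin n) (Fin n) R) : Matrix (Fin d × Fin n) (Fin d × Fin n) R :=
  ∑ k, Matrix.kroneckerMap (· * ·) (Y k) (B k)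

/-- S6: operator scaling of families with a nonsingular blow-up -/
def StScaling : Prop :=
  ∀ (n m d : ℕ) (B : Fin m → Matrix (Fin n) (Fin n) ℂ) (Y : Fin m → Matrix (Fin d) (Fin d) ℂ),
    0 < n → 0 < d → (blow Y B).det ≠ 0 → ∀ ε : ℝ, 0 < ε →
      ∃ S T : Matrix (Fin n) (Fin n) ℂ, 0 < ∑ k, fro (S * B k * T) ∧
        n * fro (lft fun k => S * B k * T) ≤ (1 + ε) * (∑ k, fro (S * B k * T)) ^ 2 ∧
        n * fro (rgt fun k => S * B k * T) ≤ (1 + ε) * (∑ k, fro (S * B k * T)) ^ 2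

/-- the sign `(-1) ^ x` -/
def sgn (x : ZMod 2) : ℤ := if x = 0 then 1 else -1

/-- the sign vector with parameters `u, v`: its `k`-th entry is
`(-1) ^ (u · φ (α k) + v · φ (α k ^ 3))` -/
def signVec {K : Type} [Field K] {l m : ℕ} (φ : K → Fin l → ZMod 2) (α : Fin m → K)
    (ω : (Fin l → ZMod 2) × (Fin l → ZMod 2)) : Fin m → ℤ :=
  fun k => sgn (ω.1 ⬝ᵥ φ (α k) + ω.2 ⬝ᵥ φ (α k ^ 3))

/-- S7: the moments of the sign vectors -/
def StSign : Prop :=
  ∀ (K : Type) [Field K] [CharP K 2] (l m : ℕ) (φ : K → Fin l → ZMod 2) (α : Fin m → K),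
    (∀ x y, φ (x + y) = φ x + φ y) → Function.Injective φ → Function.Injective α →
      Moments fun (ω : (Fin l → ZMod 2) × (Fin l → ZMod 2)) k => (signVec φ α ω k : ℝ)

/-- S8: transfer from a field of characteristic zero to the complex numbers -/
def StEmbed.{u} : Prop :=
  ∀ (F : Type u) [Field F] [CharZero F] (n r d m : ℕ) (B : Fin m → Matrix (Fin n) (Fin n) F)
    (S : Matrix (Fin r) (Fin n) F) (T : Matrix (Fin n) (Fin r) F)
    (Y : Fin m → Matrix (Fin d) (Fin d) F), (blow Y fun k => S * B k * T).det ≠ 0 →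
    ∃ (B' : Fin m → Matrix (Fin r) (Fin r) ℂ) (Y' : Fin m → Matrix (Fin d) (Fin d) ℂ),
      (blow Y' B').det ≠ 0 ∧
      ∀ a : Fin m → ℤ, (∑ k, (a k : ℂ) • B' k).rank ≤ (∑ k, (a k : F) • B k).rank

/-- S9: the rank of a pencil at a small natural number -/
def StPencil.{u} : Prop :=
  ∀ (F : Type u) [Field F] [CharZero F] (n n' K : ℕ) (A B : Matrix (Fin n) (Fin n') F) (z₀ : F),
    ∃ z : ℕ, z ≤ K ∧ K * (A + z₀ • B).rank ≤ (K + 1) * (A + (z : F) • B).rank

end Pool.Agent.Lib.MP_64d474_lc.Op
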