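import Mathlib
import Pool.Agent.Lib.MP_64d474_lc.Op.Stmts

/-!
The fourth moment method.
-/

open Matrix Module

namespace Pool.Agent.Lib.MP_64d474_lc.Op

section

variable {ι κ : Type*} [Fintype ι] [Fintype κ]

theorem fro_nonneg (M : Matrix ι κ ℂ) : 0 ≤ fro M :=
  Finset.sum_nonneg fun _ _ => Finset.sum_nonneg fun _ _ => by positivity

theorem trace_mul_conjTranspose_re (M N : Matrix ι κ ℂ) :
    (M * Nᴴ).trace.re = ∑ i, ∑ j, (M i j * (starRingEnd ℂ) (N i j)).re := by
  rw [Matrix.trace, Complex.re_sum]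
  refine Finset.sum_congr rfl fun i _ => ?_
  rw [Matrix.diag_apply, Matrix.mul_apply, Complex.re_sum]
  rfl

theorem fro_eq_trace (M : Matrix ι κ ℂ) : fro M = (M * Mᴴ).trace.re := by
  rw [trace_mul_conjTranspose_re, fro]
  refine Finset.sum_congr rfl fun i _ => Finset.sum_congr rfl fun j _ => ?_
  rw [Complex.mul_conj, Complex.normSq_eq_norm_sq, Complex.ofReal_re]

theorem trace_sq_re_le (G : Matrix ι ι ℂ) : (G * G).trace.re ≤ fro G := by
  have h1 : (G * G).trace.re = ∑ i, ∑ j, (G i j * G j i).re := by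
    rw [Matrix.trace, Complex.re_sum]
    refine Finset.sum_congr rfl fun i _ => ?_
    rw [Matrix.diag_apply, Matrix.mul_apply, Complex.re_sum]
  have h2 : ∀ i j, (G i j * G j i).re ≤ (‖G i j‖ ^ 2 + ‖G j i‖ ^ 2) / 2 := by
    intro i j
    have h3 := Complex.re_le_norm (G i j * G j i)
    rw [norm_mul] at h3
    nlinarith [sq_nonneg (‖G i j‖ - ‖G j i‖)]
  rw [h1]
  calc ∑ i, ∑ j, (G i j * G j i).re ≤ ∑ i, ∑ j, (‖G i j‖ ^ 2 + ‖G j i‖ ^ 2) / 2 :=
        Finset.sum_le_sum fun i _ => Finset.sum_le_sum fun j _ => h2 i j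
    _ = (∑ i, ∑ j, ‖G i j‖ ^ 2 + ∑ i, ∑ j, ‖G j i‖ ^ 2) / 2 := by
        simp only [← Finset.sum_div, Finset.sum_add_distrib]
    _ = fro G := by
        rw [Finset.sum_comm (f := fun i j => ‖G j i‖ ^ 2), fro]
        ring

end

section

variable {m n : ℕ} (A : Fin m → Matrix (Fin n) (Fin n) ℂ)

/-- the real part of `tr A_i A_j* A_k A_l*` -/
noncomputable def tq (i j k l : Fin m) : ℝ := ((A i * (A j)ᴴ) * (A k * (A l)ᴴ)).trace.re

theorem comb_mul (a : Fin m → ℝ) :
    (∑ k, (a k : ℂ) • A k) * (∑ k, (a k : ℂ) • A k)ᴴ =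
      ∑ i, ∑ j, ((a i * a j : ℝ) : ℂ) • (A i * (A j)ᴴ) := by
  rw [Matrix.conjTranspose_sum, Finset.sum_mul]
  refine Finset.sum_congr rfl fun i _ => ?_
  rw [Finset.mul_sum]
  refine Finset.sum_congr rfl fun j _ => ?_
  rw [Matrix.conjTranspose_smul, Matrix.smul_mul, Matrix.mul_smul, smul_smul]
  congr 1
  simp

theorem fro_comb (a : Fin m → ℝ) :
    fro (∑ k, (a k : ℂ) • A k) = ∑ i, ∑ j, a i * a j * (A i * (A j)ᴴ).trace.re := by
  rw [fro_eq_trace, comb_mul, Matrix.trace_sum, Complex.re_sum]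
  refine Finset.sum_congr rfl fun i _ => ?_
  rw [Matrix.trace_sum, Complex.re_sum]
  refine Finset.sum_congr rfl fun j _ => ?_
  rw [Matrix.trace_smul, smul_eq_mul, Complex.re_ofReal_mul]

theorem fro_comb2 (a : Fin m → ℝ) :
    fro ((∑ k, (a k : ℂ) • A k) * (∑ k, (a k : ℂ) • A k)ᴴ) =
      ∑ i, ∑ j, ∑ k, ∑ l, a i * a j * (a k * a l) * tq A i j k l := by
  rw [fro_eq_trace]
  have hH : ((∑ k, (a k : ℂ) • A k) * (∑ k, (a k : ℂ) • A k)ᴴ)ᴴ =
      (∑ k, (a k : ℂ) • A k) * (∑ k, (a k : ℂ) • A k)ᴴ := by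
    rw [Matrix.conjTranspose_mul, Matrix.conjTranspose_conjTranspose]
  rw [hH, comb_mul, Finset.sum_mul, Matrix.trace_sum, Complex.re_sum]
  refine Finset.sum_congr rfl fun i _ => ?_
  rw [Finset.sum_mul, Matrix.trace_sum, Complex.re_sum]
  refine Finset.sum_congr rfl fun j _ => ?_
  rw [Finset.mul_sum, Matrix.trace_sum, Complex.re_sum]
  refine Finset.sum_congr rfl fun k _ => ?_
  rw [Finset.mul_sum, Matrix.trace_sum, Complex.re_sum]
  refine Finset.sum_congr rfl fun l _ => ?_
  rw [Matrix.smul_mul, Matrix.mul_smul, smul_smul, Matrix.trace_smul, smul_eq_mul,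
    ← Complex.ofReal_mul, Complex.re_ofReal_mul]
  rfl

theorem lft_herm : (lft A)ᴴ = lft A := by
  rw [lft, Matrix.conjTranspose_sum]
  refine Finset.sum_congr rfl fun k _ => ?_
  rw [Matrix.conjTranspose_mul, Matrix.conjTranspose_conjTranspose]

theorem rgt_herm : (rgt A)ᴴ = rgt A := by
  rw [rgt, Matrix.conjTranspose_sum]
  refine Finset.sum_congr rfl fun k _ => ?_
  rw [Matrix.conjTranspose_mul, Matrix.conjTranspose_conjTranspose]

theorem sum_tq_left : ∑ i, ∑ k, tq A i i k k = fro (lft A) := by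
  rw [fro_eq_trace, lft_herm, lft, Finset.sum_mul, Matrix.trace_sum, Complex.re_sum]
  refine Finset.sum_congr rfl fun i _ => ?_
  rw [Finset.mul_sum, Matrix.trace_sum, Complex.re_sum]
  rfl

theorem sum_tq_right : ∑ i, ∑ j, tq A i j j i = fro (rgt A) := by
  rw [fro_eq_trace, rgt_herm]
  have h1 : (rgt A * rgt A).trace.re = ∑ i, ((rgt A) * ((A i)ᴴ * A i)).trace.re := by
    conv_lhs => rw [rgt]
    conv_lhs =>
      enter [1, 1, 2]
      rw [← rgt]
    rw [rgt, Finset.mul_sum, Matrix.trace_sum, Complex.re_sum]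
  rw [h1]
  refine Finset.sum_congr rfl fun i _ => ?_
  rw [rgt, Finset.sum_mul, Matrix.trace_sum, Complex.re_sum]
  refine Finset.sum_congr rfl fun j _ => ?_
  rw [tq, Matrix.mul_assoc, Matrix.trace_mul_comm (A i)]
  simp only [Matrix.mul_assoc]

theorem sum_tq_cross : ∑ i, ∑ j, tq A i j i j ≤ fro (rgt A) := by
  rw [← sum_tq_right]
  refine Finset.sum_le_sum fun i _ => Finset.sum_le_sum fun j _ => ?_
  refine (trace_sq_re_le _).trans (le_of_eq ?_)
  rw [fro_eq_trace, Matrix.conjTranspose_mul, Matrix.conjTranspose_conjTranspose, tq]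

theorem tq_self (i : Fin m) : 0 ≤ tq A i i i i := by
  have h : tq A i i i i = fro (A i * (A i)ᴴ) := by
    rw [fro_eq_trace, Matrix.conjTranspose_mul, Matrix.conjTranspose_conjTranspose, tq]
  rw [h]
  exact fro_nonneg _

theorem moment_sum {N : ℝ} (hN : 0 ≤ N) (T : Fin m → Fin m → Fin m → Fin m → ℝ)
    (hT : ∀ i j k l, T i j k l = N * ((if i = j ∧ k = l then 1 else 0) +
      (if i = k ∧ j = l then 1 else 0) + (if i = l ∧ j = k then 1 else 0) -
      2 * (if i = j ∧ j = k ∧ k = l then 1 else 0))) :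
    ∑ i, ∑ j, ∑ k, ∑ l, T i j k l * tq A i j k l ≤
      N * (fro (lft A) + fro (rgt A) + ∑ i, ∑ j, tq A i j i j) := by
  have e : ∑ i, ∑ j, ∑ k, ∑ l, T i j k l * tq A i j k l =
      N * (∑ i, ∑ k, tq A i i k k + ∑ i, ∑ j, tq A i j i j + ∑ i, ∑ j, tq A i j j i -
        2 * ∑ i, tq A i i i i) := by
    have e1 : ∀ i j k l, T i j k l * tq A i j k l =
        N * ((if i = j ∧ k = l then tq A i j k l else 0) +
      (if i = k ∧ j = l then tq A i j k l else 0) + (if i = l ∧ j = k then tq A i j k l else 0) -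
      2 * (if i = j ∧ j = k ∧ k = l then tq A i j k l else 0)) := by
      intro i j k l
      rw [hT]
      split_ifs <;> ring
    simp only [e1, ← Finset.mul_sum, Finset.sum_add_distrib, Finset.sum_sub_distrib]
    congr 2
    · congr 1
      · congr 1
        · refine Finset.sum_congr rfl fun i _ => ?_
          rw [Finset.sum_eq_single i]
          · refine Finset.sum_congr rfl fun k _ => ?_
            rw [Finset.sum_eq_single k]
            · simp
            · intro b _ hb
              simp [hb.symm]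
            · simp
          · intro b _ hb
            simp [hb.symm]
          · simp
        · refine Finset.sum_congr rfl fun i _ => ?_
          refine Finset.sum_congr rfl fun j _ => ?_
          rw [Finset.sum_eq_single i]
          · rw [Finset.sum_eq_single j]
            · simp
            · intro b _ hb
              simp [hb.symm]
            · simp
          · intro b _ hb
            simp [hb.symm]
          · simp
      · refine Finset.sum_congr rfl fun i _ => ?_
        refine Finset.sum_congr rfl fun j _ => ?_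
        rw [Finset.sum_eq_single j]
        · rw [Finset.sum_eq_single i]
          · simp
          · intro b _ hb
            simp [hb.symm]
          · simp
        · intro b _ hb
          simp [hb.symm]
        · simp
    · congr 1
      refine Finset.sum_congr rfl fun i _ => ?_
      rw [Finset.sum_eq_single i]
      · rw [Finset.sum_eq_single i]
        · rw [Finset.sum_eq_single i]
          · simp
          · intro b _ hb
            simp [hb.symm]
          · simp
        · intro b _ hb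
          simp [hb.symm]
        · simp
      · intro b _ hb
        simp [hb.symm]
      · simp
  rw [e, sum_tq_left, sum_tq_right]
  refine mul_le_mul_of_nonneg_left ?_ hN
  have h2 : 0 ≤ ∑ i, tq A i i i i := Finset.sum_nonneg fun i _ => tq_self A i
  linarith

end

/-- the fourth moment method, with the crossing term -/
theorem moment_cross (h1 : StRank) {m n : ℕ} {Ω : Type} [Fintype Ω] [Nonempty Ω]
    (a : Ω → Fin m → ℝ) (ha : Moments a) (A : Fin m → Matrix (Fin n) (Fin n) ℂ) (r : ℕ)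
    (hr : ∀ ω, (∑ k, (a ω k : ℂ) • A k).rank ≤ r) :
    (∑ k, fro (A k)) ^ 2 ≤ r * (fro (lft A) + fro (rgt A) + ∑ i, ∑ j, tq A i j i j) := by
  obtain ⟨h2, h4⟩ := ha
  have hN : (0 : ℝ) < Fintype.card Ω := by exact_mod_cast Fintype.card_pos
  set N : ℝ := (Fintype.card Ω : ℝ) with hNdef
  set M : Ω → Matrix (Fin n) (Fin n) ℂ := fun ω => ∑ k, (a ω k : ℂ) • A k with hM
  set Q : ℝ := fro (lft A) + fro (rgt A) + ∑ i, ∑ j, tq A i j i j with hQ
  have e2 : ∑ ω, fro (M ω) = N * ∑ k, fro (A k) := by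
    have e : ∀ ω, fro (M ω) = ∑ i, ∑ j, a ω i * a ω j * (A i * (A j)ᴴ).trace.re := fun ω =>
      fro_comb A (a ω)
    simp only [e]
    rw [Finset.sum_comm]
    rw [Finset.mul_sum]
    refine Finset.sum_congr rfl fun i _ => ?_
    rw [Finset.sum_comm, Finset.sum_eq_single i]
    · rw [← Finset.sum_mul, h2, if_pos rfl, fro_eq_trace]
    · intro j _ hj
      rw [← Finset.sum_mul, h2, if_neg hj.symm, zero_mul]
    · simp
  have e4 : ∑ ω, fro (M ω * (M ω)ᴴ) ≤ N * Q := by
    have e : ∀ ω, fro (M ω * (M ω)ᴴ) =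
        ∑ i, ∑ j, ∑ k, ∑ l, a ω i * a ω j * (a ω k * a ω l) * tq A i j k l := fun ω =>
      fro_comb2 A (a ω)
    simp only [e]
    have e5 : ∑ ω, ∑ i, ∑ j, ∑ k, ∑ l, a ω i * a ω j * (a ω k * a ω l) * tq A i j k l =
        ∑ i, ∑ j, ∑ k, ∑ l, (∑ ω, a ω i * a ω j * (a ω k * a ω l)) * tq A i j k l := by
      rw [Finset.sum_comm]
      refine Finset.sum_congr rfl fun i _ => ?_
      rw [Finset.sum_comm]
      refine Finset.sum_congr rfl fun j _ => ?_
      rw [Finset.sum_comm]
      refine Finset.sum_congr rfl fun k _ => ?_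
      rw [Finset.sum_comm]
      refine Finset.sum_congr rfl fun l _ => ?_
      rw [Finset.sum_mul]
    rw [e5]
    exact moment_sum A hN.le _ h4
  have h3 : ∀ ω, fro (M ω) ^ 2 ≤ r * fro (M ω * (M ω)ᴴ) := fun ω =>
    (h1 n (M ω)).trans (mul_le_mul_of_nonneg_right (by exact_mod_cast hr ω) (fro_nonneg _))
  have h5 : (∑ ω, fro (M ω)) ^ 2 ≤ N * ∑ ω, fro (M ω) ^ 2 := by
    have := sq_sum_le_card_mul_sum_sq (s := (Finset.univ : Finset Ω)) (f := fun ω => fro (M ω))
    rw [Finset.card_univ] at this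
    exact this
  have h6 : ∑ ω, fro (M ω) ^ 2 ≤ r * ∑ ω, fro (M ω * (M ω)ᴴ) := by
    rw [Finset.mul_sum]
    exact Finset.sum_le_sum fun ω _ => h3 ω
  have hr0 : (0 : ℝ) ≤ r := Nat.cast_nonneg r
  rw [e2] at h5
  have h7 : (N * ∑ k, fro (A k)) ^ 2 ≤ N * (r * (N * Q)) :=
    h5.trans (mul_le_mul_of_nonneg_left (h6.trans (mul_le_mul_of_nonneg_left e4 hr0)) hN.le)
  have h8 : N ^ 2 * (∑ k, fro (A k)) ^ 2 ≤ N ^ 2 * (r * Q) := by
    nlinarith
  exact le_of_mul_le_mul_left h8 (by positivity)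

theorem stMoment (h1 : StRank) : StMoment := by
  intro m n Ω _ _ a ha A r hr
  refine (moment_cross h1 a ha A r hr).trans (mul_le_mul_of_nonneg_left ?_ (Nat.cast_nonneg r))
  have h1 := sum_tq_cross A
  linarith

/-- a family together with its multiple by the imaginary unit -/
noncomputable def dblI {m n : ℕ} (A : Fin m → Matrix (Fin n) (Fin n) ℂ) :
    Fin (m + m) → Matrix (Fin n) (Fin n) ℂ :=
  Fin.append A fun k => Complex.I • A k

section

variable {m n : ℕ} (A : Fin m → Matrix (Fin n) (Fin n) ℂ)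

theorem dblI_left (k : Fin m) : dblI A (Fin.castAdd m k) = A k := Fin.append_left _ _ _

theorem dblI_right (k : Fin m) : dblI A (Fin.natAdd m k) = Complex.I • A k :=
  Fin.append_right _ _ _

theorem fro_smul {ι κ : Type*} [Fintype ι] [Fintype κ] (z : ℂ) (M : Matrix ι κ ℂ) :
    fro (z • M) = ‖z‖ ^ 2 * fro M := by
  rw [fro, fro, Finset.mul_sum]
  refine Finset.sum_congr rfl fun i _ => ?_
  rw [Finset.mul_sum]
  refine Finset.sum_congr rfl fun j _ => ?_
  rw [Matrix.smul_apply, smul_eq_mul, norm_mul, mul_pow]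

theorem lft_dblI : lft (dblI A) = (2 : ℂ) • lft A := by
  rw [lft, Fin.sum_univ_add, lft]
  simp only [dblI_left, dblI_right, Matrix.conjTranspose_smul, Matrix.smul_mul, Matrix.mul_smul,
    smul_smul]
  rw [two_smul]
  congr 1
  refine Finset.sum_congr rfl fun k _ => ?_
  simp

theorem rgt_dblI : rgt (dblI A) = (2 : ℂ) • rgt A := by
  rw [rgt, Fin.sum_univ_add, rgt]
  simp only [dblI_left, dblI_right, Matrix.conjTranspose_smul, Matrix.smul_mul, Matrix.mul_smul,
    smul_smul]
  rw [two_smul]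
  congr 1
  refine Finset.sum_congr rfl fun k _ => ?_
  simp

theorem sum_fro_dblI : ∑ k, fro (dblI A k) = 2 * ∑ k, fro (A k) := by
  rw [Fin.sum_univ_add]
  simp only [dblI_left, dblI_right, fro_smul, Complex.norm_I, one_pow, one_mul]
  ring

theorem cross_dblI : ∑ i, ∑ j, tq (dblI A) i j i j = 0 := by
  rw [Fin.sum_univ_add, ← Finset.sum_add_distrib]
  refine Finset.sum_eq_zero fun i _ => ?_
  rw [← Finset.sum_add_distrib]
  refine Finset.sum_eq_zero fun j _ => ?_
  rw [tq, tq, dblI_left, dblI_right]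
  simp only [Matrix.smul_mul, Matrix.mul_smul, smul_smul, Complex.I_mul_I, neg_smul, one_smul,
    Matrix.trace_neg, Complex.neg_re]
  exact add_neg_cancel _

end

/-- the fourth moment method for complex points -/
theorem moment_complex (h1 : StRank) {m n : ℕ} {Ω : Type} [Fintype Ω] [Nonempty Ω]
    (a : Ω → Fin (m + m) → ℝ) (ha : Moments a) (A : Fin m → Matrix (Fin n) (Fin n) ℂ) (r : ℕ)
    (hr : ∀ ω, (∑ k, (a ω (Fin.castAdd m k) : ℂ) • A k +
      Complex.I • ∑ k, (a ω (Fin.natAdd m k) : ℂ) • A k).rank ≤ r) :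
    (∑ k, fro (A k)) ^ 2 ≤ r * (fro (lft A) + fro (rgt A)) := by
  have h := moment_cross h1 a ha (dblI A) r (by
    intro ω
    refine le_trans (le_of_eq ?_) (hr ω)
    congr 1
    rw [Fin.sum_univ_add]
    congr 1
    · exact Finset.sum_congr rfl fun k _ => by rw [dblI_left]
    · rw [Finset.smul_sum]
      refine Finset.sum_congr rfl fun k _ => ?_
      rw [dblI_right, smul_smul, smul_smul, mul_comm])
  rw [sum_fro_dblI, lft_dblI, rgt_dblI, cross_dblI, fro_smul, fro_smul] at h
  have h2 : ‖(2 : ℂ)‖ ^ 2 = 4 := by norm_num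
  rw [h2] at h
  nlinarith

end Pool.Agent.Lib.MP_64d474_lc.Op
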