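import Mathlib
import Pool.Agent.Lib.MP_64d474_lc.Op.S2

/-!
Sign vectors with the moments of independent signs reach one third of the rank of every family with
a nonsingular blow-up; pairs of them reach one half.
-/

open Matrix Module

namespace Pool.Agent.Lib.MP_64d474_lc.Op

theorem le_of_forall_eps {n R : ℕ} (h : ∀ ε : ℝ, 0 < ε → (n : ℝ) ≤ R * (1 + ε)) : n ≤ R := by
  by_contra hcon
  push Not at hcon
  have h1 : ((R : ℝ) + 1) ≤ n := by exact_mod_cast hcon
  have hR : (0 : ℝ) ≤ R := Nat.cast_nonneg R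
  have h2 := h (1 / (R + 1)) (by positivity)
  have h3 : (R : ℝ) * (1 / (R + 1)) < 1 := by
    rw [mul_one_div, div_lt_one (by positivity)]
    linarith
  nlinarith

section

variable {n m d : ℕ} (B : Fin m → Matrix (Fin n) (Fin n) ℂ)

theorem rank_mul_mul_le (S T M : Matrix (Fin n) (Fin n) ℂ) : (S * M * T).rank ≤ M.rank :=
  (Matrix.rank_mul_le_left _ _).trans (Matrix.rank_mul_le_right _ _)

theorem sum_smul_mul (S T : Matrix (Fin n) (Fin n) ℂ) (a : Fin m → ℂ) :
    ∑ k, a k • (S * B k * T) = S * (∑ k, a k • B k) * T := by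
  rw [Matrix.mul_sum, Matrix.sum_mul]
  refine Finset.sum_congr rfl fun k _ => ?_
  rw [Matrix.mul_smul, Matrix.smul_mul]

theorem third_rank (h1 : StRank) (h6 : StScaling) (Y : Fin m → Matrix (Fin d) (Fin d) ℂ)
    (hd : 0 < d) (hdet : (blow Y B).det ≠ 0) {Ω : Type} [Fintype Ω] [Nonempty Ω]
    (a : Ω → Fin m → ℝ) (ha : Moments a) (R : ℕ)
    (hR : ∀ ω, (∑ k, (a ω k : ℂ) • B k).rank ≤ R) : n ≤ 3 * R := by
  rcases Nat.eq_zero_or_pos n with rfl | hn
  · exact Nat.zero_le _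
  refine le_of_forall_eps fun ε hε => ?_
  obtain ⟨S, T, hs, hl, hr⟩ := h6 n m d B Y hn hd hdet ε hε
  set s := ∑ k, fro (S * B k * T) with hsdef
  have h2 := stMoment h1 m n Ω a ha (fun k => S * B k * T) R (fun ω => by
    rw [sum_smul_mul]
    exact (rank_mul_mul_le S T _).trans (hR ω))
  have hR0 : (0 : ℝ) ≤ R := Nat.cast_nonneg R
  have hn0 : (0 : ℝ) < n := by exact_mod_cast hn
  have h3 : (n : ℝ) * s ^ 2 ≤ ((3 * R : ℕ) : ℝ) * (1 + ε) * s ^ 2 := by
    calc (n : ℝ) * s ^ 2 ≤ n * (R * (fro (lft fun k => S * B k * T) +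
          2 * fro (rgt fun k => S * B k * T))) := mul_le_mul_of_nonneg_left h2 hn0.le
      _ = R * (n * fro (lft fun k => S * B k * T) + 2 * (n * fro (rgt fun k => S * B k * T))) := by
          ring
      _ ≤ R * ((1 + ε) * s ^ 2 + 2 * ((1 + ε) * s ^ 2)) := by
          refine mul_le_mul_of_nonneg_left ?_ hR0
          linarith
      _ = ((3 * R : ℕ) : ℝ) * (1 + ε) * s ^ 2 := by
          push_cast
          ring
  exact le_of_mul_le_mul_right h3 (by positivity)

theorem half_rank (h1 : StRank) (h6 : StScaling) (Y : Fin m → Matrix (Fin d) (Fin d) ℂ)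
    (hd : 0 < d) (hdet : (blow Y B).det ≠ 0) {Ω : Type} [Fintype Ω] [Nonempty Ω]
    (a : Ω → Fin (m + m) → ℝ) (ha : Moments a) (R : ℕ)
    (hR : ∀ ω, (∑ k, (a ω (Fin.castAdd m k) : ℂ) • B k +
      Complex.I • ∑ k, (a ω (Fin.natAdd m k) : ℂ) • B k).rank ≤ R) : n ≤ 2 * R := by
  rcases Nat.eq_zero_or_pos n with rfl | hn
  · exact Nat.zero_le _
  refine le_of_forall_eps fun ε hε => ?_
  obtain ⟨S, T, hs, hl, hr⟩ := h6 n m d B Y hn hd hdet ε hε
  set s := ∑ k, fro (S * B k * T) with hsdef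
  have h2 := moment_complex h1 a ha (fun k => S * B k * T) R (fun ω => by
    rw [sum_smul_mul, sum_smul_mul]
    refine le_trans (le_of_eq ?_) ((rank_mul_mul_le S T _).trans (hR ω))
    congr 1
    rw [Matrix.mul_add, Matrix.add_mul, Matrix.mul_smul, Matrix.smul_mul])
  have hR0 : (0 : ℝ) ≤ R := Nat.cast_nonneg R
  have hn0 : (0 : ℝ) < n := by exact_mod_cast hn
  have h3 : (n : ℝ) * s ^ 2 ≤ ((2 * R : ℕ) : ℝ) * (1 + ε) * s ^ 2 := by
    calc (n : ℝ) * s ^ 2 ≤ n * (R * (fro (lft fun k => S * B k * T) +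
          fro (rgt fun k => S * B k * T))) := mul_le_mul_of_nonneg_left h2 hn0.le
      _ = R * (n * fro (lft fun k => S * B k * T) + n * fro (rgt fun k => S * B k * T)) := by
          ring
      _ ≤ R * ((1 + ε) * s ^ 2 + (1 + ε) * s ^ 2) := by
          refine mul_le_mul_of_nonneg_left ?_ hR0
          linarith
      _ = ((2 * R : ℕ) : ℝ) * (1 + ε) * s ^ 2 := by
          push_cast
          ring
  exact le_of_mul_le_mul_right h3 (by positivity)

end

/-- Sign vectors reach one third of the noncommutative rank. -/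
theorem sign_third.{u} (h1 : StRank) (h6 : StScaling) (h7 : StSign) (h8 : StEmbed.{u})
    {K : Type} [Field K] [CharP K 2] {l m : ℕ} (φ : K → Fin l → ZMod 2) (α : Fin m → K)
    (hφ : ∀ x y, φ (x + y) = φ x + φ y) (hφi : Function.Injective φ)
    (hα : Function.Injective α) {F : Type u} [Field F] [CharZero F] {n r d : ℕ} (hd : 0 < d)
    (B : Fin m → Matrix (Fin n) (Fin n) F) (S : Matrix (Fin r) (Fin n) F)
    (T : Matrix (Fin n) (Fin r) F) (Y : Fin m → Matrix (Fin d) (Fin d) F)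
    (hdet : (blow Y fun k => S * B k * T).det ≠ 0) :
    ∃ ω, r ≤ 3 * (∑ k, (signVec φ α ω k : F) • B k).rank := by
  classical
  obtain ⟨B', Y', hdet', hle⟩ := h8 F n r d m B S T Y hdet
  obtain ⟨ω, -, hω⟩ := Finset.exists_mem_eq_sup
    (Finset.univ : Finset ((Fin l → ZMod 2) × (Fin l → ZMod 2))) Finset.univ_nonempty
    (fun ω => (∑ k, (signVec φ α ω k : F) • B k).rank)
  refine ⟨ω, ?_⟩
  rw [← hω]
  refine third_rank B' h1 h6 Y' hd hdet' _ (h7 K l m φ α hφ hφi hα) _ fun ω => ?_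
  have h2 := (hle (signVec φ α ω)).trans (Finset.le_sup
    (f := fun ω => (∑ k, (signVec φ α ω k : F) • B k).rank) (Finset.mem_univ ω))
  refine le_trans (le_of_eq ?_) h2
  congr 1

/-- Pairs of sign vectors reach one half of the noncommutative rank. -/
theorem pair_half.{u} (h1 : StRank) (h6 : StScaling) (h7 : StSign) (h8 : StEmbed.{u})
    (h9 : StPencil.{0}) {K : Type} [Field K] [CharP K 2] {l m : ℕ} (φ : K → Fin l → ZMod 2)
    (α : Fin (m + m) → K) (hφ : ∀ x y, φ (x + y) = φ x + φ y) (hφi : Function.Injective φ)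
    (hα : Function.Injective α) {F : Type u} [Field F] [CharZero F] {n r d : ℕ} (hd : 0 < d)
    (B : Fin m → Matrix (Fin n) (Fin n) F) (S : Matrix (Fin r) (Fin n) F)
    (T : Matrix (Fin n) (Fin r) F) (Y : Fin m → Matrix (Fin d) (Fin d) F)
    (hdet : (blow Y fun k => S * B k * T).det ≠ 0) (L : ℕ) :
    ∃ ω, ∃ z : ℕ, z ≤ L ∧ L * r ≤ 2 * ((L + 1) * (∑ k, ((signVec φ α ω (Fin.castAdd m k) +
      z * signVec φ α ω (Fin.natAdd m k) : ℤ) : F) • B k).rank) := by
  classical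
  obtain ⟨B', Y', hdet', hle⟩ := h8 F n r d m B S T Y hdet
  obtain ⟨ω, -, hω⟩ := Finset.exists_mem_eq_sup
    (Finset.univ : Finset ((Fin l → ZMod 2) × (Fin l → ZMod 2))) Finset.univ_nonempty
    (fun ω => (∑ k, (signVec φ α ω (Fin.castAdd m k) : ℂ) • B' k +
      Complex.I • ∑ k, (signVec φ α ω (Fin.natAdd m k) : ℂ) • B' k).rank)
  have h2 : r ≤ 2 * (∑ k, (signVec φ α ω (Fin.castAdd m k) : ℂ) • B' k +
      Complex.I • ∑ k, (signVec φ α ω (Fin.natAdd m k) : ℂ) • B' k).rank := by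
    rw [← hω]
    refine half_rank B' h1 h6 Y' hd hdet' _ (h7 K l (m + m) φ α hφ hφi hα) _ fun ω => ?_
    refine le_trans (le_of_eq ?_) (Finset.le_sup (f := fun ω =>
      (∑ k, (signVec φ α ω (Fin.castAdd m k) : ℂ) • B' k +
      Complex.I • ∑ k, (signVec φ α ω (Fin.natAdd m k) : ℂ) • B' k).rank) (Finset.mem_univ ω))
    push_cast
    rfl
  obtain ⟨z, hz, h3⟩ := h9 ℂ r r L (∑ k, (signVec φ α ω (Fin.castAdd m k) : ℂ) • B' k)
    (∑ k, (signVec φ α ω (Fin.natAdd m k) : ℂ) • B' k) Complex.I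
  refine ⟨ω, z, hz, ?_⟩
  have h4 := hle fun k => signVec φ α ω (Fin.castAdd m k) + z * signVec φ α ω (Fin.natAdd m k)
  have h5 : ∑ k, (signVec φ α ω (Fin.castAdd m k) : ℂ) • B' k +
      (z : ℂ) • ∑ k, (signVec φ α ω (Fin.natAdd m k) : ℂ) • B' k =
      ∑ k, ((signVec φ α ω (Fin.castAdd m k) + z * signVec φ α ω (Fin.natAdd m k) : ℤ) : ℂ) •
        B' k := by
    rw [Finset.smul_sum, ← Finset.sum_add_distrib]
    refine Finset.sum_congr rfl fun k _ => ?_
    rw [smul_smul, ← add_smul]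
    push_cast
    rfl
  rw [h5] at h3
  calc L * r ≤ L * (2 * (∑ k, (signVec φ α ω (Fin.castAdd m k) : ℂ) • B' k +
        Complex.I • ∑ k, (signVec φ α ω (Fin.natAdd m k) : ℂ) • B' k).rank) :=
        Nat.mul_le_mul_left _ h2
    _ = 2 * (L * (∑ k, (signVec φ α ω (Fin.castAdd m k) : ℂ) • B' k +
        Complex.I • ∑ k, (signVec φ α ω (Fin.natAdd m k) : ℂ) • B' k).rank) := by ring
    _ ≤ _ := Nat.mul_le_mul_left _ (h3.trans (Nat.mul_le_mul_left _ h4))

end Pool.Agent.Lib.MP_64d474_lc.Op
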