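import Pool.Agent.Lib.MP_64d474_lc.Op.Stmts

/-! S1: the rank is at least `(tr M M*)² / tr (M M*)²`. -/

open Matrix Module
open scoped ComplexOrder

namespace Pool.Agent.Lib.MP_64d474_lc.Op

namespace S1A

variable {ι : Type*} [Fintype ι]

lemma fro_trace (M : Matrix ι ι ℂ) : ((fro M : ℝ) : ℂ) = (M * Mᴴ).trace := by
  simp only [fro, Matrix.trace, Matrix.diag_apply, Matrix.mul_apply, Matrix.conjTranspose_apply]
  push_cast
  refine Finset.sum_congr rfl fun i _ => Finset.sum_congr rfl fun j _ => ?_
  rw [← Complex.mul_conj']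
  rfl

variable [DecidableEq ι]

lemma fro_eq (M : Matrix ι ι ℂ) :
    fro M = ∑ i, (isHermitian_mul_conjTranspose_self M).eigenvalues i := by
  have h := (isHermitian_mul_conjTranspose_self M).trace_eq_sum_eigenvalues
  rw [← fro_trace] at h
  have h2 : ((fro M : ℝ) : ℂ) =
      ((∑ i, (isHermitian_mul_conjTranspose_self M).eigenvalues i : ℝ) : ℂ) := by
    rw [h]; push_cast; rfl
  exact_mod_cast h2

lemma fro_herm {H : Matrix ι ι ℂ} (hH : H.IsHermitian) : fro H = ∑ i, hH.eigenvalues i ^ 2 := by
  have e : ((fro H : ℝ) : ℂ) = ((∑ i, hH.eigenvalues i ^ 2 : ℝ) : ℂ) := by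
    rw [fro_trace, hH.eq]
    set U : Matrix ι ι ℂ := hH.eigenvectorUnitary.1 with hU
    set D : Matrix ι ι ℂ := diagonal (RCLike.ofReal ∘ hH.eigenvalues) with hD
    have hsp : H = U * D * star U := by
      conv_lhs => rw [hH.spectral_theorem, Unitary.conjStarAlgAut_apply]
    have hUU : star U * U = 1 := Unitary.coe_star_mul_self hH.eigenvectorUnitary
    have h2 : H * H = U * (D * D) * star U := by
      rw [hsp]
      calc U * D * star U * (U * D * star U) = U * D * (star U * U) * D * star U := by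
            simp only [mul_assoc]
        _ = _ := by rw [hUU, mul_one]; simp only [mul_assoc]
    rw [h2, Matrix.trace_mul_comm, ← mul_assoc, hUU, one_mul, hD, Matrix.diagonal_mul_diagonal,
      Matrix.trace_diagonal]
    push_cast
    refine Finset.sum_congr rfl fun i _ => ?_
    simp only [Function.comp_apply]
    rw [sq]
    rfl
  exact_mod_cast e

end S1A

open S1A in
/-- S1 -/
theorem stRank : StRank := by
  intro n M
  set hH := isHermitian_mul_conjTranspose_self M with hHdef
  rw [fro_eq M, fro_herm hH]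
  have hr : M.rank = Fintype.card {i // hH.eigenvalues i ≠ 0} := by
    rw [← hH.rank_eq_card_non_zero_eigs, rank_self_mul_conjTranspose]
  classical
  rw [hr, Fintype.card_subtype]
  set s := Finset.univ.filter fun i => hH.eigenvalues i ≠ 0 with hs
  have h1 : ∑ i, hH.eigenvalues i = ∑ i ∈ s, hH.eigenvalues i := by
    rw [hs, Finset.sum_filter_ne_zero]
  rw [h1]
  calc (∑ i ∈ s, hH.eigenvalues i) ^ 2 ≤ (s.card : ℝ) * ∑ i ∈ s, hH.eigenvalues i ^ 2 :=
        sq_sum_le_card_mul_sum_sq
    _ ≤ (s.card : ℝ) * ∑ i, hH.eigenvalues i ^ 2 := by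
        apply mul_le_mul_of_nonneg_left _ (by positivity)
        exact Finset.sum_le_univ_sum_of_nonneg fun i => sq_nonneg _

end Pool.Agent.Lib.MP_64d474_lc.Op
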