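import Mathlib
import Pool.Agent.Lib.MP_64d474_lc.Op.Stmts

/-!
# S3: stability of the inequality of the means
-/

namespace Pool.Agent.Lib.MP_64d474_lc.Op

lemma log_le_quad (N : ℝ) (hN : 1 ≤ N) (x : ℝ) (hx0 : 0 < x) (hxN : x ≤ N) :
    Real.log x ≤ x - 1 - (x - 1) ^ 2 / (2 * N) := by
  have hN0 : 0 < N := by linarith
  have hder : ∀ y : ℝ, 0 < y → HasDerivAt
      (fun y : ℝ => y - 1 - (y - 1) ^ 2 / (2 * N) - Real.log y) ((y - 1) * (N - y) / (N * y)) y := by
    intro y hy
    have h1 : HasDerivAt (fun y : ℝ => y - 1) 1 y := (hasDerivAt_id y).sub_const 1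
    have h2 : HasDerivAt (fun y : ℝ => (y - 1) ^ 2 / (2 * N)) ((2 * (y - 1)) / (2 * N)) y := by
      have := (h1.pow 2).div_const (2 * N)
      simpa using this
    have h3 := (h1.sub h2).sub (Real.hasDerivAt_log hy.ne')
    have h4 : 1 - 2 * (y - 1) / (2 * N) - y⁻¹ = (y - 1) * (N - y) / (N * y) := by
      field_simp
      ring
    rw [← h4]
    exact h3
  have hcont : ∀ a b : ℝ, 0 < a → ContinuousOn
      (fun y : ℝ => y - 1 - (y - 1) ^ 2 / (2 * N) - Real.log y) (Set.Icc a b) := by
    intro a b ha y hy
    exact (hder y (lt_of_lt_of_le ha hy.1)).continuousAt.continuousWithinAt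
  have key : (fun y : ℝ => y - 1 - (y - 1) ^ 2 / (2 * N) - Real.log y) 1 ≤
      (fun y : ℝ => y - 1 - (y - 1) ^ 2 / (2 * N) - Real.log y) x := by
    rcases le_total x 1 with h | h
    · have hanti : AntitoneOn (fun y : ℝ => y - 1 - (y - 1) ^ 2 / (2 * N) - Real.log y)
          (Set.Icc x 1) := by
        apply antitoneOn_of_deriv_nonpos (convex_Icc x 1) (hcont x 1 hx0)
        · intro y hy
          rw [interior_Icc] at hy
          exact (hder y (lt_trans hx0 hy.1)).differentiableAt.differentiableWithinAt
        · intro y hy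
          rw [interior_Icc] at hy
          have hy0 : 0 < y := lt_trans hx0 hy.1
          rw [(hder y hy0).deriv]
          apply div_nonpos_of_nonpos_of_nonneg
          · apply mul_nonpos_of_nonpos_of_nonneg
            · linarith [hy.2]
            · linarith [hy.2]
          · positivity
      exact hanti (Set.left_mem_Icc.2 h) (Set.right_mem_Icc.2 h) h
    · have hmono : MonotoneOn (fun y : ℝ => y - 1 - (y - 1) ^ 2 / (2 * N) - Real.log y)
          (Set.Icc 1 x) := by
        apply monotoneOn_of_deriv_nonneg (convex_Icc 1 x) (hcont 1 x one_pos)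
        · intro y hy
          rw [interior_Icc] at hy
          exact (hder y (lt_trans one_pos hy.1)).differentiableAt.differentiableWithinAt
        · intro y hy
          rw [interior_Icc] at hy
          have hy0 : 0 < y := lt_trans one_pos hy.1
          rw [(hder y hy0).deriv]
          apply div_nonneg
          · apply mul_nonneg
            · linarith [hy.1]
            · linarith [hy.2]
          · positivity
      exact hmono (Set.left_mem_Icc.2 h) (Set.right_mem_Icc.2 h) h
  simp only [sub_self, Real.log_one] at key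
  have : (0 : ℝ) ^ 2 / (2 * N) = 0 := by simp
  rw [this] at key
  linarith

theorem stAmgm : StAmgm := by
  intro n x η hx hsum hprod
  rcases Nat.eq_zero_or_pos n with rfl | hn
  · simp
  have hN : (1 : ℝ) ≤ n := by exact_mod_cast hn
  have hle : ∀ i, x i ≤ n := by
    intro i
    rw [← hsum]
    exact Finset.single_le_sum (fun j _ => (hx j).le) (Finset.mem_univ i)
  have hlog : -η ≤ ∑ i, Real.log (x i) := by
    rw [← Real.log_prod (fun i _ => (hx i).ne')]
    rw [← Real.log_exp (-η)]
    exact Real.log_le_log (Real.exp_pos _) hprod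
  have h2 : ∑ i, Real.log (x i) ≤ ∑ i, (x i - 1 - (x i - 1) ^ 2 / (2 * (n : ℝ))) :=
    Finset.sum_le_sum fun i _ => log_le_quad n hN (x i) (hx i) (hle i)
  have h3 : ∑ i, (x i - 1 - (x i - 1) ^ 2 / (2 * (n : ℝ))) =
      -(∑ i, (x i - 1) ^ 2) / (2 * (n : ℝ)) := by
    rw [Finset.sum_sub_distrib, Finset.sum_sub_distrib, hsum, ← Finset.sum_div]
    simp
    ring
  rw [h3] at h2
  have h4 := hlog.trans h2
  have hpos : (0 : ℝ) < 2 * n := by linarith
  rw [le_div_iff₀ hpos] at h4
  linarith

end Pool.Agent.Lib.MP_64d474_lc.Op
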