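import Pool.Agent.Lib.MP_64d474_lc.Op.Stmts

set_option autoImplicit false

/-! Module S4: normalisation of a family with nonsingular `∑ A_k A_k*`. -/

open Matrix Module ComplexOrder

namespace Pool.Agent.Lib.MP_64d474_lc.Op
namespace S4

lemma fro_eq_trace {ι κ : Type*} [Fintype ι] [Fintype κ] (M : Matrix ι κ ℂ) :
    (fro M : ℂ) = (M * Mᴴ).trace := by
  unfold fro
  rw [Matrix.trace]
  push_cast
  refine Finset.sum_congr rfl fun i _ => ?_
  rw [Matrix.diag_apply, Matrix.mul_apply]
  refine Finset.sum_congr rfl fun j _ => ?_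
  rw [Matrix.conjTranspose_apply, ← starRingEnd_apply, Complex.mul_conj, Complex.normSq_eq_norm_sq]
  push_cast
  rfl

lemma sum_fro {ι : Type*} [Fintype ι] {m : ℕ} (H : Matrix ι ι ℂ) (A : Fin m → Matrix ι ι ℂ) :
    ((∑ k, fro (H * A k) : ℝ) : ℂ) = (H * lft A * Hᴴ).trace := by
  push_cast
  simp only [fro_eq_trace]
  rw [← Matrix.trace_sum]
  congr 1
  unfold lft
  rw [Finset.mul_sum, Finset.sum_mul]
  refine Finset.sum_congr rfl fun k _ => ?_
  rw [Matrix.conjTranspose_mul]
  simp only [Matrix.mul_assoc]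

lemma lft_posSemidef {ι : Type*} [Fintype ι] {m : ℕ} (A : Fin m → Matrix ι ι ℂ) :
    (lft A).PosSemidef := by
  unfold lft
  exact Matrix.posSemidef_sum _ fun k _ => Matrix.posSemidef_self_mul_conjTranspose (A k)

end S4

open S4 in
theorem stNormal : StNormal := by
  intro n m A hdet
  have hps := lft_posSemidef A
  have hpd : (lft A).PosDef := hps.posDef_iff_det_ne_zero.mpr hdet
  have hL : (lft A).IsHermitian := hps.1
  set x : Fin n → ℝ := hL.eigenvalues with hx
  have hxpos : ∀ i, 0 < x i := fun i => hL.posDef_iff_eigenvalues_pos.mp hpd i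
  set U : Matrix (Fin n) (Fin n) ℂ := (hL.eigenvectorUnitary : Matrix (Fin n) (Fin n) ℂ) with hU
  have hUU : star U * U = 1 := Unitary.coe_star_mul_self hL.eigenvectorUnitary
  set D : Matrix (Fin n) (Fin n) ℂ := diagonal fun i => (x i : ℂ) with hD
  have hspec : lft A = U * D * star U := by
    have := hL.spectral_theorem
    rw [Unitary.conjStarAlgAut_apply] at this
    exact this
  have hUH : star U = Uᴴ := rfl
  set E : Matrix (Fin n) (Fin n) ℂ := diagonal fun i => (((Real.sqrt (x i))⁻¹ : ℝ) : ℂ) with hE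
  have hEH : Eᴴ = E := by
    rw [hE, Matrix.diagonal_conjTranspose]
    congr 1
    funext i
    rw [Pi.star_apply, ← starRingEnd_apply, Complex.conj_ofReal]
  have hDH : Dᴴ = D := by
    rw [hD, Matrix.diagonal_conjTranspose]
    congr 1
    funext i
    rw [Pi.star_apply, ← starRingEnd_apply, Complex.conj_ofReal]
  have hEDE : E * D * E = 1 := by
    rw [hE, hD, Matrix.diagonal_mul_diagonal, Matrix.diagonal_mul_diagonal, ← Matrix.diagonal_one]
    congr 1
    funext i
    rw [← Complex.ofReal_mul, ← Complex.ofReal_mul]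
    have h1 : 0 < Real.sqrt (x i) := Real.sqrt_pos.mpr (hxpos i)
    have h2 : Real.sqrt (x i) * Real.sqrt (x i) = x i := Real.mul_self_sqrt (hxpos i).le
    have h3 : (Real.sqrt (x i))⁻¹ * x i * (Real.sqrt (x i))⁻¹ = 1 := by
      rw [← h2]
      have h4 : Real.sqrt (Real.sqrt (x i) * Real.sqrt (x i)) = Real.sqrt (x i) := by rw [h2]
      rw [h4]
      field_simp
    rw [h3, Complex.ofReal_one]
  refine ⟨x, E * star U, hxpos, ?_, ?_, ?_, ?_⟩
  · have h1 := sum_fro (1 : Matrix (Fin n) (Fin n) ℂ) A
    simp only [Matrix.one_mul, Matrix.conjTranspose_one, Matrix.mul_one] at h1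
    rw [hL.trace_eq_sum_eigenvalues] at h1
    have h2 : ((∑ k, fro (A k) : ℝ) : ℂ) = ((∑ i, x i : ℝ) : ℂ) := by
      rw [h1]; push_cast; rfl
    exact (Complex.ofReal_injective h2).symm
  · have h1 := fro_eq_trace (lft A)
    rw [hL.eq] at h1
    have h2 : lft A * lft A = U * (D * D) * star U := by
      rw [hspec]
      calc U * D * star U * (U * D * star U) = U * D * (star U * U) * D * star U := by
            simp only [Matrix.mul_assoc]
        _ = U * (D * D) * star U := by rw [hUU, Matrix.mul_one]; simp only [Matrix.mul_assoc]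
    rw [h2, Matrix.trace_mul_cycle, hUU, Matrix.one_mul, hD, Matrix.diagonal_mul_diagonal,
      Matrix.trace_diagonal] at h1
    have h3 : ((fro (lft A) : ℝ) : ℂ) = ((∑ i, x i ^ 2 : ℝ) : ℂ) := by
      rw [h1]; push_cast
      exact Finset.sum_congr rfl fun i _ => by ring
    exact (Complex.ofReal_injective h3).symm
  · have h1 := sum_fro (E * star U) A
    have h2 : E * star U * lft A * (E * star U)ᴴ = 1 := by
      rw [hspec, Matrix.conjTranspose_mul, hEH, hUH, Matrix.conjTranspose_conjTranspose, ← hUH]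
      calc E * star U * (U * D * star U) * (U * E) = E * (star U * U) * D * (star U * U) * E := by
            simp only [Matrix.mul_assoc]
        _ = E * D * E := by rw [hUU]; simp only [Matrix.mul_one]
        _ = 1 := hEDE
    rw [h2, Matrix.trace_one, Fintype.card_fin] at h1
    have h3 : ((∑ k, fro (E * star U * A k) : ℝ) : ℂ) = ((n : ℝ) : ℂ) := by
      rw [h1]; push_cast; rfl
    exact Complex.ofReal_injective h3
  · rw [Matrix.det_mul, norm_mul, mul_pow]
    have h1 : ‖(star U).det‖ = 1 := by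
      have h2 : (star U).det * U.det = 1 := by rw [← Matrix.det_mul, hUU, Matrix.det_one]
      have h3 : (star U).det = star U.det := by rw [hUH, Matrix.det_conjTranspose]
      have h4 : ‖(star U).det‖ = ‖U.det‖ := by rw [h3, norm_star]
      have h5 : ‖(star U).det‖ * ‖(star U).det‖ = 1 := by
        nth_rw 2 [h4]
        rw [← norm_mul, h2, norm_one]
      nlinarith [norm_nonneg (star U).det]
    have h2 : ‖E.det‖ ^ 2 = ∏ i, (x i)⁻¹ := by
      rw [hE, Matrix.det_diagonal, norm_prod, ← Finset.prod_pow]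
      refine Finset.prod_congr rfl fun i _ => ?_
      rw [Complex.norm_real, Real.norm_eq_abs, sq_abs, inv_pow, Real.sq_sqrt (hxpos i).le]
    rw [h1, h2, one_pow, mul_one, ← Finset.prod_mul_distrib]
    exact Finset.prod_eq_one fun i _ => inv_mul_cancel₀ (hxpos i).ne'

end Pool.Agent.Lib.MP_64d474_lc.Op
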