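import Pool.Agent.Lib.MP_64d474_lc.Op.Stmts

/-! S5: the inequality between determinant and Frobenius norm. -/

open Matrix Module
open scoped ComplexOrder

namespace Pool.Agent.Lib.MP_64d474_lc.Op

namespace S5A

variable {ι : Type*} [Fintype ι]

lemma fro_trace (M : Matrix ι ι ℂ) : ((fro M : ℝ) : ℂ) = (M * Mᴴ).trace := by
  simp only [fro, Matrix.trace, Matrix.diag_apply, Matrix.mul_apply, Matrix.conjTranspose_apply]
  push_cast
  refine Finset.sum_congr rfl fun i _ => Finset.sum_congr rfl fun j _ => ?_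
  rw [← Complex.mul_conj']
  rfl

variable [DecidableEq ι]

lemma fro_eq (M : Matrix ι ι ℂ) :
    fro M = ∑ i, (isHermitian_mul_conjTranspose_self M).eigenvalues i := by
  have h := (isHermitian_mul_conjTranspose_self M).trace_eq_sum_eigenvalues
  rw [← fro_trace] at h
  have h2 : ((fro M : ℝ) : ℂ) =
      ((∑ i, (isHermitian_mul_conjTranspose_self M).eigenvalues i : ℝ) : ℂ) := by
    rw [h]; push_cast; rfl
  exact_mod_cast h2

lemma det_eq (M : Matrix ι ι ℂ) :
    ‖M.det‖ ^ 2 = ∏ i, (isHermitian_mul_conjTranspose_self M).eigenvalues i := by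
  have h := (isHermitian_mul_conjTranspose_self M).det_eq_prod_eigenvalues
  rw [det_mul, det_conjTranspose] at h
  have h2 : ((‖M.det‖ ^ 2 : ℝ) : ℂ) =
      ((∏ i, (isHermitian_mul_conjTranspose_self M).eigenvalues i : ℝ) : ℂ) := by
    push_cast
    rw [← Complex.mul_conj']
    exact h
  exact_mod_cast h2

end S5A

open S5A in
/-- S5 -/
theorem stDet : StDet := by
  intro ι _ _ M
  rw [det_eq, fro_eq]
  set x := (isHermitian_mul_conjTranspose_self M).eigenvalues with hx
  have hx0 : ∀ i, 0 ≤ x i := fun i => (posSemidef_self_mul_conjTranspose M).eigenvalues_nonneg i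
  rcases isEmpty_or_nonempty ι with hι | hι
  · simp
  set N := Fintype.card ι with hN
  have hN0 : 0 < N := Fintype.card_pos
  have hNr : (0 : ℝ) < N := by exact_mod_cast hN0
  have h := Real.geom_mean_le_arith_mean_weighted Finset.univ (fun _ : ι => (N : ℝ)⁻¹) x
    (fun i _ => by positivity) (by
      rw [Finset.sum_const, Finset.card_univ, nsmul_eq_mul]
      exact mul_inv_cancel₀ hNr.ne') (fun i _ => hx0 i)
  rw [← Finset.mul_sum] at h
  have h0 : 0 ≤ ∏ i, x i ^ (N : ℝ)⁻¹ := Finset.prod_nonneg fun i _ => Real.rpow_nonneg (hx0 i) _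
  have h2 := pow_le_pow_left₀ h0 h N
  have h3 : (∏ i, x i ^ (N : ℝ)⁻¹) ^ N = ∏ i, x i := by
    rw [← Finset.prod_pow]
    refine Finset.prod_congr rfl fun i _ => ?_
    rw [← Real.rpow_natCast, ← Real.rpow_mul (hx0 i), inv_mul_cancel₀ hNr.ne', Real.rpow_one]
  rw [h3, mul_pow] at h2
  calc (N : ℝ) ^ N * ∏ i, x i ≤ (N : ℝ) ^ N * ((N : ℝ)⁻¹ ^ N * (∑ i, x i) ^ N) := by gcongr
    _ = (∑ i, x i) ^ N := by
        rw [← mul_assoc, ← mul_pow, mul_inv_cancel₀ hNr.ne', one_pow, one_mul]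

end Pool.Agent.Lib.MP_64d474_lc.Op
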