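import Pool.Agent.Lib.MP_64d474_lc.Op.Stmts

/-!
# S6: operator scaling of families with a nonsingular blow-up
-/

open Matrix Module
open scoped ComplexOrder

namespace Pool.Agent.Lib.MP_64d474_lc.Op

namespace S6

theorem fro_nonneg {ι κ : Type*} [Fintype ι] [Fintype κ] (M : Matrix ι κ ℂ) : 0 ≤ fro M :=
  Finset.sum_nonneg fun _ _ => Finset.sum_nonneg fun _ _ => by positivity

theorem fro_conjTranspose {ι κ : Type*} [Fintype ι] [Fintype κ] (M : Matrix ι κ ℂ) :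
    fro Mᴴ = fro M := by
  unfold fro
  rw [Finset.sum_comm]
  refine Finset.sum_congr rfl fun i _ => Finset.sum_congr rfl fun j _ => ?_
  rw [Matrix.conjTranspose_apply, norm_star]

/-- The blow-up of the scaled family. -/
theorem blow_scale {n m d : ℕ} (B : Fin m → Matrix (Fin n) (Fin n) ℂ)
    (Y : Fin m → Matrix (Fin d) (Fin d) ℂ) (S T : Matrix (Fin n) (Fin n) ℂ) :
    blow Y (fun k => S * B k * T) =
      Matrix.kroneckerMap (· * ·) (1 : Matrix (Fin d) (Fin d) ℂ) S * blow Y B *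
        Matrix.kroneckerMap (· * ·) (1 : Matrix (Fin d) (Fin d) ℂ) T := by
  unfold blow
  rw [Matrix.mul_sum, Matrix.sum_mul]
  refine Finset.sum_congr rfl fun k _ => ?_
  rw [← Matrix.mul_kronecker_mul, ← Matrix.mul_kronecker_mul, one_mul, mul_one]

theorem det_blow_scale {n m d : ℕ} (B : Fin m → Matrix (Fin n) (Fin n) ℂ)
    (Y : Fin m → Matrix (Fin d) (Fin d) ℂ) (S T : Matrix (Fin n) (Fin n) ℂ) :
    (blow Y (fun k => S * B k * T)).det = S.det ^ d * (blow Y B).det * T.det ^ d := by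
  rw [blow_scale, Matrix.det_mul, Matrix.det_mul, Matrix.det_kronecker, Matrix.det_kronecker]
  simp

/-- Cauchy-Schwarz for the blow-up. -/
theorem fro_blow_le {n m d : ℕ} (A : Fin m → Matrix (Fin n) (Fin n) ℂ)
    (Y : Fin m → Matrix (Fin d) (Fin d) ℂ) :
    fro (blow Y A) ≤ (∑ k, fro (Y k)) * ∑ k, fro (A k) := by
  have h1 : ∀ (i i' : Fin d) (j j' : Fin n), ‖(blow Y A) (i, j) (i', j')‖ ^ 2 ≤
      (∑ k, ‖Y k i i'‖ ^ 2) * ∑ k, ‖A k j j'‖ ^ 2 := by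
    intro i i' j j'
    have h2 : (blow Y A) (i, j) (i', j') = ∑ k, Y k i i' * A k j j' := by
      unfold blow
      rw [Matrix.sum_apply]
      rfl
    rw [h2]
    have h3 : ‖∑ k, Y k i i' * A k j j'‖ ≤ ∑ k, ‖Y k i i'‖ * ‖A k j j'‖ := by
      refine (norm_sum_le _ _).trans (le_of_eq ?_)
      refine Finset.sum_congr rfl fun k _ => norm_mul _ _
    calc ‖∑ k, Y k i i' * A k j j'‖ ^ 2 ≤ (∑ k, ‖Y k i i'‖ * ‖A k j j'‖) ^ 2 :=
          pow_le_pow_left₀ (norm_nonneg _) h3 2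
      _ ≤ _ := Finset.sum_mul_sq_le_sq_mul_sq _ _ _
  have h4 : ∑ i : Fin d, ∑ i' : Fin d, ∑ k, ‖Y k i i'‖ ^ 2 = ∑ k, fro (Y k) := by
    unfold fro
    rw [Finset.sum_comm' (t' := Finset.univ) (s' := fun _ => Finset.univ) (by simp)]
    rw [Finset.sum_comm]
    have : ∀ i' : Fin d, ∑ i : Fin d, ∑ k, ‖Y k i i'‖ ^ 2 = ∑ k, ∑ i : Fin d, ‖Y k i i'‖ ^ 2 :=
      fun i' => Finset.sum_comm
    rw [Finset.sum_comm]
    simp only [this]
    rw [Finset.sum_comm]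
    refine Finset.sum_congr rfl fun k _ => Finset.sum_comm
  have h5 : ∑ j : Fin n, ∑ j' : Fin n, ∑ k, ‖A k j j'‖ ^ 2 = ∑ k, fro (A k) := by
    unfold fro
    have : ∀ j : Fin n, ∑ j' : Fin n, ∑ k, ‖A k j j'‖ ^ 2 = ∑ k, ∑ j' : Fin n, ‖A k j j'‖ ^ 2 :=
      fun j => Finset.sum_comm
    simp only [this]
    rw [Finset.sum_comm]
  calc fro (blow Y A) = ∑ i : Fin d, ∑ j : Fin n, ∑ i' : Fin d, ∑ j' : Fin n,
        ‖(blow Y A) (i, j) (i', j')‖ ^ 2 := by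
        unfold fro
        rw [Fintype.sum_prod_type]
        refine Finset.sum_congr rfl fun i _ => Finset.sum_congr rfl fun j _ => ?_
        rw [Fintype.sum_prod_type]
    _ ≤ ∑ i : Fin d, ∑ j : Fin n, ∑ i' : Fin d, ∑ j' : Fin n,
        (∑ k, ‖Y k i i'‖ ^ 2) * ∑ k, ‖A k j j'‖ ^ 2 := by
        refine Finset.sum_le_sum fun i _ => Finset.sum_le_sum fun j _ =>
          Finset.sum_le_sum fun i' _ => Finset.sum_le_sum fun j' _ => h1 i i' j j'
    _ = (∑ i : Fin d, ∑ i' : Fin d, ∑ k, ‖Y k i i'‖ ^ 2) *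
        ∑ j : Fin n, ∑ j' : Fin n, ∑ k, ‖A k j j'‖ ^ 2 := by
        rw [Finset.sum_mul_sum]
        refine Finset.sum_congr rfl fun i _ => Finset.sum_congr rfl fun j _ => ?_
        rw [Finset.sum_mul_sum]
    _ = _ := by rw [h4, h5]

/-- A family with nonsingular blow-up has no common left kernel. -/
theorem lft_det_ne {n m d : ℕ} (hd : 0 < d) (A : Fin m → Matrix (Fin n) (Fin n) ℂ)
    (Y : Fin m → Matrix (Fin d) (Fin d) ℂ) (h : (blow Y A).det ≠ 0) : (lft A).det ≠ 0 := by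
  intro h0
  obtain ⟨v, hv, hv0⟩ := Matrix.exists_mulVec_eq_zero_iff.2 h0
  have h1 : ∀ k, (A k)ᴴ *ᵥ v = 0 := by
    have h2 : ∑ k, star ((A k)ᴴ *ᵥ v) ⬝ᵥ ((A k)ᴴ *ᵥ v) = 0 := by
      have h3 : star v ⬝ᵥ (lft A *ᵥ v) = ∑ k, star ((A k)ᴴ *ᵥ v) ⬝ᵥ ((A k)ᴴ *ᵥ v) := by
        unfold lft
        rw [Matrix.sum_mulVec, dotProduct_sum]
        refine Finset.sum_congr rfl fun k _ => ?_
        rw [Matrix.star_mulVec, Matrix.conjTranspose_conjTranspose, ← Matrix.mulVec_mulVec,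
          Matrix.dotProduct_mulVec]
      rw [← h3, hv0, dotProduct_zero]
    intro k
    have h4 : ∀ k, (0 : ℂ) ≤ star ((A k)ᴴ *ᵥ v) ⬝ᵥ ((A k)ᴴ *ᵥ v) := fun k =>
      dotProduct_star_self_nonneg _
    have h5 := (Finset.sum_eq_zero_iff_of_nonneg fun k _ => h4 k).1 h2 k (Finset.mem_univ k)
    exact dotProduct_star_self_eq_zero.1 h5
  apply h
  rw [← Matrix.exists_vecMul_eq_zero_iff]
  refine ⟨fun x => if x.1 = ⟨0, hd⟩ then star v x.2 else 0, ?_, ?_⟩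
  · intro hcon
    apply hv
    ext j
    have := congrFun hcon (⟨0, hd⟩, j)
    simpa using this
  · ext ⟨i', j'⟩
    have h6 : ∀ k, star v ᵥ* A k = 0 := by
      intro k
      have := congrArg star (h1 k)
      rwa [Matrix.star_mulVec, Matrix.conjTranspose_conjTranspose, star_zero] at this
    unfold blow
    rw [Matrix.vecMul_sum]
    rw [Finset.sum_apply]
    refine Finset.sum_eq_zero fun k _ => ?_
    have h7 := congrFun (h6 k) j'
    simp only [Matrix.vecMul, dotProduct, Pi.zero_apply, Matrix.kroneckerMap_apply] at h7 ⊢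
    rw [Fintype.sum_prod_type]
    refine Finset.sum_eq_zero fun i _ => ?_
    by_cases hi : i = ⟨0, hd⟩
    · simp only [hi, if_true]
      have : ∀ j : Fin n, star v j * (Y k ⟨0, hd⟩ i' * A k j j') =
          Y k ⟨0, hd⟩ i' * (star v j * A k j j') := fun j => by ring
      simp only [this]
      rw [← Finset.mul_sum, h7, mul_zero]
    · simp [hi]

theorem rgt_eq {n m : ℕ} (A : Fin m → Matrix (Fin n) (Fin n) ℂ) :
    rgt A = lft fun k => (A k)ᴴ := by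
  unfold rgt lft
  simp only [Matrix.conjTranspose_conjTranspose]

theorem blow_conj {n m d : ℕ} (A : Fin m → Matrix (Fin n) (Fin n) ℂ)
    (Y : Fin m → Matrix (Fin d) (Fin d) ℂ) :
    blow (fun k => (Y k)ᴴ) (fun k => (A k)ᴴ) = (blow Y A)ᴴ := by
  unfold blow
  rw [Matrix.conjTranspose_sum]
  refine Finset.sum_congr rfl fun k _ => ?_
  ext ⟨i, j⟩ ⟨i', j'⟩
  simp [Matrix.kroneckerMap_apply, Matrix.conjTranspose_apply]

theorem rgt_det_ne {n m d : ℕ} (hd : 0 < d) (A : Fin m → Matrix (Fin n) (Fin n) ℂ)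
    (Y : Fin m → Matrix (Fin d) (Fin d) ℂ) (h : (blow Y A).det ≠ 0) :
    (lft fun k => (A k)ᴴ).det ≠ 0 := by
  refine lft_det_ne hd (fun k => (A k)ᴴ) (fun k => (Y k)ᴴ) ?_
  rw [blow_conj, Matrix.det_conjTranspose]
  intro hcon
  exact h (star_eq_zero.1 hcon)

/-- One side: a nearly minimal family is nearly scaled. -/
theorem one_side (h3 : StAmgm) (h4 : StNormal) {n m : ℕ} (hn : 0 < n)
    (A : Fin m → Matrix (Fin n) (Fin n) ℂ) (hA : (lft A).det ≠ 0) {η : ℝ}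
    (hmin : ∀ H : Matrix (Fin n) (Fin n) ℂ, H.det ≠ 0 →
      (∑ k, fro (A k)) ^ n * ‖H.det‖ ^ 2 ≤ (1 + η) * (∑ k, fro (H * A k)) ^ n) :
    0 < ∑ k, fro (A k) ∧ n * fro (lft A) ≤ (1 + 2 * η) * (∑ k, fro (A k)) ^ 2 := by
  obtain ⟨x, H, hx, hx1, hx2, hH1, hH2⟩ := h4 n m A hA
  have hnR : (0 : ℝ) < n := by exact_mod_cast hn
  obtain ⟨s, hs⟩ : ∃ s, s = ∑ k, fro (A k) := ⟨_, rfl⟩
  rw [← hs] at hx1 ⊢
  simp only [← hs] at hmin
  have hs0 : 0 < s := by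
    rw [← hx1]
    have : Nonempty (Fin n) := ⟨⟨0, hn⟩⟩
    exact Finset.sum_pos (fun i _ => hx i) Finset.univ_nonempty
  have hP : 0 < ∏ i, x i := Finset.prod_pos fun i _ => hx i
  have hHd : H.det ≠ 0 := by
    intro h0
    rw [h0] at hH2
    simp at hH2
  have h5 := hmin H hHd
  rw [hH1] at h5
  have h6 : s ^ n ≤ (1 + η) * ((n : ℝ) ^ n * ∏ i, x i) := by
    calc s ^ n = s ^ n * (‖H.det‖ ^ 2 * ∏ i, x i) := by rw [hH2, mul_one]
      _ = (s ^ n * ‖H.det‖ ^ 2) * ∏ i, x i := by ring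
      _ ≤ ((1 + η) * (n : ℝ) ^ n) * ∏ i, x i := mul_le_mul_of_nonneg_right h5 hP.le
      _ = _ := by ring
  have h7 := h3 n (fun i => n * x i / s) η (fun i => by have := hx i; positivity) (by
      rw [← Finset.sum_div, ← Finset.mul_sum, hx1]
      field_simp) (by
      have h8 : ∏ i, ((n : ℝ) * x i / s) = (n : ℝ) ^ n * (∏ i, x i) / s ^ n := by
        rw [Finset.prod_div_distrib, Finset.prod_mul_distrib]
        simp
      rw [h8, Real.exp_neg, inv_eq_one_div, div_le_div_iff₀ (Real.exp_pos _) (by positivity)]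
      have h9 := Real.add_one_le_exp η
      calc 1 * s ^ n = s ^ n := one_mul _
        _ ≤ (1 + η) * ((n : ℝ) ^ n * ∏ i, x i) := h6
        _ ≤ Real.exp η * ((n : ℝ) ^ n * ∏ i, x i) :=
            mul_le_mul_of_nonneg_right (by linarith) (by positivity)
        _ = _ := by ring)
  refine ⟨hs0, ?_⟩
  have h10 : ∑ i, ((n : ℝ) * x i / s - 1) ^ 2 = (n : ℝ) ^ 2 / s ^ 2 * fro (lft A) - n := by
    have h11 : ∀ i, ((n : ℝ) * x i / s - 1) ^ 2 =
        (n : ℝ) ^ 2 / s ^ 2 * x i ^ 2 - 2 * n / s * x i + 1 := fun i => by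
      field_simp
      ring
    simp only [h11]
    rw [Finset.sum_add_distrib, Finset.sum_sub_distrib, ← Finset.mul_sum, ← Finset.mul_sum, hx1,
      hx2]
    simp only [Finset.sum_const, Finset.card_univ, Fintype.card_fin, nsmul_eq_mul, mul_one]
    field_simp
    ring
  rw [h10] at h7
  have h12 : (n : ℝ) ^ 2 / s ^ 2 * fro (lft A) ≤ n * (1 + 2 * η) := by linarith
  have h13 : (n : ℝ) ^ 2 * fro (lft A) ≤ n * (1 + 2 * η) * s ^ 2 := by
    have := mul_le_mul_of_nonneg_right h12 (by positivity : (0 : ℝ) ≤ s ^ 2)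
    calc (n : ℝ) ^ 2 * fro (lft A) = (n : ℝ) ^ 2 / s ^ 2 * fro (lft A) * s ^ 2 := by
          field_simp
      _ ≤ _ := this
  have h14 : (n : ℝ) * (n * fro (lft A)) ≤ n * ((1 + 2 * η) * s ^ 2) := by
    calc (n : ℝ) * (n * fro (lft A)) = (n : ℝ) ^ 2 * fro (lft A) := by ring
      _ ≤ n * (1 + 2 * η) * s ^ 2 := h13
      _ = _ := by ring
  exact le_of_mul_le_mul_left h14 hnR

/-- The functional is bounded from below. -/
theorem phi_lower (h5 : StDet) {n m d : ℕ} (hn : 0 < n) (hd : 0 < d)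
    (B : Fin m → Matrix (Fin n) (Fin n) ℂ) (Y : Fin m → Matrix (Fin d) (Fin d) ℂ)
    (h : (blow Y B).det ≠ 0) : ∃ φ₀ : ℝ, 0 < φ₀ ∧ ∀ S T : Matrix (Fin n) (Fin n) ℂ, S.det ≠ 0 →
      T.det ≠ 0 → φ₀ ≤ (∑ k, fro (S * B k * T)) ^ n / (‖S.det‖ ^ 2 * ‖T.det‖ ^ 2) := by
  set c := ∑ k, fro (Y k) with hc
  have hc0 : 0 ≤ c := Finset.sum_nonneg fun k _ => fro_nonneg _
  set κ : ℝ := ((d * n : ℕ) : ℝ) ^ (d * n) * ‖(blow Y B).det‖ ^ 2 with hκ
  have hdn : 0 < d * n := Nat.mul_pos hd hn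
  have hκ0 : 0 < κ := by
    have h1 : (0 : ℝ) < ((d * n : ℕ) : ℝ) := by exact_mod_cast hdn
    have h2 : 0 < ‖(blow Y B).det‖ := norm_pos_iff.2 h
    positivity
  have hkey : ∀ S T : Matrix (Fin n) (Fin n) ℂ, S.det ≠ 0 → T.det ≠ 0 →
      κ ≤ (c ^ n * ((∑ k, fro (S * B k * T)) ^ n / (‖S.det‖ ^ 2 * ‖T.det‖ ^ 2))) ^ d := by
    intro S T hS hT
    have hS0 : 0 < ‖S.det‖ := norm_pos_iff.2 hS
    have hT0 : 0 < ‖T.det‖ := norm_pos_iff.2 hT
    have h6 := h5 (Fin d × Fin n) (blow Y fun k => S * B k * T)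
    rw [det_blow_scale] at h6
    simp only [Fintype.card_prod, Fintype.card_fin] at h6
    have h7 : fro (blow Y fun k => S * B k * T) ^ (d * n) ≤
        (c * ∑ k, fro (S * B k * T)) ^ (d * n) :=
      pow_le_pow_left₀ (fro_nonneg _) (fro_blow_le _ _) _
    have h8 := h6.trans h7
    rw [norm_mul, norm_mul, norm_pow, norm_pow] at h8
    have h9 : 0 < (‖S.det‖ ^ 2 * ‖T.det‖ ^ 2) ^ d := by positivity
    rw [← mul_div_assoc, div_pow, le_div_iff₀ h9]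
    calc κ * (‖S.det‖ ^ 2 * ‖T.det‖ ^ 2) ^ d = ((d * n : ℕ) : ℝ) ^ (d * n) *
        (‖S.det‖ ^ d * ‖(blow Y B).det‖ * ‖T.det‖ ^ d) ^ 2 := by
          rw [hκ]
          ring
      _ ≤ (c * ∑ k, fro (S * B k * T)) ^ (d * n) := h8
      _ = (c ^ n * (∑ k, fro (S * B k * T)) ^ n) ^ d := by
          rw [← mul_pow, ← pow_mul, mul_comm n d]
  have hcn : 0 < c ^ n := by
    rcases hc0.eq_or_lt with h0 | h0
    · exfalso
      have h6 := hkey 1 1 (by simp) (by simp)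
      rw [← h0, zero_pow hn.ne', zero_mul, zero_pow hd.ne'] at h6
      linarith
    · positivity
  refine ⟨min 1 κ / c ^ n, by positivity, ?_⟩
  intro S T hS hT
  have h6 := hkey S T hS hT
  set z := (∑ k, fro (S * B k * T)) ^ n / (‖S.det‖ ^ 2 * ‖T.det‖ ^ 2) with hz
  have hz0 : 0 ≤ z := by
    have : 0 ≤ ∑ k, fro (S * B k * T) := Finset.sum_nonneg fun k _ => fro_nonneg _
    positivity
  rw [div_le_iff₀ hcn]
  rcases le_total (c ^ n * z) 1 with h7 | h7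
  · have h8 : (c ^ n * z) ^ d ≤ c ^ n * z := by
      obtain ⟨e, rfl⟩ : ∃ e, d = e + 1 := ⟨d - 1, by omega⟩
      rw [pow_succ]
      have h9 : (c ^ n * z) ^ e ≤ 1 := pow_le_one₀ (by positivity) h7
      have h10 : 0 ≤ c ^ n * z := by positivity
      nlinarith
    calc min 1 κ ≤ κ := min_le_right _ _
      _ ≤ (c ^ n * z) ^ d := h6
      _ ≤ c ^ n * z := h8
      _ = z * c ^ n := mul_comm _ _
  · calc min 1 κ ≤ 1 := min_le_left _ _
      _ ≤ c ^ n * z := h7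
      _ = z * c ^ n := mul_comm _ _

end S6

open S6 in
theorem stScaling (h3 : StAmgm) (h4 : StNormal) (h5 : StDet) : StScaling := by
  intro n m d B Y hn hd hdet ε hε
  obtain ⟨φ₀, hφ₀, hlow⟩ := phi_lower h5 hn hd B Y hdet
  set Φ : Set ℝ := {z | ∃ S T : Matrix (Fin n) (Fin n) ℂ, S.det ≠ 0 ∧ T.det ≠ 0 ∧
    z = (∑ k, fro (S * B k * T)) ^ n / (‖S.det‖ ^ 2 * ‖T.det‖ ^ 2)} with hΦ
  have hne : Φ.Nonempty := ⟨_, 1, 1, by simp, by simp, rfl⟩
  have hbd : BddBelow Φ := ⟨φ₀, by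
    rintro z ⟨S, T, hS, hT, rfl⟩
    exact hlow S T hS hT⟩
  have hg0 : 0 < sInf Φ := lt_of_lt_of_le hφ₀ (le_csInf hne (by
    rintro z ⟨S, T, hS, hT, rfl⟩
    exact hlow S T hS hT))
  set η : ℝ := ε / 2 with hη
  have hη0 : 0 < η := by positivity
  obtain ⟨z, ⟨S, T, hS, hT, rfl⟩, hz⟩ := exists_lt_of_csInf_lt hne
    (show sInf Φ < (1 + η) * sInf Φ by nlinarith)
  have hS0 : 0 < ‖S.det‖ := norm_pos_iff.2 hS
  have hT0 : 0 < ‖T.det‖ := norm_pos_iff.2 hT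
  rw [div_lt_iff₀ (by positivity)] at hz
  have hblow : (blow Y fun k => S * B k * T).det ≠ 0 := by
    rw [det_blow_scale]
    exact mul_ne_zero (mul_ne_zero (pow_ne_zero _ hS) hdet) (pow_ne_zero _ hT)
  have hL := lft_det_ne hd (fun k => S * B k * T) Y hblow
  have hR := rgt_det_ne hd (fun k => S * B k * T) Y hblow
  have hmin : ∀ S' T' : Matrix (Fin n) (Fin n) ℂ, S'.det ≠ 0 → T'.det ≠ 0 →
      (∑ k, fro (S * B k * T)) ^ n * (‖S'.det‖ ^ 2 * ‖T'.det‖ ^ 2) ≤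
        (1 + η) * (∑ k, fro (S' * B k * T')) ^ n * (‖S.det‖ ^ 2 * ‖T.det‖ ^ 2) := by
    intro S' T' hS' hT'
    have hS0' : 0 < ‖S'.det‖ := norm_pos_iff.2 hS'
    have hT0' : 0 < ‖T'.det‖ := norm_pos_iff.2 hT'
    have h6 : sInf Φ ≤ (∑ k, fro (S' * B k * T')) ^ n / (‖S'.det‖ ^ 2 * ‖T'.det‖ ^ 2) :=
      csInf_le hbd ⟨S', T', hS', hT', rfl⟩
    rw [le_div_iff₀ (by positivity)] at h6
    calc (∑ k, fro (S * B k * T)) ^ n * (‖S'.det‖ ^ 2 * ‖T'.det‖ ^ 2) ≤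
        ((1 + η) * sInf Φ * (‖S.det‖ ^ 2 * ‖T.det‖ ^ 2)) * (‖S'.det‖ ^ 2 * ‖T'.det‖ ^ 2) :=
          mul_le_mul_of_nonneg_right hz.le (by positivity)
      _ = (1 + η) * (sInf Φ * (‖S'.det‖ ^ 2 * ‖T'.det‖ ^ 2)) * (‖S.det‖ ^ 2 * ‖T.det‖ ^ 2) := by
          ring
      _ ≤ (1 + η) * (∑ k, fro (S' * B k * T')) ^ n * (‖S.det‖ ^ 2 * ‖T.det‖ ^ 2) := by
          gcongr
  obtain ⟨hs0, hleft⟩ := one_side h3 h4 hn (fun k => S * B k * T) hL (η := η) (by
    intro H hH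
    have hH0 : 0 < ‖H.det‖ := norm_pos_iff.2 hH
    have h6 := hmin (H * S) T (by rw [Matrix.det_mul]; exact mul_ne_zero hH hS) hT
    rw [Matrix.det_mul, norm_mul] at h6
    have h7 : ∀ k, H * S * B k * T = H * (S * B k * T) := fun k => by
      simp only [Matrix.mul_assoc]
    simp only [h7] at h6
    have h8 : 0 < ‖S.det‖ ^ 2 * ‖T.det‖ ^ 2 := by positivity
    refine le_of_mul_le_mul_right ?_ h8
    calc _ = (∑ k, fro (S * B k * T)) ^ n * ((‖H.det‖ * ‖S.det‖) ^ 2 * ‖T.det‖ ^ 2) := by ring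
      _ ≤ _ := h6)
  have hfc : ∀ k, fro ((S * B k * T)ᴴ) = fro (S * B k * T) := fun k => fro_conjTranspose _
  obtain ⟨-, hright⟩ := one_side h3 h4 hn (fun k => (S * B k * T)ᴴ) hR (η := η) (by
    intro H hH
    have hH0 : 0 < ‖H.det‖ := norm_pos_iff.2 hH
    have hTH : (T * Hᴴ).det ≠ 0 := by
      rw [Matrix.det_mul, Matrix.det_conjTranspose]
      exact mul_ne_zero hT (by simpa using hH)
    have h6 := hmin S (T * Hᴴ) hS hTH
    rw [Matrix.det_mul, Matrix.det_conjTranspose, norm_mul, norm_star] at h6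
    have h7 : ∀ k, fro (S * B k * (T * Hᴴ)) = fro (H * (S * B k * T)ᴴ) := fun k => by
      rw [← fro_conjTranspose (H * (S * B k * T)ᴴ)]
      rw [Matrix.conjTranspose_mul, Matrix.conjTranspose_conjTranspose]
      simp only [Matrix.mul_assoc]
    simp only [h7] at h6
    simp only [hfc]
    have h8 : 0 < ‖S.det‖ ^ 2 * ‖T.det‖ ^ 2 := by positivity
    refine le_of_mul_le_mul_right ?_ h8
    calc _ = (∑ k, fro (S * B k * T)) ^ n * (‖S.det‖ ^ 2 * (‖T.det‖ * ‖H.det‖) ^ 2) := by ring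
      _ ≤ _ := h6)
  simp only [hfc] at hright
  refine ⟨S, T, hs0, ?_, ?_⟩
  · have e : 1 + 2 * η = 1 + ε := by rw [hη]; ring
    rw [e] at hleft
    exact hleft
  · have e : 1 + 2 * η = 1 + ε := by rw [hη]; ring
    rw [e] at hright
    rw [rgt_eq]
    exact hright

end Pool.Agent.Lib.MP_64d474_lc.Op
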