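import Pool.Agent.Lib.MP_64d474_lc.Op.Stmts

set_option autoImplicit false

/-! S7: 4-wise independent sign vectors. -/

open Matrix Module

namespace Pool.Agent.Lib.MP_64d474_lc.Op

namespace S7Aux

theorem sgn_add (a b : ZMod 2) : sgn (a + b) = sgn a * sgn b := by
  revert a b
  decide

theorem sgn_add_one (a : ZMod 2) : sgn (a + 1) = - sgn a := by
  revert a
  decide

theorem sgn_zero : sgn 0 = 1 := rfl

theorem zmod2 (a : ZMod 2) (h : a ≠ 0) : a = 1 := by
  revert a
  decide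

theorem sum_aux {l : ℕ} (x y : Fin l → ZMod 2) (h : x ≠ 0 ∨ y ≠ 0) :
    ∑ ω : (Fin l → ZMod 2) × (Fin l → ZMod 2), (sgn (ω.1 ⬝ᵥ x + ω.2 ⬝ᵥ y) : ℝ) = 0 := by
  obtain ⟨c, hc⟩ : ∃ c : (Fin l → ZMod 2) × (Fin l → ZMod 2), c.1 ⬝ᵥ x + c.2 ⬝ᵥ y = 1 := by
    rcases h with h | h
    · obtain ⟨i, hi⟩ := Function.ne_iff.1 h
      refine ⟨(Pi.single i 1, 0), ?_⟩
      simp [zmod2 (x i) hi]
    · obtain ⟨i, hi⟩ := Function.ne_iff.1 h
      refine ⟨(0, Pi.single i 1), ?_⟩
      simp [zmod2 (y i) hi]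
  have h1 : ∑ ω : (Fin l → ZMod 2) × (Fin l → ZMod 2), (sgn (ω.1 ⬝ᵥ x + ω.2 ⬝ᵥ y) : ℝ) =
      ∑ ω : (Fin l → ZMod 2) × (Fin l → ZMod 2), -(sgn (ω.1 ⬝ᵥ x + ω.2 ⬝ᵥ y) : ℝ) := by
    rw [← Equiv.sum_comp (Equiv.addRight c)]
    refine Finset.sum_congr rfl fun ω _ => ?_
    have e : (Equiv.addRight c ω).1 ⬝ᵥ x + (Equiv.addRight c ω).2 ⬝ᵥ y =
        (ω.1 ⬝ᵥ x + ω.2 ⬝ᵥ y) + 1 := by
      rw [← hc]
      simp only [Equiv.coe_addRight, Prod.fst_add, Prod.snd_add, add_dotProduct]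
      ring
    rw [e, sgn_add_one]
    push_cast
    rfl
  rw [Finset.sum_neg_distrib] at h1
  linarith

theorem sum_sgn {l : ℕ} (x y : Fin l → ZMod 2) :
    ∑ ω : (Fin l → ZMod 2) × (Fin l → ZMod 2), (sgn (ω.1 ⬝ᵥ x + ω.2 ⬝ᵥ y) : ℝ) =
      if x = 0 ∧ y = 0 then
        (Fintype.card ((Fin l → ZMod 2) × (Fin l → ZMod 2)) : ℝ) else 0 := by
  split_ifs with h
  · rw [h.1, h.2]
    simp [sgn_zero]
  · refine sum_aux x y ?_
    by_contra hc
    push_neg at hc
    exact h hc

section field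

variable {K : Type} [Field K] [CharP K 2] {l : ℕ} {φ : K → Fin l → ZMod 2}

theorem phi_zero (ha : ∀ x y, φ (x + y) = φ x + φ y) : φ 0 = 0 := by
  have := ha 0 0
  rw [add_zero] at this
  simpa using this

theorem phi_eq_zero (ha : ∀ x y, φ (x + y) = φ x + φ y) (hi : Function.Injective φ) (x : K) :
    φ x = 0 ↔ x = 0 := by
  constructor
  · intro h
    apply hi
    rw [h, phi_zero ha]
  · intro h
    rw [h, phi_zero ha]

theorem adz (a b : K) : a + b = 0 ↔ a = b := by
  rw [add_eq_zero_iff_eq_neg, CharTwo.neg_eq]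

theorem four {a b c d : K} (h1 : a + b + (c + d) = 0) (h2 : a ^ 3 + b ^ 3 + (c ^ 3 + d ^ 3) = 0) :
    (a = b ∧ c = d) ∨ (a = c ∧ b = d) ∨ (a = d ∧ b = c) := by
  have h3 : a + b = c + d := (adz _ _).1 h1
  have h4 : a ^ 3 + b ^ 3 = c ^ 3 + d ^ 3 := (adz _ _).1 h2
  have t : (2 : K) = 0 := CharTwo.two_eq_zero
  have h5 : (a + b) * ((a + c) * (a + d)) = 0 := by
    have e : (a + b) * (a * b) = (c + d) * (c * d) := by
      have e1 : (a + b) * (a * b) = (a + b) ^ 3 - (a ^ 3 + b ^ 3) - 2 * ((a + b) * (a * b)) := by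
        ring
      have e2 : (c + d) * (c * d) = (c + d) ^ 3 - (c ^ 3 + d ^ 3) - 2 * ((c + d) * (c * d)) := by
        ring
      rw [e1, e2, h3, h4, t]
      ring
    have hb : b = a + c + d := by
      have : a + b = a + (a + c + d) := by
        rw [h3]
        have : a + (a + c + d) = 2 * a + (c + d) := by ring
        rw [this, t]
        ring
      exact add_left_cancel this
    have e3 : (a + b) * ((a + c) * (a + d)) = (a + b) * (a * b) + (a + b) * (c * d) := by
      have : (a + c) * (a + d) = a * (a + c + d) + c * d := by ring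
      rw [this, ← hb]
      ring
    rw [e3, e, h3]
    have : (c + d) * (c * d) + (c + d) * (c * d) = 2 * ((c + d) * (c * d)) := by ring
    rw [this, t, zero_mul]
  rcases mul_eq_zero.1 h5 with h | h
  · left
    refine ⟨(adz _ _).1 h, (adz _ _).1 ?_⟩
    rw [← h3, h]
  · rcases mul_eq_zero.1 h with h | h
    · right
      left
      have h6 : a = c := (adz _ _).1 h
      refine ⟨h6, ?_⟩
      rw [h6] at h3
      exact add_left_cancel h3
    · right
      right
      have h6 : a = d := (adz _ _).1 h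
      refine ⟨h6, ?_⟩
      rw [h6, add_comm c d] at h3
      exact add_left_cancel h3

end field

end S7Aux

open S7Aux in
theorem stSign : StSign := by
  intro K _ _ l m φ α ha hi hα
  have h2 : ∀ (ω : (Fin l → ZMod 2) × (Fin l → ZMod 2)) (i j : Fin m),
      signVec φ α ω i * signVec φ α ω j =
        sgn (ω.1 ⬝ᵥ φ (α i + α j) + ω.2 ⬝ᵥ φ (α i ^ 3 + α j ^ 3)) := by
    intro ω i j
    unfold signVec
    rw [← sgn_add, ha, ha, dotProduct_add, dotProduct_add]
    congr 1
    ring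
  constructor
  · intro i j
    have e : ∀ ω : (Fin l → ZMod 2) × (Fin l → ZMod 2),
        (signVec φ α ω i : ℝ) * (signVec φ α ω j : ℝ) =
          (sgn (ω.1 ⬝ᵥ φ (α i + α j) + ω.2 ⬝ᵥ φ (α i ^ 3 + α j ^ 3)) : ℝ) := by
      intro ω
      rw [← h2]
      push_cast
      rfl
    simp only [e]
    have key : (φ (α i + α j) = 0 ∧ φ (α i ^ 3 + α j ^ 3) = 0) ↔ i = j := by
      rw [phi_eq_zero ha hi, phi_eq_zero ha hi, adz, adz]
      constructor
      · intro h
        exact hα h.1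
      · intro h
        rw [h]
        exact ⟨rfl, rfl⟩
    rw [sum_sgn, if_congr key rfl rfl]
  · intro i j k n
    have e : ∀ ω : (Fin l → ZMod 2) × (Fin l → ZMod 2),
        (signVec φ α ω i : ℝ) * (signVec φ α ω j : ℝ) *
          ((signVec φ α ω k : ℝ) * (signVec φ α ω n : ℝ)) =
          (sgn (ω.1 ⬝ᵥ φ (α i + α j + (α k + α n)) +
            ω.2 ⬝ᵥ φ (α i ^ 3 + α j ^ 3 + (α k ^ 3 + α n ^ 3))) : ℝ) := by
      intro ω
      have e1 : signVec φ α ω i * signVec φ α ω j * (signVec φ α ω k * signVec φ α ω n) =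
          sgn (ω.1 ⬝ᵥ φ (α i + α j + (α k + α n)) +
            ω.2 ⬝ᵥ φ (α i ^ 3 + α j ^ 3 + (α k ^ 3 + α n ^ 3))) := by
        rw [h2, h2, ← sgn_add, ha (α i + α j), ha (α i ^ 3 + α j ^ 3), dotProduct_add,
          dotProduct_add]
        congr 1
        ring
      rw [← e1]
      push_cast
      rfl
    simp only [e]
    have key : (φ (α i + α j + (α k + α n)) = 0 ∧
        φ (α i ^ 3 + α j ^ 3 + (α k ^ 3 + α n ^ 3)) = 0) ↔
        ((i = j ∧ k = n) ∨ (i = k ∧ j = n) ∨ (i = n ∧ j = k)) := by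
      rw [phi_eq_zero ha hi, phi_eq_zero ha hi]
      constructor
      · rintro ⟨h3, h4⟩
        rcases four h3 h4 with h | h | h
        · exact Or.inl ⟨hα h.1, hα h.2⟩
        · exact Or.inr (Or.inl ⟨hα h.1, hα h.2⟩)
        · exact Or.inr (Or.inr ⟨hα h.1, hα h.2⟩)
      · have t : (2 : K) = 0 := CharTwo.two_eq_zero
        rintro (⟨h3, h4⟩ | ⟨h3, h4⟩ | ⟨h3, h4⟩)
        · subst h3 h4
          constructor
          · have : α i + α i + (α k + α k) = 2 * (α i + α k) := by ring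
            rw [this, t, zero_mul]
          · have : α i ^ 3 + α i ^ 3 + (α k ^ 3 + α k ^ 3) = 2 * (α i ^ 3 + α k ^ 3) := by ring
            rw [this, t, zero_mul]
        · subst h3 h4
          constructor
          · have : α i + α j + (α i + α j) = 2 * (α i + α j) := by ring
            rw [this, t, zero_mul]
          · have : α i ^ 3 + α j ^ 3 + (α i ^ 3 + α j ^ 3) = 2 * (α i ^ 3 + α j ^ 3) := by ring
            rw [this, t, zero_mul]
        · subst h3 h4
          constructor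
          · have : α i + α j + (α j + α i) = 2 * (α i + α j) := by ring
            rw [this, t, zero_mul]
          · have : α i ^ 3 + α j ^ 3 + (α j ^ 3 + α i ^ 3) = 2 * (α i ^ 3 + α j ^ 3) := by ring
            rw [this, t, zero_mul]
    rw [sum_sgn, if_congr key rfl rfl]
    by_cases a1 : i = j ∧ k = n
    · by_cases a2 : i = k ∧ j = n
      · have a3 : i = n ∧ j = k := ⟨a2.1.trans a1.2, a1.1.symm.trans a2.1⟩
        have a4 : i = j ∧ j = k ∧ k = n := ⟨a1.1, a3.2, a1.2⟩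
        simp only [a1, a2, a3, a4, and_self, true_or, if_true]
        norm_num
      · have a3 : ¬ (i = n ∧ j = k) := fun h => a2 ⟨a1.1.trans h.2, h.2.trans a1.2⟩
        have a4 : ¬ (i = j ∧ j = k ∧ k = n) := fun h => a2 ⟨h.1.trans h.2.1, h.2.1.trans h.2.2⟩
        rw [if_pos (Or.inl a1), if_pos a1, if_neg a2, if_neg a3, if_neg a4]
        ring
    · have a4 : ¬ (i = j ∧ j = k ∧ k = n) := fun h => a1 ⟨h.1, h.2.2⟩
      by_cases a2 : i = k ∧ j = n
      · have a3 : ¬ (i = n ∧ j = k) := fun h => a1 ⟨a2.1.trans h.2.symm, a2.1.symm.trans h.1⟩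
        rw [if_pos (Or.inr (Or.inl a2)), if_neg a1, if_pos a2, if_neg a3, if_neg a4]
        ring
      · by_cases a3 : i = n ∧ j = k
        · rw [if_pos (Or.inr (Or.inr a3)), if_neg a1, if_neg a2, if_pos a3, if_neg a4]
          ring
        · rw [if_neg (by tauto), if_neg a1, if_neg a2, if_neg a3, if_neg a4]
          ring

end Pool.Agent.Lib.MP_64d474_lc.Op
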