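import Pool.Agent.Lib.MP_64d474_lc.Op.Stmts

/-!
# Transfer from a field of characteristic zero to the complex numbers
-/

open Matrix Module Cardinal

universe u

namespace Pool.Agent.Lib.MP_64d474_lc.Op

namespace Embed

/-- A countable field of characteristic zero embeds into the complex numbers. -/
theorem exists_embed {F₀ : Type u} [Field F₀] [CharZero F₀] (h : #F₀ ≤ ℵ₀) :
    Nonempty (F₀ →+* ℂ) := by
  let R := MvPolynomial ℝ F₀
  let K := AlgebraicClosure (FractionRing R)
  have hinj : Function.Injective (algebraMap F₀ K) := (algebraMap F₀ K).injective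
  have hK0 : CharZero K := charZero_of_injective_algebraMap hinj
  have hR : #R = 𝔠 := by
    show #(MvPolynomial ℝ F₀) = _
    rw [MvPolynomial.cardinalMk_eq_max_lift, Cardinal.mk_real, Cardinal.lift_uzero,
      Cardinal.lift_continuum, sup_eq_right.2 (h.trans Cardinal.aleph0_le_continuum),
      sup_eq_left.2 Cardinal.aleph0_le_continuum]
  have hF : #(FractionRing R) = 𝔠 := by
    rw [FractionRing.cardinalMk, hR]
  have hK : #K = 𝔠 := by
    apply le_antisymm
    · have h1 := Algebra.IsAlgebraic.cardinalMk_le_max (FractionRing R) K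
      rw [hF, max_eq_left Cardinal.aleph0_le_continuum] at h1
      exact h1
    · rw [← hF]
      exact Cardinal.mk_le_of_injective (algebraMap (FractionRing R) K).injective
  obtain ⟨e⟩ := IsAlgClosed.ringEquiv_of_equiv_of_charZero (K := K) (L := ℂ)
    (by rw [hK]; exact Cardinal.aleph0_lt_continuum)
    (Cardinal.lift_mk_eq'.1 (by rw [hK, Cardinal.mk_complex]; simp))
  exact ⟨e.toRingHom.comp (algebraMap F₀ K)⟩

theorem rank_nf {L : Type*} [Field L] (r s : ℕ) :
    (fromBlocks 1 0 0 0 : Matrix (Fin r ⊕ Fin s) (Fin r ⊕ Fin s) L).rank = r := by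
  classical
  rw [← diagonal_one, ← diagonal_zero, fromBlocks_diagonal, rank_diagonal,
    Fintype.card_subtype]
  have h : (Finset.univ.filter fun i : Fin r ⊕ Fin s =>
      Sum.elim (fun _ : Fin r => (1 : L)) (fun _ => 0) i ≠ 0) =
      Finset.univ.map Function.Embedding.inl := by
    ext i
    rcases i with i | i <;> simp
  rw [h]
  simp

/-- The rank does not change under an extension of fields. -/
theorem rank_map_field {K L : Type*} [Field K] [Field L] (φ : K →+* L) {n : ℕ}
    (M : Matrix (Fin n) (Fin n) K) : (M.map φ).rank = M.rank := by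
  classical
  obtain ⟨V, U, e, hV, hU, h⟩ := exists_rank_normal_form M
  have h0 : ((fromBlocks 1 0 0 0 : Matrix (Fin M.rank ⊕ Fin (Fintype.card (Fin n) - M.rank))
      (Fin M.rank ⊕ Fin (Fintype.card (Fin n) - M.rank)) K).submatrix e e).map φ =
      (fromBlocks 1 0 0 0 : Matrix (Fin M.rank ⊕ Fin (Fintype.card (Fin n) - M.rank))
      (Fin M.rank ⊕ Fin (Fintype.card (Fin n) - M.rank)) L).submatrix e e := by
    rw [← Matrix.submatrix_map, fromBlocks_map]
    simp
  have h1 : (V.map φ) * (M.map φ) * (U.map φ) = (fromBlocks 1 0 0 0).submatrix e e := by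
    rw [← Matrix.map_mul, ← Matrix.map_mul, h, h0]
  have hV' : IsUnit (V.map φ) := hV.map φ.mapMatrix
  have hU' : IsUnit (U.map φ) := hU.map φ.mapMatrix
  rw [Matrix.isUnit_iff_isUnit_det] at hV' hU'
  rw [← rank_mul_eq_right_of_isUnit_det (V.map φ) (M.map φ) hV',
    ← rank_mul_eq_left_of_isUnit_det (U.map φ) (V.map φ * M.map φ) hU', h1, rank_submatrix,
    rank_nf]

theorem blow_map {R R' : Type*} [CommRing R] [CommRing R'] (φ : R →+* R') {n d m : ℕ}
    (Y : Fin m → Matrix (Fin d) (Fin d) R) (B : Fin m → Matrix (Fin n) (Fin n) R) :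
    blow (fun k => (Y k).map φ) (fun k => (B k).map φ) = (blow Y B).map φ := by
  ext p q
  simp [blow, Matrix.sum_apply, kroneckerMap_apply, Matrix.map_apply]

theorem sum_map {R R' : Type*} [CommRing R] [CommRing R'] (φ : R →+* R') {n m : ℕ}
    (a : Fin m → ℤ) (B : Fin m → Matrix (Fin n) (Fin n) R) :
    ∑ k, (a k : R') • (B k).map φ = (∑ k, (a k : R) • B k).map φ := by
  ext p q
  simp [Matrix.sum_apply, Matrix.map_apply]

end Embed

open Embed in
theorem stEmbed : StEmbed.{u} := by
  intro F _ _ n r d m B S T Y hdet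
  classical
  set E : Set F := ((Set.range fun p : Fin m × Fin n × Fin n => B p.1 p.2.1 p.2.2) ∪
    (Set.range fun p : Fin r × Fin n => S p.1 p.2)) ∪
    ((Set.range fun p : Fin n × Fin r => T p.1 p.2) ∪
    (Set.range fun p : Fin m × Fin d × Fin d => Y p.1 p.2.1 p.2.2)) with hE
  have hEf : E.Finite := ((Set.finite_range _).union (Set.finite_range _)).union
    ((Set.finite_range _).union (Set.finite_range _))
  let F₀ : Subfield F := Subfield.closure E
  have hcard : #F₀ ≤ ℵ₀ := by
    refine (Subfield.cardinalMk_closure_le_max E).trans (max_le ?_ le_rfl)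
    exact hEf.countable.le_aleph0
  obtain ⟨σ⟩ := exists_embed hcard
  have hB : ∀ k i j, B k i j ∈ F₀ := fun k i j =>
    Subfield.subset_closure (Or.inl (Or.inl ⟨(k, i, j), rfl⟩))
  have hS : ∀ i j, S i j ∈ F₀ := fun i j =>
    Subfield.subset_closure (Or.inl (Or.inr ⟨(i, j), rfl⟩))
  have hT : ∀ i j, T i j ∈ F₀ := fun i j =>
    Subfield.subset_closure (Or.inr (Or.inl ⟨(i, j), rfl⟩))
  have hY : ∀ k i j, Y k i j ∈ F₀ := fun k i j =>
    Subfield.subset_closure (Or.inr (Or.inr ⟨(k, i, j), rfl⟩))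
  let B₀ : Fin m → Matrix (Fin n) (Fin n) F₀ := fun k i j => ⟨B k i j, hB k i j⟩
  let S₀ : Matrix (Fin r) (Fin n) F₀ := fun i j => ⟨S i j, hS i j⟩
  let T₀ : Matrix (Fin n) (Fin r) F₀ := fun i j => ⟨T i j, hT i j⟩
  let Y₀ : Fin m → Matrix (Fin d) (Fin d) F₀ := fun k i j => ⟨Y k i j, hY k i j⟩
  have hBm : ∀ k, (B₀ k).map F₀.subtype = B k := fun k => rfl
  have hSm : S₀.map F₀.subtype = S := rfl
  have hTm : T₀.map F₀.subtype = T := rfl
  have hYm : ∀ k, (Y₀ k).map F₀.subtype = Y k := fun k => rfl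
  have hSBT : ∀ k, (S₀ * B₀ k * T₀).map F₀.subtype = S * B k * T := by
    intro k
    rw [Matrix.map_mul, Matrix.map_mul, hSm, hTm, hBm]
  have hdet0 : (blow Y₀ fun k => S₀ * B₀ k * T₀).det ≠ 0 := by
    intro h
    apply hdet
    have h2 : blow Y (fun k => S * B k * T) =
        (blow Y₀ fun k => S₀ * B₀ k * T₀).map F₀.subtype := by
      rw [← blow_map]
      simp only [hSBT, hYm]
    rw [h2]
    have h3 := RingHom.map_det F₀.subtype (blow Y₀ fun k => S₀ * B₀ k * T₀)
    rw [h, map_zero] at h3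
    exact h3.symm
  refine ⟨fun k => (S₀ * B₀ k * T₀).map σ, fun k => (Y₀ k).map σ, ?_, ?_⟩
  · rw [blow_map]
    have h3 := RingHom.map_det σ (blow Y₀ fun k => S₀ * B₀ k * T₀)
    intro h4
    apply hdet0
    apply σ.injective
    rw [h3, map_zero]
    exact h4
  · intro a
    rw [sum_map σ a, rank_map_field]
    have h5 : ∑ k, (a k : F₀) • (S₀ * B₀ k * T₀) = S₀ * (∑ k, (a k : F₀) • B₀ k) * T₀ := by
      rw [Matrix.mul_sum, Matrix.sum_mul]
      refine Finset.sum_congr rfl fun k _ => ?_
      rw [Matrix.mul_smul, Matrix.smul_mul]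
    rw [h5]
    refine (rank_mul_le_left _ _).trans ((rank_mul_le_right _ _).trans ?_)
    rw [← rank_map_field F₀.subtype, ← sum_map F₀.subtype a]
    simp only [hBm]
    exact le_rfl

end Pool.Agent.Lib.MP_64d474_lc.Op
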