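import Mathlib
import Pool.Agent.Lib.MP_64d474_lc.Op.Stmts

/-!
# The rank of a pencil at a small natural number
-/

open Matrix Module Polynomial

namespace Pool.Agent.Lib.MP_64d474_lc.Op

/-- the determinant of a polynomial matrix vanishes at `z` to the order of the corank -/
theorem pow_corank_dvd_det {F : Type*} [Field F] {r : ℕ} (M : Matrix (Fin r) (Fin r) F[X])
    (z : F) :
    (X - C z) ^ (finrank F (LinearMap.ker (M.map (Polynomial.eval z)).mulVecLin)) ∣ M.det := by
  classical
  set N : Matrix (Fin r) (Fin r) F := M.map (Polynomial.eval z) with hN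
  set L : Submodule F (Fin r → F) := LinearMap.ker N.mulVecLin with hL
  obtain ⟨Q, hQ⟩ := Submodule.exists_isCompl L
  let bL := Module.finBasis F L
  let bQ := Module.finBasis F Q
  let B0 : Basis (Fin (finrank F L) ⊕ Fin (finrank F Q)) F (Fin r → F) :=
    (bL.prod bQ).map (Submodule.prodEquivOfIsCompl L Q hQ)
  have hcard : Fintype.card (Fin (finrank F L) ⊕ Fin (finrank F Q)) = Fintype.card (Fin r) := by
    rw [← Module.finrank_eq_card_basis B0, Module.finrank_fin_fun, Fintype.card_fin]
  let e : (Fin (finrank F L) ⊕ Fin (finrank F Q)) ≃ Fin r := Fintype.equivOfCardEq hcard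
  let b : Basis (Fin r) F (Fin r → F) := B0.reindex e
  let U : Matrix (Fin r) (Fin r) F := (Pi.basisFun F (Fin r)).toMatrix b
  have hU : ∀ i j, U i j = b j i := fun i j => by
    simp [U, Basis.toMatrix_apply]
  have hdetU : U.det ≠ 0 := by
    have h1 : (Pi.basisFun F (Fin r)).toMatrix b * b.toMatrix (Pi.basisFun F (Fin r)) = 1 :=
      Basis.toMatrix_mul_toMatrix_flip _ _
    have h2 := congrArg Matrix.det h1
    rw [Matrix.det_mul, Matrix.det_one] at h2
    intro h0
    rw [show ((Pi.basisFun F (Fin r)).toMatrix b).det = U.det from rfl, h0, zero_mul] at h2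
    exact zero_ne_one h2
  have hker : ∀ i, N *ᵥ (b (e (Sum.inl i))) = 0 := by
    intro i
    have h1 : b (e (Sum.inl i)) = (bL i : Fin r → F) := by
      simp [b, B0]
    have h2 : N.mulVecLin (bL i : Fin r → F) = 0 := LinearMap.mem_ker.mp (bL i).2
    rw [h1, ← Matrix.mulVecLin_apply]
    exact h2
  let v : Fin r → F[X] := fun j => Sum.elim (fun _ => X - C z) (fun _ => 1) (e.symm j)
  have hv : ∏ j, v j = (X - C z) ^ finrank F L := by
    rw [← Equiv.prod_comp e]
    simp only [v, Equiv.symm_apply_apply, Fintype.prod_sum_type, Sum.elim_inl, Sum.elim_inr,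
      Finset.prod_const_one, mul_one, Finset.prod_const, Finset.card_univ, Fintype.card_fin]
  have hdiv : ∀ i j, v j ∣ (M * U.map C) i j := by
    intro i j
    obtain ⟨j, rfl⟩ := e.surjective j
    rcases j with j | j
    · have h1 : v (e (Sum.inl j)) = X - C z := by
        simp [v]
      rw [h1, Polynomial.dvd_iff_isRoot, Polynomial.IsRoot.def]
      have h2 := congrFun (hker j) i
      rw [Pi.zero_apply, Matrix.mulVec, dotProduct] at h2
      rw [Matrix.mul_apply, Polynomial.eval_finsetSum, ← h2]
      refine Finset.sum_congr rfl fun k _ => ?_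
      rw [Polynomial.eval_mul, Matrix.map_apply, Polynomial.eval_C, hU, hN, Matrix.map_apply]
    · have h1 : v (e (Sum.inr j)) = 1 := by
        simp [v]
      rw [h1]
      exact one_dvd _
  choose A' hA' using hdiv
  have h3 : (M * U.map C) = Matrix.of fun i j => v j * A' i j := by
    ext1 i j
    rw [hA' i j, Matrix.of_apply]
  have h4 : (M * U.map C).det = (X - C z) ^ finrank F L * (Matrix.of A').det := by
    rw [h3, ← hv]
    exact Matrix.det_mul_row v (Matrix.of A')
  have h5 : (U.map C).det = C U.det := by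
    have := (RingHom.map_det (C : F →+* F[X]) U).symm
    rwa [RingHom.mapMatrix_apply] at this
  rw [Matrix.det_mul, h5] at h4
  have h6 : IsUnit (C U.det : F[X]) := Polynomial.isUnit_C.mpr (isUnit_iff_ne_zero.mpr hdetU)
  have h7 : (X - C z) ^ finrank F L ∣ M.det * C U.det := ⟨_, h4⟩
  exact (h6.dvd_mul_right).mp h7

/-- the multiplicities of finitely many natural numbers as zeros of a polynomial -/
theorem sum_rootMultiplicity_le {F : Type*} [Field F] [CharZero F] (p : F[X]) (K : ℕ) :
    ∑ z ∈ Finset.range (K + 1), p.rootMultiplicity (z : F) ≤ p.natDegree := by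
  classical
  refine le_trans ?_ p.card_roots'
  have h1 : ∑ z ∈ Finset.range (K + 1), p.rootMultiplicity (z : F) =
      ∑ a ∈ (Finset.range (K + 1)).image (Nat.cast : ℕ → F), p.roots.count a := by
    rw [Finset.sum_image (fun a _ b _ h => Nat.cast_injective h)]
    exact Finset.sum_congr rfl fun z _ => (Polynomial.count_roots p).symm
  rw [h1]
  calc ∑ a ∈ (Finset.range (K + 1)).image (Nat.cast : ℕ → F), p.roots.count a
      ≤ ∑ a ∈ (Finset.range (K + 1)).image (Nat.cast : ℕ → F) ∪ p.roots.toFinset,
          p.roots.count a :=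
        Finset.sum_le_sum_of_subset Finset.subset_union_left
    _ = Multiset.card p.roots := by
        refine Multiset.sum_count_eq_card fun a ha => ?_
        exact Finset.mem_union_right _ (Multiset.mem_toFinset.mpr ha)

/-- compression of a pencil -/
theorem exists_compress {F : Type*} [Field F] {n n' : ℕ} (M : Matrix (Fin n) (Fin n') F) :
    ∃ (P : Matrix (Fin M.rank) (Fin n) F) (Q : Matrix (Fin n') (Fin M.rank) F),
      P * M * Q = 1 := by
  classical
  obtain ⟨w, hw⟩ := exists_linearIndependent_of_le_finrank (R := F)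
    (M := LinearMap.range M.mulVecLin) (le_of_eq (rfl : M.rank = _))
  have hx : ∀ i, ∃ x : Fin n' → F, M.mulVecLin x = (w i : Fin n → F) := fun i => (w i).2
  choose x hx using hx
  have hli : LinearIndependent F (fun i => M.mulVecLin (x i)) := by
    have h1 := hw.map' (LinearMap.range M.mulVecLin).subtype (Submodule.ker_subtype _)
    have h2 : (fun i => M.mulVecLin (x i)) = (LinearMap.range M.mulVecLin).subtype ∘ w :=
      funext fun i => hx i
    rw [h2]
    exact h1
  let Q : Matrix (Fin n') (Fin M.rank) F := Matrix.of fun i j => x j i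
  have hMQ : ∀ y : Fin M.rank → F, (M * Q) *ᵥ y = ∑ i, y i • M.mulVecLin (x i) := by
    intro y
    have hQ : Q *ᵥ y = ∑ i, y i • x i := by
      funext k
      simp only [Matrix.mulVec, dotProduct, Q, Matrix.of_apply, Finset.sum_apply, Pi.smul_apply,
        smul_eq_mul]
      exact Finset.sum_congr rfl fun _ _ => mul_comm _ _
    rw [← Matrix.mulVec_mulVec, hQ, ← Matrix.mulVecLin_apply, map_sum]
    simp only [map_smul]
  have hinj : LinearMap.ker (M * Q).mulVecLin = ⊥ := by
    rw [LinearMap.ker_eq_bot']
    intro y hy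
    rw [Matrix.mulVecLin_apply, hMQ] at hy
    funext i
    exact Fintype.linearIndependent_iff.mp hli y hy i
  obtain ⟨g, hg⟩ := (M * Q).mulVecLin.exists_leftInverse_of_injective hinj
  refine ⟨LinearMap.toMatrix' g, Q, ?_⟩
  rw [Matrix.mul_assoc]
  have h1 : LinearMap.toMatrix' (g ∘ₗ (M * Q).mulVecLin) = 1 := by
    rw [hg, LinearMap.toMatrix'_id]
  rw [LinearMap.toMatrix'_comp, ← Matrix.toLin'_apply', LinearMap.toMatrix'_toLin'] at h1
  exact h1

theorem stPencil.{u} : StPencil.{u} := by
  intro F _ _ n n' K A B z₀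
  classical
  obtain ⟨r, hr, P, Q, hPQ⟩ : ∃ (r : ℕ) (_ : r = (A + z₀ • B).rank)
      (P : Matrix (Fin r) (Fin n) F) (Q : Matrix (Fin n') (Fin r) F),
      P * (A + z₀ • B) * Q = 1 :=
    ⟨_, rfl, exists_compress (A + z₀ • B)⟩
  rw [← hr]
  let NA : Matrix (Fin r) (Fin r) F := P * A * Q
  let NB : Matrix (Fin r) (Fin r) F := P * B * Q
  have hN : ∀ z : F, NA + z • NB = P * (A + z • B) * Q := by
    intro z
    simp only [NA, NB, Matrix.mul_add, Matrix.add_mul, Matrix.mul_smul, Matrix.smul_mul]
  have hrank : ∀ z : F, (NA + z • NB).rank ≤ (A + z • B).rank := by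
    intro z
    rw [hN]
    exact (Matrix.rank_mul_le_left _ _).trans (Matrix.rank_mul_le_right _ _)
  let M : Matrix (Fin r) (Fin r) F[X] := (X : F[X]) • NB.map C + NA.map C
  have hM : ∀ z : F, M.map (Polynomial.eval z) = NA + z • NB := by
    intro z
    ext i j
    simp only [M, Matrix.map_apply, Matrix.add_apply, Matrix.smul_apply, smul_eq_mul,
      Polynomial.eval_add, Polynomial.eval_mul, Polynomial.eval_X, Polynomial.eval_C]
    ring
  have hdeg : M.det.natDegree ≤ r := by
    have := Polynomial.natDegree_det_X_add_C_le NB NA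
    rwa [Fintype.card_fin] at this
  have hne : M.det ≠ 0 := by
    intro h0
    have h1 : (M.map (Polynomial.eval z₀)).det = Polynomial.eval z₀ M.det := by
      have := (RingHom.map_det (Polynomial.evalRingHom z₀) M).symm
      rwa [RingHom.mapMatrix_apply] at this
    rw [h0, Polynomial.eval_zero, hM, hN, hPQ, Matrix.det_one] at h1
    exact one_ne_zero h1
  have hcork : ∀ z : F, r ≤ (A + z • B).rank + M.det.rootMultiplicity z := by
    intro z
    have h1 := (Polynomial.le_rootMultiplicity_iff hne).mpr (pow_corank_dvd_det M z)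
    rw [hM] at h1
    have h2 := (NA + z • NB).mulVecLin.finrank_range_add_finrank_ker
    rw [Module.finrank_fin_fun] at h2
    have h3 : finrank F (LinearMap.range (NA + z • NB).mulVecLin) ≤ (A + z • B).rank := hrank z
    omega
  by_contra hcon
  push Not at hcon
  have h1 : ∀ z ∈ Finset.range (K + 1), r < (K + 1) * M.det.rootMultiplicity (z : F) := by
    intro z hz
    have h2 := hcon z (Nat.lt_succ_iff.mp (Finset.mem_range.mp hz))
    have h3 := hcork (z : F)
    have h4 := Nat.mul_le_mul_left (K + 1) h3
    rw [Nat.mul_add] at h4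
    have h5 : (K + 1) * r = K * r + r := by ring
    omega
  have h2 : ∑ _z ∈ Finset.range (K + 1), r <
      ∑ z ∈ Finset.range (K + 1), (K + 1) * M.det.rootMultiplicity (z : F) :=
    Finset.sum_lt_sum_of_nonempty ⟨0, Finset.mem_range.mpr (Nat.succ_pos K)⟩ h1
  rw [Finset.sum_const, Finset.card_range, smul_eq_mul, ← Finset.mul_sum] at h2
  have h3 := lt_of_mul_lt_mul_left h2 (Nat.zero_le _)
  have h4 := sum_rootMultiplicity_le M.det K
  omega

end Pool.Agent.Lib.MP_64d474_lc.Op
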