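import Mathlib
import Pool.Agent.Lib.MP_64d474_lc.ZtScheme
import Pool.Agent.Lib.MP_64d474_lc.Op.Stmts

/-!
Dimension-free amplification: from a set of integer vectors that approximates the rank of every
linear family up to a constant factor `κ`, the sums of `4 κ q ^ 2` multiples `z a` with
`z ≤ K`, where `K` depends only on `κ` and `q`, approximate the rank up to the factor `1 - 1 / q`.
-/

open Module

namespace Pool.Agent.Lib.MP_64d474_lc.Op

/-- the sums `∑ z_j a_j` of `N` terms with `a_j ∈ X` and `z_j ≤ K` -/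
def sums (K : ℕ) {m : ℕ} (X : Finset (Fin m → ℤ)) (N : ℕ) : Finset (Fin m → ℤ) :=
  (Fintype.piFinset fun _ : Fin N => X ×ˢ Finset.range (K + 1)).image
    fun f => ∑ j, ((f j).2 : ℤ) • (f j).1

variable {K m : ℕ} {X : Finset (Fin m → ℤ)}

theorem mem_sums {N : ℕ} {h : Fin m → ℤ} : h ∈ sums K X N ↔
    ∃ (a : Fin N → Fin m → ℤ) (z : Fin N → ℕ), (∀ j, a j ∈ X) ∧ (∀ j, z j ≤ K) ∧
      h = ∑ j, (z j : ℤ) • a j := by
  rw [sums, Finset.mem_image]
  constructor
  · rintro ⟨f, hf, rfl⟩
    rw [Fintype.mem_piFinset] at hf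
    exact ⟨fun j => (f j).1, fun j => (f j).2, fun j => (Finset.mem_product.mp (hf j)).1,
      fun j => Nat.lt_succ_iff.mp (Finset.mem_range.mp (Finset.mem_product.mp (hf j)).2), rfl⟩
  · rintro ⟨a, z, ha, hz, rfl⟩
    refine ⟨fun j => (a j, z j), ?_, rfl⟩
    rw [Fintype.mem_piFinset]
    exact fun j => Finset.mem_product.mpr ⟨ha j, Finset.mem_range.mpr (Nat.lt_succ_iff.mpr (hz j))⟩

theorem card_sums_le (N : ℕ) : (sums K X N).card ≤ (X.card * (K + 1)) ^ N := by
  refine Finset.card_image_le.trans ?_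
  rw [Fintype.card_piFinset]
  simp only [Finset.card_product, Finset.card_range, Finset.prod_const, Finset.card_univ,
    Fintype.card_fin]
  exact le_rfl

theorem sums_add {N N' : ℕ} {h h' : Fin m → ℤ} (hh : h ∈ sums K X N) (hh' : h' ∈ sums K X N') :
    h + h' ∈ sums K X (N + N') := by
  obtain ⟨a, z, ha, hz, rfl⟩ := mem_sums.mp hh
  obtain ⟨a', z', ha', hz', rfl⟩ := mem_sums.mp hh'
  refine mem_sums.mpr ⟨Fin.append a a', Fin.append z z', ?_, ?_, ?_⟩
  · intro j
    refine Fin.addCases (fun j => ?_) (fun j => ?_) j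
    · rw [Fin.append_left]
      exact ha j
    · rw [Fin.append_right]
      exact ha' j
  · intro j
    refine Fin.addCases (fun j => ?_) (fun j => ?_) j
    · rw [Fin.append_left]
      exact hz j
    · rw [Fin.append_right]
      exact hz' j
  · rw [Fin.sum_univ_add]
    simp only [Fin.append_left, Fin.append_right]

theorem zero_mem_sums (hX : X.Nonempty) (N : ℕ) : (0 : Fin m → ℤ) ∈ sums K X N := by
  obtain ⟨a, ha⟩ := hX
  refine mem_sums.mpr ⟨fun _ => a, fun _ => 0, fun _ => ha, fun _ => Nat.zero_le _, ?_⟩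
  simp

theorem sums_mono (hX : X.Nonempty) {N N' : ℕ} (h : N ≤ N') : sums K X N ⊆ sums K X N' := by
  intro x hx
  obtain ⟨d, rfl⟩ := Nat.exists_eq_add_of_le h
  have := sums_add hx (zero_mem_sums (K := K) hX d)
  rwa [add_zero] at this

theorem sums_coord_le {N : ℕ} (hX : ∀ a ∈ X, ∀ k, |a k| ≤ 1) :
    ∀ h ∈ sums K X N, ∀ k, |h k| ≤ N * K := by
  intro h hh k
  obtain ⟨a, z, ha, hz, rfl⟩ := mem_sums.mp hh
  rw [Finset.sum_apply]
  refine (Finset.abs_sum_le_sum_abs _ _).trans ?_
  refine (Finset.sum_le_card_nsmul Finset.univ _ (K : ℤ) ?_).trans ?_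
  · intro j _
    rw [Pi.smul_apply, smul_eq_mul, abs_mul]
    have h1 : |((z j : ℕ) : ℤ)| = z j := abs_of_nonneg (Int.natCast_nonneg _)
    rw [h1]
    have h2 := hX _ (ha j) k
    have h3 : ((z j : ℕ) : ℤ) ≤ K := by exact_mod_cast hz j
    have h4 : (0 : ℤ) ≤ z j := Int.natCast_nonneg _
    nlinarith [abs_nonneg (a j k)]
  · rw [Finset.card_univ, Fintype.card_fin, nsmul_eq_mul]

/-- the vector of an integer point -/
def castZ (F : Type*) [Field F] {m : ℕ} (h : Fin m → ℤ) : Fin m → F := fun k => (h k : F)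

section

variable {F : Type*} [Field F]

theorem castZ_add (h h' : Fin m → ℤ) : castZ F (h + h') = castZ F h + castZ F h' := by
  funext k
  simp [castZ]

theorem castZ_smul (z : ℕ) (h : Fin m → ℤ) : castZ F ((z : ℤ) • h) = (z : F) • castZ F h := by
  funext k
  simp [castZ]

end

/-- the pencil statement for endomorphisms -/
theorem pencil_end.{u} (h9 : StPencil.{u}) {F : Type u} [Field F] [CharZero F] {W : Type*}
    [AddCommGroup W] [Module F W] [FiniteDimensional F W] (T E : Module.End F W) (z₀ : F)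
    (K : ℕ) : ∃ z : ℕ, z ≤ K ∧ K * rk (T + z₀ • E) ≤ (K + 1) * rk (T + (z : F) • E) := by
  classical
  let b := finBasis F W
  have hrk : ∀ f : Module.End F W, rk f = (LinearMap.toMatrix b b f).rank := by
    intro f
    rw [Matrix.rank_eq_finrank_range_toLin (LinearMap.toMatrix b b f) b b,
      Matrix.toLin_toMatrix]
    rfl
  obtain ⟨z, hz, h⟩ := h9 F _ _ K (LinearMap.toMatrix b b T) (LinearMap.toMatrix b b E) z₀
  refine ⟨z, hz, ?_⟩
  rw [hrk, hrk, map_add, map_add, map_smul, map_smul]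
  exact h

/-- the recursion of the scheme -/
theorem recursion (q κ ρ R N e : ℕ) (u : ℕ → ℕ) (hu : Monotone u) (hq : 1 ≤ q)
    (hκ : 1 ≤ κ) (hN : N = 4 * κ * q ^ 2) (he : 2 * κ * q ^ 2 * e ≤ ρ)
    (h : ∀ j, j < N → 2 * q * ρ ≤ (2 * q + 1) * R + 2 * q * (κ * (u (j + 1) - u j + e)))
    (hr : u N ≤ u 0 + 2 * q * ρ) : (q - 1) * ρ ≤ q * R := by
  obtain ⟨p, rfl⟩ : ∃ p, q = p + 1 := ⟨q - 1, by omega⟩
  rw [Nat.add_sub_cancel]
  by_contra hcon
  push Not at hcon
  have h1 : ∀ j, j < N → (p + 1) * ρ + 1 ≤ 2 * (p + 1) ^ 2 * κ * (u (j + 1) - u j) := by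
    intro j hj
    have h2 := Nat.mul_le_mul_left (p + 1) (h j hj)
    have h3 : (p + 1) * ((2 * (p + 1) + 1) * R + 2 * (p + 1) * (κ * (u (j + 1) - u j + e))) =
        (2 * p + 3) * ((p + 1) * R) + 2 * (p + 1) ^ 2 * κ * (u (j + 1) - u j) +
          2 * κ * (p + 1) ^ 2 * e := by ring
    rw [h3] at h2
    have h4 : (2 * p + 3) * ((p + 1) * R + 1) ≤ (2 * p + 3) * (p * ρ) :=
      Nat.mul_le_mul_left _ hcon
    have h5 : (p + 1) * (2 * (p + 1) * ρ) = (2 * p + 3) * (p * ρ) + (p + 1) * ρ + ρ := by ring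
    have h6 : (2 * p + 3) * ((p + 1) * R + 1) = (2 * p + 3) * ((p + 1) * R) + (2 * p + 3) := by
      ring
    rw [h5] at h2
    rw [h6] at h4
    omega
  have h2 : ∀ j, j ≤ N → j * ((p + 1) * ρ + 1) ≤ 2 * (p + 1) ^ 2 * κ * (u j - u 0) := by
    intro j
    induction j with
    | zero => intro _; simp
    | succ j ih =>
      intro hj
      have h3 := ih (by omega)
      have h4 := h1 j (by omega)
      have h5 : u (j + 1) - u 0 = (u j - u 0) + (u (j + 1) - u j) := by
        have h6 : u 0 ≤ u j := hu (Nat.zero_le j)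
        have h7 : u j ≤ u (j + 1) := hu (Nat.le_succ j)
        omega
      rw [h5]
      calc (j + 1) * ((p + 1) * ρ + 1) = j * ((p + 1) * ρ + 1) + ((p + 1) * ρ + 1) := by ring
        _ ≤ 2 * (p + 1) ^ 2 * κ * (u j - u 0) + 2 * (p + 1) ^ 2 * κ * (u (j + 1) - u j) :=
            Nat.add_le_add h3 h4
        _ = 2 * (p + 1) ^ 2 * κ * (u j - u 0 + (u (j + 1) - u j)) := (Nat.mul_add _ _ _).symm
  have h3 := h2 N le_rfl
  have h4 : u N - u 0 ≤ 2 * (p + 1) * ρ := by omega
  have h5 : 2 * (p + 1) ^ 2 * κ * (u N - u 0) ≤ 2 * (p + 1) ^ 2 * κ * (2 * (p + 1) * ρ) :=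
    Nat.mul_le_mul_left _ h4
  have h6 : 2 * (p + 1) ^ 2 * κ * (2 * (p + 1) * ρ) = N * ((p + 1) * ρ) := by
    rw [hN]
    ring
  rw [h6] at h5
  have hN0 : 0 < N := by
    rw [hN]
    positivity
  have h7 : (p + 1) * ρ + 1 ≤ (p + 1) * ρ := Nat.le_of_mul_le_mul_left (h3.trans h5) hN0
  omega

/-- the dimension-free amplification theorem -/
theorem amplify.{u} (h9 : StPencil.{u}) {F : Type u} [Field F] [CharZero F] {V : Type*}
    [AddCommGroup V] [Module F V] [FiniteDimensional F V] {κ q : ℕ} (hκ : 1 ≤ κ)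
    (hXne : X.Nonempty)
    (hX : RankApprox (F := F) (TSpace V (2 * q)) {x | ∃ a ∈ X, x = castZ F a} κ)
    (hK : 2 * κ * q ^ 3 * (2 * q + 1) ≤ K + 1)
    (A₀ : Module.End F V) (B : (Fin m → F) →ₗ[F] Module.End F V) :
    ∃ h ∈ sums K X (4 * κ * q ^ 2), ∀ x : Fin m → F,
      (q - 1) * rk (A₀ + B x) ≤ q * rk (A₀ + B (castZ F h)) := by
  classical
  rcases Nat.eq_zero_or_pos q with rfl | hq
  · exact ⟨0, zero_mem_sums hXne _, fun x => by simp⟩
  -- a point at which the rank is maximal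
  obtain ⟨xs, hxs⟩ : ∃ xs : Fin m → F, ∀ x, rk (A₀ + B x) ≤ rk (A₀ + B xs) := by
    have hb : BddAbove (Set.range fun x : Fin m → F => rk (A₀ + B x)) :=
      ⟨finrank F V, by rintro _ ⟨x, rfl⟩; exact Submodule.finrank_le _⟩
    obtain ⟨xs, hxs⟩ := Nat.sSup_mem (Set.range_nonempty fun x : Fin m → F => rk (A₀ + B x)) hb
    exact ⟨xs, fun x => by
      have := le_csSup hb ⟨x, rfl⟩
      rw [← hxs] at this
      exact this⟩
  set M := A₀ + B xs with hM
  set ρ := rk M with hρ
  set l := 2 * q with hl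
  set N := 4 * κ * q ^ 2 with hN
  set P : (Fin m → ℤ) → ℕ := fun h => pot (A₀ + B (castZ F h)) M l with hP
  set R : (Fin m → ℤ) → ℕ := fun h => rk (A₀ + B (castZ F h)) with hR
  have hne : ∀ N, (sums K X N).Nonempty := fun N => ⟨0, zero_mem_sums hXne N⟩
  obtain ⟨h, hh, hmax⟩ := Finset.exists_mem_eq_sup (sums K X N) (hne _) R
  refine ⟨h, hh, fun x => (Nat.mul_le_mul_left _ (hxs x)).trans ?_⟩
  have hmono : Monotone fun j => (sums K X j).sup P := by
    intro j j' hj
    exact Finset.sup_mono (sums_mono hXne hj)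
  -- the potential is bounded everywhere
  have hpot : ∀ x : Fin m → F, pot (A₀ + B x) M l ≤ ∑ i ∈ Finset.range l, (i + 1) * ρ := by
    intro x
    rw [pot_eq]
    refine Finset.sum_le_sum fun i _ => ?_
    refine tt_le _ _ ρ {-1} (fun z hz => ?_) (i + 1)
    rw [Finset.mem_singleton] at hz
    have hz1 : 1 + z ≠ 0 := fun h0 => hz (by linear_combination h0)
    have e1 : A₀ + B x + z • M = (1 + z) • (A₀ + B ((1 + z)⁻¹ • (x + z • xs))) := by
      rw [hM, map_smul, map_add, map_smul, smul_add (1 + z), smul_smul (1 + z),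
        mul_inv_cancel₀ hz1, one_smul]
      module
    rw [e1, rk_smul _ hz1]
    exact hxs _
  have hsum : ∑ i ∈ Finset.range l, (i + 1) * ρ = q * (2 * q + 1) * ρ := by
    have h2 : ∀ l : ℕ, 2 * ∑ i ∈ Finset.range l, (i + 1) * ρ = l * (l + 1) * ρ := by
      intro l
      induction l with
      | zero => simp
      | succ l ih =>
        rw [Finset.sum_range_succ, Nat.mul_add, ih]
        ring
    have h3 := h2 (2 * q)
    have h4 : 2 * q * (2 * q + 1) * ρ = 2 * (q * (2 * q + 1) * ρ) := by ring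
    rw [hl]
    omega
  set e := (q * (2 * q + 1) * ρ) / (K + 1) with he
  have he1 : 2 * κ * q ^ 2 * e ≤ ρ := by
    have h1 : e * (K + 1) ≤ q * (2 * q + 1) * ρ := Nat.div_mul_le_self _ _
    have h2 : e * (2 * κ * q ^ 3 * (2 * q + 1)) ≤ q * (2 * q + 1) * ρ :=
      (Nat.mul_le_mul_left _ hK).trans h1
    have h3 : e * (2 * κ * q ^ 3 * (2 * q + 1)) = (q * (2 * q + 1)) * (2 * κ * q ^ 2 * e) := by
      ring
    rw [h3] at h2
    exact Nat.le_of_mul_le_mul_left h2 (by positivity)
  refine recursion q κ ρ (R h) N e (fun j => (sums K X j).sup P) hmono hq hκ hN he1 ?_ ?_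
  · intro j hj
    obtain ⟨g, hg, hgmax⟩ := Finset.exists_mem_eq_sup (sums K X j) (hne _) P
    have e1 : (sums K X j).sup P = P g := hgmax
    have h3 := hX.round2 (A₀ + B (castZ F g)) M B (xs - castZ F g) (by
      rw [hM, map_sub]
      abel) ((sums K X (j + 1)).sup P - (sums K X j).sup P + e) (by
      rintro _ ⟨a, ha, rfl⟩ z
      -- pass to a natural value
      set T : Module.End F (TSpace V l) := bdg (W := fun i : Fin l => Fin ((i : ℕ) + 1) → V)
        (fun i => toep (A₀ + B (castZ F g)) M ((i : ℕ) + 1)) with hT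
      set E : Module.End F (TSpace V l) := bdg (W := fun i : Fin l => Fin ((i : ℕ) + 1) → V)
        (fun i => mapV (B (castZ F a)) ((i : ℕ) + 1)) with hE
      have h5 : ∀ z : F, pot (A₀ + B (castZ F g) + z • B (castZ F a)) M l = rk (T + z • E) := by
        intro z
        have h6 : T + z • E = bdg (W := fun i : Fin l => Fin ((i : ℕ) + 1) → V)
            fun i => toep (A₀ + B (castZ F g) + z • B (castZ F a)) M ((i : ℕ) + 1) := by
          refine LinearMap.ext fun x => funext fun i => ?_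
          rw [bdg_apply, toep_add_smul]
          rfl
        rw [pot, h6]
      obtain ⟨z', hz', h6⟩ := pencil_end h9 T E z K
      have h7 : g + (z' : ℤ) • a ∈ sums K X (j + 1) := by
        refine sums_add hg (mem_sums.mpr ⟨fun _ => a, fun _ => z', fun _ => ha,
          fun _ => hz', ?_⟩)
        rw [Fin.sum_univ_one]
      have h8 : P (g + (z' : ℤ) • a) ≤ (sums K X (j + 1)).sup P := Finset.le_sup (f := P) h7
      have h9 : P (g + (z' : ℤ) • a) = rk (T + (z' : F) • E) := by
        rw [← h5, hP]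
        dsimp only
        rw [castZ_add, castZ_smul, map_add, map_smul, ← add_assoc]
      have h10 : (sums K X j).sup P ≤ (sums K X (j + 1)).sup P := hmono (Nat.le_succ j)
      have h11 : rk (T + z • E) ≤ q * (2 * q + 1) * ρ := by
        rw [← h5, ← hsum]
        have h12 := hpot (castZ F g + z • castZ F a)
        rw [map_add, map_smul, ← add_assoc] at h12
        exact h12
      have h12 : rk (T + z • E) ≤ rk (T + (z' : F) • E) + e := by
        rw [he]
        by_contra hcon
        push Not at hcon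
        have h13 : (K + 1) * (rk (T + z • E) - rk (T + (z' : F) • E)) ≤ rk (T + z • E) := by
          rw [Nat.mul_sub]
          have h14 : (K + 1) * rk (T + z • E) = K * rk (T + z • E) + rk (T + z • E) := by ring
          omega
        have h15 : q * (2 * q + 1) * ρ / (K + 1) <
            rk (T + z • E) - rk (T + (z' : F) • E) := by omega
        have h16 : q * (2 * q + 1) * ρ <
            (rk (T + z • E) - rk (T + (z' : F) • E)) * (K + 1) :=
          (Nat.div_lt_iff_lt_mul (Nat.succ_pos K)).mp h15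
        rw [Nat.mul_comm] at h13
        omega
      rw [h5 z, ← show P g = pot (A₀ + B (castZ F g)) M l from rfl, ← e1]
      rw [← h9] at h12
      omega)
    have h4 : R g ≤ R h := by
      have h5 : g ∈ sums K X N := sums_mono hXne hj.le hg
      have h6 := Finset.le_sup (f := R) h5
      rw [hmax] at h6
      exact h6
    exact h3.trans (Nat.add_le_add_right (Nat.mul_le_mul_left _ h4) _)
  · -- the potential increases by at most `l ρ` in total
    have h1 : (sums K X N).sup P ≤ ∑ i ∈ Finset.range l, (i + 1) * ρ :=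
      Finset.sup_le fun g _ => hpot _
    have h2 : ∑ i ∈ Finset.range l, i * ρ ≤ (sums K X 0).sup P := by
      obtain ⟨g, hg⟩ := hne 0
      refine le_trans ?_ (Finset.le_sup (f := P) hg)
      rw [hP]
      dsimp only
      rw [pot_eq]
      exact Finset.sum_le_sum fun i _ => mul_rk_le_tt _ M i
    have h3 : ∑ i ∈ Finset.range l, (i + 1) * ρ = ∑ i ∈ Finset.range l, i * ρ + l * ρ := by
      have h4 : ∀ i ∈ Finset.range l, (i + 1) * ρ = i * ρ + ρ := fun i _ => by ring
      rw [Finset.sum_congr rfl h4, Finset.sum_add_distrib, Finset.sum_const, Finset.card_range,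
        smul_eq_mul]
    have h5 : l * ρ = 2 * q * ρ := by rw [hl]
    omega

end Pool.Agent.Lib.MP_64d474_lc.Op
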