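import Mathlib
import Pool.Agent.Lib.MP_64d474_lc.Op.Base
import Pool.Agent.Lib.MP_64d474_lc.Op.S1
import Pool.Agent.Lib.MP_64d474_lc.Op.S3
import Pool.Agent.Lib.MP_64d474_lc.Op.S4
import Pool.Agent.Lib.MP_64d474_lc.Op.S5
import Pool.Agent.Lib.MP_64d474_lc.Op.S6
import Pool.Agent.Lib.MP_64d474_lc.Op.S7
import Pool.Agent.Lib.MP_64d474_lc.Op.S8
import Pool.Agent.Lib.MP_64d474_lc.Op.S9
import Pool.Agent.Lib.MP_64d474_lc.Op.Scheme

/-!
Assembly of the dimension-free approximation of the rank of matrix spaces.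
-/

open Matrix Module

namespace Pool.Agent.Lib.MP_64d474_lc.Op

/-- `φ` is additive and injective, `α` is injective -/
def IsCode {K : Type} [Field K] {l m : ℕ} (φ : K → Fin l → ZMod 2) (α : Fin m → K) : Prop :=
  (∀ x y, φ (x + y) = φ x + φ y) ∧ Function.Injective φ ∧ Function.Injective α

/-- the set of all sign vectors `((-1) ^ (u · φ (α k) + v · φ (α k ^ 3)))_k` -/
def signSet {K : Type} [Field K] {l m : ℕ} (φ : K → Fin l → ZMod 2) (α : Fin m → K) :
    Finset (Fin m → ℤ) :=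
  Finset.univ.image (signVec φ α)

/-- the sums `a + z b` of the two halves `a, b` of a sign vector `(a, b)`, where `z ≤ L` -/
def pairSet {K : Type} [Field K] {l m : ℕ} (φ : K → Fin l → ZMod 2) (α : Fin (m + m) → K)
    (L : ℕ) : Finset (Fin m → ℤ) :=
  (signSet φ α ×ˢ Finset.range (L + 1)).image
    fun p k => p.1 (Fin.castAdd m k) + p.2 * p.1 (Fin.natAdd m k)

/-- `r` is at most the noncommutative rank of `B₁, …, B_m`: there are `r × n` and `n × r` matrices
`S, T` and square matrices `Y_k` for which `∑ Y_k ⊗ (S B_k T)` is nonsingular -/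
def NcRankGE {F : Type*} [Field F] {n m : ℕ} (B : Fin m → Matrix (Fin n) (Fin n) F) (r : ℕ) :
    Prop :=
  ∃ (S : Matrix (Fin r) (Fin n) F) (T : Matrix (Fin n) (Fin r) F) (d : ℕ)
    (Y : Fin m → Matrix (Fin d) (Fin d) F), 0 < d ∧
      (∑ k, Matrix.kroneckerMap (· * ·) (Y k) (S * B k * T)).det ≠ 0

/-- the points of `X` approximate the rank of all linear families of `m` matrices of size `n × n`
over `F` within the factor `κ` -/
def IsApprox (F : Type*) [Field F] (n : ℕ) {m : ℕ} (X : Finset (Fin m → ℤ)) (κ : ℕ) : Prop :=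
  ∀ (C : Fin m → Matrix (Fin n) (Fin n) F) (y : Fin m → F),
    ∃ a ∈ X, (∑ k, y k • C k).rank ≤ κ * (∑ k, (a k : F) • C k).rank

/-- the largest multiplier of the scheme -/
def mul (κ q : ℕ) : ℕ := 2 * κ * (q ^ 3 * (2 * q + 1))

/-- the points of the scheme -/
def scheme {K : Type} [Field K] {l m : ℕ} (φ : K → Fin l → ZMod 2) (α : Fin m → K) (q : ℕ) :
    Finset (Fin m → ℤ) :=
  sums (mul 3 q) (signSet φ α) (12 * q ^ 2)

theorem card_signSet_le {K : Type} [Field K] {l m : ℕ} (φ : K → Fin l → ZMod 2)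
    (α : Fin m → K) : (signSet φ α).card ≤ 4 ^ l := by
  refine Finset.card_image_le.trans (le_of_eq ?_)
  rw [Finset.card_univ, Fintype.card_prod, Fintype.card_fun, Fintype.card_fin, ZMod.card,
    ← mul_pow]
  norm_num

theorem sgn_abs (x : ZMod 2) : |sgn x| = 1 := by
  unfold sgn
  split_ifs <;> simp

theorem abs_signSet {K : Type} [Field K] {l m : ℕ} (φ : K → Fin l → ZMod 2)
    (α : Fin m → K) : ∀ a ∈ signSet φ α, ∀ k, |a k| ≤ 1 := by
  intro a ha k
  obtain ⟨ω, -, rfl⟩ := Finset.mem_image.mp ha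
  exact (sgn_abs _).le

theorem signSet_nonempty {K : Type} [Field K] {l m : ℕ} (φ : K → Fin l → ZMod 2)
    (α : Fin m → K) : (signSet φ α).Nonempty :=
  Finset.image_nonempty.mpr Finset.univ_nonempty

theorem card_pairSet_le {K : Type} [Field K] {l m : ℕ} (φ : K → Fin l → ZMod 2)
    (α : Fin (m + m) → K) (L : ℕ) : (pairSet φ α L).card ≤ 4 ^ l * (L + 1) := by
  refine Finset.card_image_le.trans ?_
  rw [Finset.card_product, Finset.card_range]
  exact Nat.mul_le_mul_right _ (card_signSet_le φ α)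

theorem ncRankGE_rank {F : Type*} [Field F] {n m : ℕ} (B : Fin m → Matrix (Fin n) (Fin n) F)
    (y : Fin m → F) : NcRankGE B (∑ k, y k • B k).rank := by
  classical
  obtain ⟨P, Q, hPQ⟩ := exists_compress (∑ k, y k • B k)
  refine ⟨P, Q, 1, fun k => y k • 1, one_pos, ?_⟩
  have h1 : ∑ k, Matrix.kroneckerMap (· * ·) (y k • (1 : Matrix (Fin 1) (Fin 1) F))
      (P * B k * Q) = 1 := by
    have h2 : P * (∑ k, y k • B k) * Q = ∑ k, y k • (P * B k * Q) := by
      rw [Matrix.mul_sum, Matrix.sum_mul]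
      refine Finset.sum_congr rfl fun k _ => ?_
      rw [Matrix.mul_smul, Matrix.smul_mul]
    rw [h2] at hPQ
    ext ⟨i, a⟩ ⟨j, b⟩
    have hij : i = j := Subsingleton.elim _ _
    subst hij
    have h3 := congrFun (congrFun hPQ a) b
    rw [Matrix.sum_apply] at h3 ⊢
    simp only [Matrix.smul_apply, smul_eq_mul] at h3
    simp only [Matrix.kroneckerMap_apply, Matrix.smul_apply, Matrix.one_apply_eq, smul_eq_mul,
      mul_one]
    rw [h3, Matrix.one_apply, Matrix.one_apply]
    by_cases hab : a = b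
    · rw [if_pos hab, if_pos (by rw [hab])]
    · rw [if_neg hab, if_neg (fun h => hab (Prod.mk.inj h).2)]
  rw [h1, Matrix.det_one]
  exact one_ne_zero

theorem stScaling' : StScaling := stScaling stAmgm stNormal stDet

theorem signSet_third.{u} {K : Type} [Field K] [CharP K 2] {l m : ℕ} {φ : K → Fin l → ZMod 2}
    {α : Fin m → K} (h : IsCode φ α) {F : Type u} [Field F] [CharZero F] {n r : ℕ}
    (B : Fin m → Matrix (Fin n) (Fin n) F) (hr : NcRankGE B r) :
    ∃ a ∈ signSet φ α, r ≤ 3 * (∑ k, (a k : F) • B k).rank := by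
  obtain ⟨S, T, d, Y, hd, hdet⟩ := hr
  obtain ⟨ω, hω⟩ := sign_third stRank stScaling' stSign stEmbed φ α h.1 h.2.1 h.2.2
    hd B S T Y hdet
  exact ⟨_, Finset.mem_image_of_mem _ (Finset.mem_univ ω), hω⟩

theorem pairSet_half.{u} {K : Type} [Field K] [CharP K 2] {l m : ℕ} {φ : K → Fin l → ZMod 2}
    {α : Fin (m + m) → K} (h : IsCode φ α) (L : ℕ) {F : Type u} [Field F] [CharZero F] {n r : ℕ}
    (B : Fin m → Matrix (Fin n) (Fin n) F) (hr : NcRankGE B r) :
    ∃ a ∈ pairSet φ α L, L * r ≤ 2 * ((L + 1) * (∑ k, (a k : F) • B k).rank) := by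
  obtain ⟨S, T, d, Y, hd, hdet⟩ := hr
  obtain ⟨ω, z, hz, hω⟩ := pair_half stRank stScaling' stSign stEmbed stPencil
    φ α h.1 h.2.1 h.2.2 hd B S T Y hdet L
  refine ⟨_, Finset.mem_image.mpr ⟨(signVec φ α ω, z), Finset.mem_product.mpr
    ⟨Finset.mem_image_of_mem _ (Finset.mem_univ ω),
      Finset.mem_range.mpr (Nat.lt_succ_of_le hz)⟩, rfl⟩, hω⟩

theorem signSet_approx.{u} {K : Type} [Field K] [CharP K 2] {l m : ℕ} {φ : K → Fin l → ZMod 2}
    {α : Fin m → K} (h : IsCode φ α) (F : Type u) [Field F] [CharZero F] (n : ℕ) :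
    IsApprox F n (signSet φ α) 3 := fun C y => signSet_third h C (ncRankGE_rank C y)

/-- the linear map of a family of matrices -/
noncomputable def famLin {F : Type*} [Field F] {n m : ℕ} (B : Fin m → Matrix (Fin n) (Fin n) F) :
    (Fin m → F) →ₗ[F] Module.End F (Fin n → F) :=
  (Matrix.toLin' : Matrix (Fin n) (Fin n) F ≃ₗ[F] _).toLinearMap ∘ₗ Fintype.linearCombination F B

theorem famLin_apply {F : Type*} [Field F] {n m : ℕ} (B : Fin m → Matrix (Fin n) (Fin n) F)
    (x : Fin m → F) : famLin B x = Matrix.toLin' (∑ k, x k • B k) := by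
  rw [famLin, LinearMap.comp_apply, Fintype.linearCombination_apply]
  rfl

theorem rankApprox_of_isApprox {F : Type*} [Field F] {n m : ℕ} {X : Finset (Fin m → ℤ)} {κ : ℕ}
    (h : IsApprox F n X κ) :
    RankApprox (F := F) (Fin n → F) {x : Fin m → F | ∃ a ∈ X, x = castZ F a} κ := by
  classical
  intro C y
  obtain ⟨a, ha, h1⟩ := h (fun k => LinearMap.toMatrix' (C (Pi.single k 1))) y
  refine ⟨castZ F a, ⟨a, ha, rfl⟩, ?_⟩
  have hC : ∀ x : Fin m → F, rk (C x) =
      (∑ k, x k • LinearMap.toMatrix' (C (Pi.single k 1))).rank := by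
    intro x
    have e0 : x = ∑ k, x k • (Pi.single k 1 : Fin m → F) := by
      funext j
      rw [Finset.sum_apply, Finset.sum_eq_single j]
      · rw [Pi.smul_apply, Pi.single_eq_same, smul_eq_mul, mul_one]
      · intro k _ hkj
        rw [Pi.smul_apply, Pi.single_eq_of_ne hkj.symm, smul_zero]
      · intro h
        exact absurd (Finset.mem_univ j) h
    have e1 : C x = ∑ k, x k • C (Pi.single k 1) := by
      conv_lhs => rw [e0]
      rw [map_sum]
      exact Finset.sum_congr rfl fun k _ => map_smul _ _ _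
    rw [rk_eq_rank, e1, map_sum]
    simp only [map_smul]
  rw [hC, hC]
  exact h1

/-- dimension-free amplification for matrices -/
theorem amplified.{u} {F : Type u} [Field F] [CharZero F] {n m q : ℕ} {X : Finset (Fin m → ℤ)}
    {κ : ℕ} (hκ : 1 ≤ κ) (hX : IsApprox F (n * (q * (2 * q + 1))) X κ)
    (B₀ : Matrix (Fin n) (Fin n) F) (B : Fin m → Matrix (Fin n) (Fin n) F) :
    ∃ h ∈ sums (mul κ q) X (4 * κ * q ^ 2), ∀ x : Fin m → F,
      (q - 1) * (B₀ + ∑ k, x k • B k).rank ≤ q * (B₀ + ∑ k, (h k : F) • B k).rank := by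
  classical
  have hne : X.Nonempty := by
    obtain ⟨a, ha, -⟩ := hX (fun _ => 0) (fun _ => 0)
    exact ⟨a, ha⟩
  have hd : finrank F (TSpace (Fin n → F) (2 * q)) = n * (q * (2 * q + 1)) := finrank_TSpace F n q
  have h' : RankApprox (F := F) (TSpace (Fin n → F) (2 * q))
      {x : Fin m → F | ∃ a ∈ X, x = castZ F a} κ :=
    (rankApprox_of_isApprox hX).of_le (by rw [hd, Module.finrank_fin_fun])
  obtain ⟨g, hg, h1⟩ := amplify (K := mul κ q) stPencil hκ hne h'
    (by rw [mul]; nlinarith) (Matrix.toLin' B₀) (famLin B)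
  refine ⟨g, hg, fun x => ?_⟩
  have h2 := h1 x
  rw [famLin_apply, famLin_apply, ← map_add, ← map_add, rk_toLin', rk_toLin'] at h2
  exact h2

/-- existence of the data -/
theorem exists_code (m : ℕ) (hm : 1 ≤ m) : ∃ (K : Type) (_ : Field K) (_ : CharP K 2) (l : ℕ)
    (φ : K → Fin l → ZMod 2) (α : Fin m → K), IsCode φ α ∧ 2 ^ l ≤ 2 * m := by
  classical
  set l := max 1 (Nat.clog 2 m) with hl
  have hl1 : l ≠ 0 := by omega
  have hml : m ≤ 2 ^ l :=
    (Nat.le_pow_clog (by norm_num) m).trans (Nat.pow_le_pow_right (by norm_num) (le_max_right _ _))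
  have hlm : 2 ^ l ≤ 2 * m := by
    rcases le_total (Nat.clog 2 m) 1 with h | h
    · rw [hl, max_eq_left h, pow_one]
      omega
    · rw [hl, max_eq_right h]
      have h2 : 1 < m := by
        by_contra hcon
        have : m = 1 := by omega
        rw [this, Nat.clog_one_right] at h
        omega
      have h3 := Nat.pow_pred_clog_lt_self (b := 2) (by norm_num) h2
      obtain ⟨c, hc⟩ : ∃ c, Nat.clog 2 m = c + 1 := ⟨Nat.clog 2 m - 1, by omega⟩
      rw [hc, Nat.pred_succ] at h3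
      rw [hc, pow_succ]
      omega
  have : Fact (Nat.Prime 2) := ⟨Nat.prime_two⟩
  have hcard : Nat.card (GaloisField 2 l) = 2 ^ l := GaloisField.card 2 l hl1
  have : Fintype (GaloisField 2 l) := Fintype.ofFinite _
  have hcard' : Fintype.card (GaloisField 2 l) = 2 ^ l := by rw [← Nat.card_eq_fintype_card, hcard]
  obtain ⟨α⟩ : Nonempty (Fin m ↪ GaloisField 2 l) :=
    Function.Embedding.nonempty_of_card_le (by rw [Fintype.card_fin, hcard']; exact hml)
  let b := Module.finBasisOfFinrankEq (ZMod 2) (GaloisField 2 l) (GaloisField.finrank 2 hl1)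
  refine ⟨GaloisField 2 l, inferInstance, inferInstance, l, b.equivFun, α,
    ⟨fun x y => map_add _ _ _, b.equivFun.injective, α.injective⟩, hlm⟩

end Pool.Agent.Lib.MP_64d474_lc.Op
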