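import Pool.Agent.Lib.MP_64d474_lc.Op.StmtsN
import Pool.Agent.Lib.MP_64d474_lc.Op.S6

/-!
# N1: lower bound for the scaling functional of a family without shrunk subspace
-/

open Matrix Module
open scoped ComplexOrder

namespace Pool.Agent.Lib.MP_64d474_lc.Op

namespace N1

/-- The vectors that vanish on `J`. -/
noncomputable def E {n : ℕ} (J : Finset (Fin n)) : Submodule ℂ (Fin n → ℂ) :=
  LinearMap.ker (LinearMap.funLeft ℂ ℂ (Subtype.val : J → Fin n))

theorem mem_E {n : ℕ} (J : Finset (Fin n)) (z : Fin n → ℂ) : z ∈ E J ↔ ∀ j ∈ J, z j = 0 := by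
  unfold E
  rw [LinearMap.mem_ker]
  constructor
  · intro h j hj
    exact congrFun h ⟨j, hj⟩
  · intro h
    ext ⟨j, hj⟩
    exact h j hj

theorem finrank_E {n : ℕ} (J : Finset (Fin n)) : finrank ℂ (E J) + J.card = n := by
  have h := LinearMap.finrank_range_add_finrank_ker
    (LinearMap.funLeft ℂ ℂ (Subtype.val : J → Fin n))
  rw [LinearMap.range_eq_top.2 (LinearMap.funLeft_surjective_of_injective ℂ ℂ _
    Subtype.val_injective), finrank_top, Module.finrank_fintype_fun_eq_card,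
    Module.finrank_fintype_fun_eq_card] at h
  simp only [Fintype.card_coe, Fintype.card_fin] at h
  unfold E
  omega

/-- the weights -/
noncomputable def w {n m : ℕ} (B : Fin m → Matrix (Fin n) (Fin n) ℂ)
    (p : Matrix (Fin n) (Fin n) ℂ × Matrix (Fin n) (Fin n) ℂ) (i j : Fin n) : ℝ :=
  ∑ k, ‖(p.1ᴴ * B k * p.2) i j‖ ^ 2

theorem w_nonneg {n m : ℕ} (B : Fin m → Matrix (Fin n) (Fin n) ℂ)
    (p : Matrix (Fin n) (Fin n) ℂ × Matrix (Fin n) (Fin n) ℂ) (i j : Fin n) : 0 ≤ w B p i j :=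
  Finset.sum_nonneg fun _ _ => by positivity

theorem w_cont {n m : ℕ} (B : Fin m → Matrix (Fin n) (Fin n) ℂ) (i j : Fin n) :
    Continuous fun p : Matrix (Fin n) (Fin n) ℂ × Matrix (Fin n) (Fin n) ℂ => w B p i j := by
  unfold w
  refine continuous_finsetSum _ fun k _ => ?_
  refine Continuous.pow (Continuous.norm ?_) 2
  have h : Continuous fun p : Matrix (Fin n) (Fin n) ℂ × Matrix (Fin n) (Fin n) ℂ =>
      p.1ᴴ * B k * p.2 :=
    ((continuous_fst.matrix_conjTranspose).matrix_mul continuous_const).matrix_mul continuous_snd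
  exact h.matrix_elem i j

/-- Hall's theorem at one pair of unitary matrices. -/
theorem exists_perm {n m : ℕ} (B : Fin m → Matrix (Fin n) (Fin n) ℂ) (hB : Nonshrunk B)
    (U V : Matrix (Fin n) (Fin n) ℂ) (hU : U * Uᴴ = 1) (hV : Vᴴ * V = 1) :
    ∃ π : Equiv.Perm (Fin n), ∀ i, 0 < w B (U, V) i (π i) := by
  classical
  set t : Fin n → Finset (Fin n) := fun i => Finset.univ.filter fun j => 0 < w B (U, V) i j with ht
  have hall : ∀ s : Finset (Fin n), s.card ≤ (s.biUnion t).card := by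
    intro s
    by_contra hcon
    push Not at hcon
    set J := s.biUnion t with hJ
    have hVinj : Function.Injective V.mulVecLin := by
      intro x y hxy
      have h : Vᴴ *ᵥ (V *ᵥ x) = Vᴴ *ᵥ (V *ᵥ y) := by
        have : V *ᵥ x = V *ᵥ y := hxy
        rw [this]
      rwa [Matrix.mulVec_mulVec, Matrix.mulVec_mulVec, hV, Matrix.one_mulVec,
        Matrix.one_mulVec] at h
    have h1 : finrank ℂ ((E J).map V.mulVecLin) = finrank ℂ (E J) :=
      (Submodule.equivMapOfInjective V.mulVecLin hVinj (E J)).finrank_eq.symm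
    have h2 := hB ((E J).map V.mulVecLin)
    have h3 : (⨆ k, ((E J).map V.mulVecLin).map (B k).mulVecLin : Submodule ℂ (Fin n → ℂ)) ≤
        (E s).map U.mulVecLin := by
      refine iSup_le fun k => ?_
      rintro _ ⟨_, ⟨z, hz, rfl⟩, rfl⟩
      refine ⟨Uᴴ *ᵥ (B k *ᵥ (V *ᵥ z)), ?_, ?_⟩
      · rw [SetLike.mem_coe, mem_E]
        intro i hi
        rw [Matrix.mulVec_mulVec, Matrix.mulVec_mulVec]
        unfold Matrix.mulVec dotProduct
        refine Finset.sum_eq_zero fun j _ => ?_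
        by_cases hj : j ∈ J
        · have := (mem_E J z).1 hz j hj
          rw [this, mul_zero]
        · have h4 : ¬ 0 < w B (U, V) i j := by
            intro h5
            apply hj
            rw [hJ, Finset.mem_biUnion]
            exact ⟨i, hi, by simp [ht, h5]⟩
          have h5 : w B (U, V) i j = 0 := le_antisymm (not_lt.1 h4) (w_nonneg _ _ _ _)
          unfold w at h5
          have h6 := (Finset.sum_eq_zero_iff_of_nonneg (fun k _ => by positivity)).1 h5 k
            (Finset.mem_univ k)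
          have h7 : (Uᴴ * B k * V) i j = 0 := by
            have := pow_eq_zero_iff (two_ne_zero) |>.1 h6
            exact norm_eq_zero.1 this
          change (Uᴴ * B k * V) i j * z j = 0
          rw [h7, zero_mul]
      · change U *ᵥ (Uᴴ *ᵥ (B k *ᵥ (V *ᵥ z))) = B k *ᵥ (V *ᵥ z)
        rw [Matrix.mulVec_mulVec, hU, Matrix.one_mulVec]
    have h4 := Submodule.finrank_mono h3
    have h5 : finrank ℂ ((E s).map U.mulVecLin) ≤ finrank ℂ (E s) :=
      Submodule.finrank_map_le _ _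
    have h6 := finrank_E J
    have h7 := finrank_E s
    omega
  obtain ⟨f, hf, hft⟩ := (Finset.all_card_le_biUnion_card_iff_exists_injective t).1 hall
  refine ⟨Equiv.ofBijective f (Finite.injective_iff_bijective.1 hf), fun i => ?_⟩
  have := hft i
  simp only [ht, Finset.mem_filter, Finset.mem_univ, true_and] at this
  exact this

/-- The set of unitary matrices is compact. -/
theorem compact_unitary (n : ℕ) :
    IsCompact {U : Matrix (Fin n) (Fin n) ℂ | Uᴴ * U = 1} := by
  have h1 : IsCompact (Set.pi Set.univ fun _ : Fin n => Set.pi Set.univ fun _ : Fin n =>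
      Metric.closedBall (0 : ℂ) 1) :=
    isCompact_univ_pi fun _ => isCompact_univ_pi fun _ => isCompact_closedBall _ _
  refine IsCompact.of_isClosed_subset h1 ?_ ?_
  · refine isClosed_eq ?_ continuous_const
    exact (continuous_id.matrix_conjTranspose).matrix_mul continuous_id
  · intro U hU i _ j _
    rw [mem_closedBall_zero_iff]
    have h2 : (Uᴴ * U) j j = 1 := by
      rw [show Uᴴ * U = 1 from hU, Matrix.one_apply_eq]
    rw [Matrix.mul_apply] at h2
    have h3 : ∑ x, ‖U x j‖ ^ 2 = 1 := by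
      have h4 : ((∑ x, ‖U x j‖ ^ 2 : ℝ) : ℂ) = 1 := by
        rw [← h2]
        push_cast
        refine Finset.sum_congr rfl fun x _ => ?_
        rw [Matrix.conjTranspose_apply]
        exact (Complex.conj_mul' (U x j)).symm
      exact_mod_cast h4
    have h4 : ‖U i j‖ ^ 2 ≤ 1 := by
      rw [← h3]
      exact Finset.single_le_sum (f := fun x => ‖U x j‖ ^ 2) (fun x _ => by positivity)
        (Finset.mem_univ i)
    have h5 := norm_nonneg (U i j)
    nlinarith

/-- The uniform version. -/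
theorem exists_delta {n m : ℕ} (hn : 0 < n) (B : Fin m → Matrix (Fin n) (Fin n) ℂ)
    (hB : Nonshrunk B) : ∃ δ : ℝ, 0 < δ ∧ ∀ U V : Matrix (Fin n) (Fin n) ℂ, Uᴴ * U = 1 →
      Vᴴ * V = 1 → ∃ π : Equiv.Perm (Fin n), ∀ i, δ ≤ w B (U, V) i (π i) := by
  classical
  have hne : (Finset.univ : Finset (Equiv.Perm (Fin n))).Nonempty := ⟨1, Finset.mem_univ _⟩
  have hne' : (Finset.univ : Finset (Fin n)).Nonempty := ⟨⟨0, hn⟩, Finset.mem_univ _⟩
  set g : Matrix (Fin n) (Fin n) ℂ × Matrix (Fin n) (Fin n) ℂ → ℝ := fun p =>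
    Finset.univ.sup' hne fun π : Equiv.Perm (Fin n) =>
      Finset.univ.inf' hne' fun i => w B p i (π i) with hg
  have hgc : Continuous g := by
    refine Continuous.finset_sup'_apply hne fun π _ => ?_
    exact Continuous.finset_inf'_apply hne' fun i _ => w_cont B i (π i)
  have hK := (compact_unitary n).prod (compact_unitary n)
  obtain ⟨p₀, hp₀, hmin⟩ := hK.exists_isMinOn ⟨(1, 1), by simp⟩ hgc.continuousOn
  have hpos : 0 < g p₀ := by
    obtain ⟨π, hπ⟩ := exists_perm B hB p₀.1 p₀.2 (mul_eq_one_comm.1 hp₀.1) hp₀.2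
    refine lt_of_lt_of_le ?_ (Finset.le_sup' (fun π : Equiv.Perm (Fin n) =>
      Finset.univ.inf' hne' fun i => w B p₀ i (π i)) (Finset.mem_univ π))
    rw [Finset.lt_inf'_iff]
    exact fun i _ => hπ i
  refine ⟨g p₀, hpos, fun U V hU hV => ?_⟩
  have h1 : g p₀ ≤ g (U, V) := hmin ⟨hU, hV⟩
  obtain ⟨π, -, hπ⟩ := Finset.exists_mem_eq_sup' hne fun π : Equiv.Perm (Fin n) =>
      Finset.univ.inf' hne' fun i => w B (U, V) i (π i)
  refine ⟨π, fun i => h1.trans ?_⟩
  rw [hg]
  simp only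
  rw [hπ]
  exact Finset.inf'_le _ (Finset.mem_univ i)

theorem fro_trace {n : ℕ} (M : Matrix (Fin n) (Fin n) ℂ) :
    ((fro M : ℝ) : ℂ) = (Mᴴ * M).trace := by
  unfold fro Matrix.trace
  push_cast
  rw [Finset.sum_comm]
  refine Finset.sum_congr rfl fun j _ => ?_
  rw [Matrix.diag_apply, Matrix.mul_apply]
  refine Finset.sum_congr rfl fun x _ => ?_
  rw [Matrix.conjTranspose_apply]
  exact (Complex.conj_mul' (M x j)).symm

theorem fro_left {n : ℕ} (S S' M : Matrix (Fin n) (Fin n) ℂ) (h : Sᴴ * S = S'ᴴ * S') :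
    fro (S * M) = fro (S' * M) := by
  have h1 : ((fro (S * M) : ℝ) : ℂ) = ((fro (S' * M) : ℝ) : ℂ) := by
    rw [fro_trace, fro_trace, Matrix.conjTranspose_mul, Matrix.conjTranspose_mul]
    have e1 : Mᴴ * Sᴴ * (S * M) = Mᴴ * (Sᴴ * S) * M := by simp only [Matrix.mul_assoc]
    have e2 : Mᴴ * S'ᴴ * (S' * M) = Mᴴ * (S'ᴴ * S') * M := by simp only [Matrix.mul_assoc]
    rw [e1, e2, h]
  exact_mod_cast h1

theorem fro_right {n : ℕ} (T T' M : Matrix (Fin n) (Fin n) ℂ) (h : T * Tᴴ = T' * T'ᴴ) :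
    fro (M * T) = fro (M * T') := by
  rw [← S6.fro_conjTranspose (M * T), ← S6.fro_conjTranspose (M * T'),
    Matrix.conjTranspose_mul, Matrix.conjTranspose_mul]
  refine fro_left _ _ _ ?_
  rw [Matrix.conjTranspose_conjTranspose, Matrix.conjTranspose_conjTranspose, h]

/-- The spectral theorem for `Sᴴ S`. -/
theorem spectral {n : ℕ} (S : Matrix (Fin n) (Fin n) ℂ) (hS : S.det ≠ 0) :
    ∃ (U : Matrix (Fin n) (Fin n) ℂ) (σ : Fin n → ℝ), Uᴴ * U = 1 ∧ (∀ i, 0 < σ i) ∧
      ∏ i, σ i = ‖S.det‖ ^ 2 ∧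
      Sᴴ * S = (Matrix.diagonal (fun i => ((Real.sqrt (σ i) : ℝ) : ℂ)) * Uᴴ)ᴴ *
        (Matrix.diagonal (fun i => ((Real.sqrt (σ i) : ℝ) : ℂ)) * Uᴴ) := by
  have hP : (Sᴴ * S).PosDef := by
    refine Matrix.PosDef.conjTranspose_mul_self S ?_
    intro x y hxy
    have hu : IsUnit S.det := isUnit_iff_ne_zero.2 hS
    have h1 : S⁻¹ *ᵥ (S *ᵥ x) = S⁻¹ *ᵥ (S *ᵥ y) := by
      have : S *ᵥ x = S *ᵥ y := hxy
      rw [this]
    rwa [Matrix.mulVec_mulVec, Matrix.mulVec_mulVec, Matrix.nonsing_inv_mul _ hu,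
      Matrix.one_mulVec, Matrix.one_mulVec] at h1
  have hH := hP.isHermitian
  refine ⟨(hH.eigenvectorUnitary : Matrix (Fin n) (Fin n) ℂ), hH.eigenvalues, ?_, ?_, ?_, ?_⟩
  · exact Unitary.coe_star_mul_self hH.eigenvectorUnitary
  · exact fun i => hP.eigenvalues_pos i
  · have h1 := hH.det_eq_prod_eigenvalues
    rw [Matrix.det_mul, Matrix.det_conjTranspose] at h1
    have h2 : ((‖S.det‖ ^ 2 : ℝ) : ℂ) = ((∏ i, hH.eigenvalues i : ℝ) : ℂ) := by
      push_cast
      rw [← Complex.conj_mul']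
      exact h1
    exact_mod_cast h2.symm
  · have h1 := hH.spectral_theorem
    rw [Matrix.conjTranspose_mul, Matrix.conjTranspose_conjTranspose,
      Matrix.diagonal_conjTranspose]
    have h2 : Matrix.diagonal (star fun i => ((Real.sqrt (hH.eigenvalues i) : ℝ) : ℂ)) *
        Matrix.diagonal (fun i => ((Real.sqrt (hH.eigenvalues i) : ℝ) : ℂ)) =
        Matrix.diagonal (fun i => (hH.eigenvalues i : ℂ)) := by
      rw [Matrix.diagonal_mul_diagonal]
      congr 1
      ext i
      simp only [Pi.star_apply]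
      rw [show star ((Real.sqrt (hH.eigenvalues i) : ℝ) : ℂ) =
        ((Real.sqrt (hH.eigenvalues i) : ℝ) : ℂ) from Complex.conj_ofReal _,
        ← Complex.ofReal_mul, Real.mul_self_sqrt (hP.eigenvalues_pos i).le]
    have h3 : ∀ A C D E : Matrix (Fin n) (Fin n) ℂ, A * C * (D * E) = A * (C * D) * E := by
      intro A C D E
      simp only [Matrix.mul_assoc]
    rw [h3, h2]
    exact h1

end N1

open N1 in
theorem stLower : StLower := by
  intro n m B hn hB
  obtain ⟨δ, hδ, hdel⟩ := exists_delta hn B hB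
  refine ⟨δ ^ n, by positivity, ?_⟩
  intro S T hS hT
  obtain ⟨U, σ, hU, hσ, hσd, hσS⟩ := spectral S hS
  have hT' : (Tᴴ).det ≠ 0 := by
    rw [Matrix.det_conjTranspose]
    simpa using hT
  obtain ⟨V, τ, hV, hτ, hτd, hτT⟩ := spectral Tᴴ hT'
  rw [Matrix.det_conjTranspose, norm_star] at hτd
  rw [Matrix.conjTranspose_conjTranspose] at hτT
  obtain ⟨π, hπ⟩ := hdel U V hU hV
  set DS := Matrix.diagonal (fun i => ((Real.sqrt (σ i) : ℝ) : ℂ)) with hDS
  set DT := Matrix.diagonal (fun i => ((Real.sqrt (τ i) : ℝ) : ℂ)) with hDT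
  have hfro : ∀ k, fro (S * B k * T) = ∑ i, ∑ j, σ i * τ j * ‖(Uᴴ * B k * V) i j‖ ^ 2 := by
    intro k
    have e1 : fro (S * B k * T) = fro (DS * Uᴴ * B k * T) := by
      rw [Matrix.mul_assoc, Matrix.mul_assoc (DS * Uᴴ)]
      exact fro_left _ _ _ hσS
    have e2 : fro (DS * Uᴴ * B k * T) = fro (DS * Uᴴ * B k * (DT * Vᴴ)ᴴ) := by
      refine fro_right _ _ _ ?_
      rw [Matrix.conjTranspose_conjTranspose]
      exact hτT
    have hDTs : DTᴴ = DT := by
      rw [hDT, Matrix.diagonal_conjTranspose]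
      congr 1
      ext i
      simp only [Pi.star_apply]
      exact Complex.conj_ofReal _
    have e3 : DS * Uᴴ * B k * (DT * Vᴴ)ᴴ = DS * (Uᴴ * B k * V) * DT := by
      rw [Matrix.conjTranspose_mul, Matrix.conjTranspose_conjTranspose, hDTs]
      simp only [Matrix.mul_assoc]
    rw [e1, e2, e3]
    unfold fro
    refine Finset.sum_congr rfl fun i _ => Finset.sum_congr rfl fun j _ => ?_
    rw [hDS, hDT, Matrix.mul_diagonal, Matrix.diagonal_mul, norm_mul, norm_mul, mul_pow, mul_pow,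
      Complex.norm_real, Complex.norm_real, Real.norm_eq_abs, Real.norm_eq_abs, sq_abs, sq_abs,
      Real.sq_sqrt (hσ i).le, Real.sq_sqrt (hτ j).le]
    ring
  have hsum : ∑ k, fro (S * B k * T) = ∑ i, ∑ j, σ i * τ j * w B (U, V) i j := by
    simp only [hfro]
    rw [Finset.sum_comm]
    refine Finset.sum_congr rfl fun i _ => ?_
    rw [Finset.sum_comm]
    refine Finset.sum_congr rfl fun j _ => ?_
    unfold w
    rw [Finset.mul_sum]
  have hge : ∀ i, δ * (σ i * τ (π i)) ≤ ∑ k, fro (S * B k * T) := by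
    intro i
    rw [hsum]
    have h1 : δ * (σ i * τ (π i)) ≤ σ i * τ (π i) * w B (U, V) i (π i) := by
      rw [mul_comm]
      exact mul_le_mul_of_nonneg_left (hπ i) (mul_pos (hσ i) (hτ _)).le
    have hnn : ∀ i j, 0 ≤ σ i * τ j * w B (U, V) i j := fun i j =>
      mul_nonneg (mul_pos (hσ i) (hτ j)).le (w_nonneg _ _ _ _)
    refine h1.trans ?_
    refine (Finset.single_le_sum (f := fun j => σ i * τ j * w B (U, V) i j)
      (fun j _ => hnn i j) (Finset.mem_univ (π i))).trans ?_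
    exact Finset.single_le_sum (f := fun i => ∑ j, σ i * τ j * w B (U, V) i j)
      (fun i _ => Finset.sum_nonneg fun j _ => hnn i j) (Finset.mem_univ i)
  have hprod : ∏ i, (δ * (σ i * τ (π i))) ≤ (∑ k, fro (S * B k * T)) ^ n := by
    calc ∏ i, (δ * (σ i * τ (π i))) ≤ ∏ _i : Fin n, ∑ k, fro (S * B k * T) := by
          refine Finset.prod_le_prod (fun i _ => ?_) fun i _ => hge i
          have := hσ i
          have := hτ (π i)
          positivity
      _ = _ := by simp
  refine le_trans (le_of_eq ?_) hprod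
  rw [Finset.prod_mul_distrib, Finset.prod_mul_distrib, Equiv.prod_comp π τ, hσd, hτd]
  simp

end Pool.Agent.Lib.MP_64d474_lc.Op
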