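import Mathlib
import Pool.Agent.Lib.MP_64d474_lc.Op.Stmts

/-!
Module statements, second part (paper proofs in team-store `MP_64d474_on_blueprint.md`): scaling of
families without shrunk subspaces, base change, the lower bound for dimension-free sets, the
nilpotency index of symmetric pencils.
-/

open Matrix Module

namespace Pool.Agent.Lib.MP_64d474_lc.Op

/-- no subspace is mapped by `B` to a space of smaller dimension -/
def Nonshrunk {F : Type*} [Field F] {n m : ℕ} (B : Fin m → Matrix (Fin n) (Fin n) F) : Prop :=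
  ∀ U : Submodule F (Fin n → F),
    finrank F U ≤ finrank F (⨆ k, U.map (B k).mulVecLin : Submodule F (Fin n → F))

/-- N1: lower bound for the scaling functional -/
def StLower : Prop :=
  ∀ (n m : ℕ) (B : Fin m → Matrix (Fin n) (Fin n) ℂ), 0 < n → Nonshrunk B →
    ∃ φ₀ : ℝ, 0 < φ₀ ∧ ∀ S T : Matrix (Fin n) (Fin n) ℂ, S.det ≠ 0 → T.det ≠ 0 →
      φ₀ * (‖S.det‖ ^ 2 * ‖T.det‖ ^ 2) ≤ (∑ k, fro (S * B k * T)) ^ n

/-- N2: operator scaling of families without shrunk subspaces -/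
def StScalingN : Prop :=
  ∀ (n m : ℕ) (B : Fin m → Matrix (Fin n) (Fin n) ℂ), 0 < n → Nonshrunk B →
    ∀ ε : ℝ, 0 < ε → ∃ S T : Matrix (Fin n) (Fin n) ℂ, 0 < ∑ k, fro (S * B k * T) ∧
      n * fro (lft fun k => S * B k * T) ≤ (1 + ε) * (∑ k, fro (S * B k * T)) ^ 2 ∧
      n * fro (rgt fun k => S * B k * T) ≤ (1 + ε) * (∑ k, fro (S * B k * T)) ^ 2

/-- N3a: direct sums of copies -/
def StCopies.{u} : Prop :=
  ∀ (K : Type u) [Field K] (n m e : ℕ) (B : Fin m → Matrix (Fin n) (Fin n) K), Nonshrunk B →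
    ∀ U : Submodule K (Fin e → Fin n → K),
      finrank K U ≤ finrank K (⨆ k, U.map (LinearMap.pi fun i : Fin e =>
        (B k).mulVecLin ∘ₗ LinearMap.proj i) : Submodule K (Fin e → Fin n → K))

/-- N3b: base change to finite extensions -/
def StFinite.{u, v} : Prop :=
  ∀ (K : Type u) (L : Type v) [Field K] [Field L] [Algebra K L] [FiniteDimensional K L] (n m : ℕ)
    (B : Fin m → Matrix (Fin n) (Fin n) K), Nonshrunk B →
      Nonshrunk fun k => (B k).map (algebraMap K L)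

/-- N3: base change -/
def StBase.{u, v} : Prop :=
  ∀ (K : Type u) (L : Type v) [Field K] [Field L] (φ : K →+* L) (n m : ℕ)
    (B : Fin m → Matrix (Fin n) (Fin n) K), Nonshrunk B → Nonshrunk fun k => (B k).map φ

/-- L1: a nonzero form of degree `d` that vanishes at few points -/
def StForm.{u} : Prop :=
  ∀ (F : Type u) [Field F] [Infinite F] (m d : ℕ) (H : Finset (Fin m → F)),
    H.card < (m + d - 1).choose d → ∃ c : Sym (Fin m) d → F,
      (∀ h ∈ H, ∑ s, c s * (Multiset.map h (s : Multiset (Fin m))).prod = 0) ∧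
      ∃ y : Fin m → F, ∑ s, c s * (Multiset.map y (s : Multiset (Fin m))).prod ≠ 0

/-- L2: linear matrix factorisation of forms -/
def StFactor.{u} : Prop :=
  ∀ (F : Type u) [Field F] (m d : ℕ) (ζ : F), 0 < d → IsPrimitiveRoot ζ d →
    ∀ c : Sym (Fin m) d → F, ∃ n : ℕ, 0 < n ∧ ∃ B : Fin m → Matrix (Fin n) (Fin n) F,
      ∀ x : Fin m → F, (∑ k, x k • B k) ^ d =
        (∑ s, c s * (Multiset.map x (s : Multiset (Fin m))).prod) • (1 : Matrix (Fin n) (Fin n) F)

/-- L3: symmetric pencils: the nilpotency index -/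
def StIndex.{u} : Prop :=
  ∀ (F : Type u) [Field F] (ι : Type) [Fintype ι] [DecidableEq ι] (A M : Matrix ι ι F) (ν : ℕ),
    Aᵀ = A → Mᵀ = M → M.det ≠ 0 →
    (∀ U : Submodule F (ι → F), (∀ u ∈ U, ∀ v ∈ U, u ⬝ᵥ (M *ᵥ v) = 0) → finrank F U ≤ ν) →
      ((M⁻¹ * A) ^ (2 * ν + 2)).rank = ((M⁻¹ * A) ^ (2 * ν + 1)).rank

end Pool.Agent.Lib.MP_64d474_lc.Op
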