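import Pool.Agent.Lib.MP_64d474_lc.Op.S6
import Pool.Agent.Lib.MP_64d474_lc.Op.StmtsN

/-!
# N2: operator scaling of families without shrunk subspaces
-/

open Matrix Module
open scoped ComplexOrder

namespace Pool.Agent.Lib.MP_64d474_lc.Op

namespace N2

theorem exists_common {n m : ℕ} (A : Fin m → Matrix (Fin n) (Fin n) ℂ) (h0 : (lft A).det = 0) :
    ∃ v : Fin n → ℂ, v ≠ 0 ∧ ∀ k, (A k)ᴴ *ᵥ v = 0 := by
  obtain ⟨v, hv, hv0⟩ := Matrix.exists_mulVec_eq_zero_iff.2 h0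
  refine ⟨v, hv, ?_⟩
  have h2 : ∑ k, star ((A k)ᴴ *ᵥ v) ⬝ᵥ ((A k)ᴴ *ᵥ v) = 0 := by
    have h3 : star v ⬝ᵥ (lft A *ᵥ v) = ∑ k, star ((A k)ᴴ *ᵥ v) ⬝ᵥ ((A k)ᴴ *ᵥ v) := by
      unfold lft
      rw [Matrix.sum_mulVec, dotProduct_sum]
      refine Finset.sum_congr rfl fun k _ => ?_
      rw [Matrix.star_mulVec, Matrix.conjTranspose_conjTranspose, ← Matrix.mulVec_mulVec,
        Matrix.dotProduct_mulVec]
    rw [← h3, hv0, dotProduct_zero]
  intro k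
  have h4 : ∀ k, (0 : ℂ) ≤ star ((A k)ᴴ *ᵥ v) ⬝ᵥ ((A k)ᴴ *ᵥ v) := fun k =>
    dotProduct_star_self_nonneg _
  have h5 := (Finset.sum_eq_zero_iff_of_nonneg fun k _ => h4 k).1 h2 k (Finset.mem_univ k)
  exact dotProduct_star_self_eq_zero.1 h5

theorem lft_det_ne {n m : ℕ} (B : Fin m → Matrix (Fin n) (Fin n) ℂ) (hB : Nonshrunk B)
    {S T : Matrix (Fin n) (Fin n) ℂ} (hS : S.det ≠ 0) (hT : T.det ≠ 0) :
    (lft fun k => S * B k * T).det ≠ 0 := by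
  intro h0
  obtain ⟨v, hv, hk⟩ := exists_common _ h0
  -- the row vector
  set w : Fin n → ℂ := star v ᵥ* S with hw
  have hw0 : w ≠ 0 := by
    intro h
    have h1 : star v ᵥ* S = 0 := h
    apply hv
    have h2 : star v = 0 := by
      by_contra hne
      exact hS (Matrix.exists_vecMul_eq_zero_iff.1 ⟨star v, hne, h1⟩)
    exact star_eq_zero.1 h2
  have hwB : ∀ k, w ᵥ* B k = 0 := by
    intro k
    have h1 := congrArg star (hk k)
    rw [Matrix.star_mulVec, Matrix.conjTranspose_conjTranspose, star_zero, ← Matrix.vecMul_vecMul,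
      ← Matrix.vecMul_vecMul] at h1
    by_contra hne
    exact hT (Matrix.exists_vecMul_eq_zero_iff.1 ⟨w ᵥ* B k, hne, h1⟩)
  -- the hyperplane
  set ℓ : (Fin n → ℂ) →ₗ[ℂ] ℂ :=
    { toFun := fun x => w ⬝ᵥ x
      map_add' := fun x y => dotProduct_add _ _ _
      map_smul' := fun a x => dotProduct_smul _ _ _ } with hℓ
  have hle : (⨆ k, (⊤ : Submodule ℂ (Fin n → ℂ)).map (B k).mulVecLin) ≤ LinearMap.ker ℓ := by
    apply iSup_le
    rintro k _ ⟨x, -, rfl⟩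
    rw [LinearMap.mem_ker]
    show w ⬝ᵥ (B k *ᵥ x) = 0
    rw [Matrix.dotProduct_mulVec, hwB, zero_dotProduct]
  have h2 := hB ⊤
  have h3 := Submodule.finrank_mono hle
  rw [finrank_top] at h2
  have h4 : LinearMap.ker ℓ = ⊤ := Submodule.eq_top_of_finrank_eq
    (le_antisymm (Submodule.finrank_le _) (h2.trans h3))
  apply hw0
  have h5 : star w ∈ LinearMap.ker ℓ := by rw [h4]; trivial
  rw [LinearMap.mem_ker] at h5
  have h6 : w ⬝ᵥ star w = 0 := h5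
  exact dotProduct_self_star_eq_zero.1 h6

theorem rgt_det_ne {n m : ℕ} (B : Fin m → Matrix (Fin n) (Fin n) ℂ) (hB : Nonshrunk B)
    {S T : Matrix (Fin n) (Fin n) ℂ} (hS : S.det ≠ 0) (hT : T.det ≠ 0) :
    (lft fun k => (S * B k * T)ᴴ).det ≠ 0 := by
  intro h0
  obtain ⟨v, hv, hk⟩ := exists_common _ h0
  simp only [Matrix.conjTranspose_conjTranspose] at hk
  have hw0 : T *ᵥ v ≠ 0 := by
    intro h
    exact hT (Matrix.exists_mulVec_eq_zero_iff.1 ⟨v, hv, h⟩)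
  have hwB : ∀ k, B k *ᵥ (T *ᵥ v) = 0 := by
    intro k
    have h1 := hk k
    rw [← Matrix.mulVec_mulVec, ← Matrix.mulVec_mulVec] at h1
    by_contra hne
    exact hS (Matrix.exists_mulVec_eq_zero_iff.1 ⟨_, hne, h1⟩)
  have h2 := hB (Submodule.span ℂ {T *ᵥ v})
  have h3 : (⨆ k, (Submodule.span ℂ {T *ᵥ v}).map (B k).mulVecLin) = ⊥ := by
    rw [iSup_eq_bot]
    intro k
    rw [Submodule.map_span, Set.image_singleton, Matrix.mulVecLin_apply, hwB,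
      Submodule.span_zero_singleton]
  rw [h3, finrank_bot, finrank_span_singleton hw0] at h2
  omega

end N2

open S6 N2 in
theorem stScalingN (h3 : StAmgm) (h4 : StNormal) (hL : StLower) : StScalingN := by
  intro n m B hn hB ε hε
  obtain ⟨φ₀, hφ₀, hlow'⟩ := hL n m B hn hB
  have hlow : ∀ S T : Matrix (Fin n) (Fin n) ℂ, S.det ≠ 0 → T.det ≠ 0 →
      φ₀ ≤ (∑ k, fro (S * B k * T)) ^ n / (‖S.det‖ ^ 2 * ‖T.det‖ ^ 2) := by
    intro S T hS hT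
    have hS0 : 0 < ‖S.det‖ := norm_pos_iff.2 hS
    have hT0 : 0 < ‖T.det‖ := norm_pos_iff.2 hT
    rw [le_div_iff₀ (by positivity)]
    exact hlow' S T hS hT
  set Φ : Set ℝ := {z | ∃ S T : Matrix (Fin n) (Fin n) ℂ, S.det ≠ 0 ∧ T.det ≠ 0 ∧
    z = (∑ k, fro (S * B k * T)) ^ n / (‖S.det‖ ^ 2 * ‖T.det‖ ^ 2)} with hΦ
  have hne : Φ.Nonempty := ⟨_, 1, 1, by simp, by simp, rfl⟩
  have hbd : BddBelow Φ := ⟨φ₀, by
    rintro z ⟨S, T, hS, hT, rfl⟩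
    exact hlow S T hS hT⟩
  have hg0 : 0 < sInf Φ := lt_of_lt_of_le hφ₀ (le_csInf hne (by
    rintro z ⟨S, T, hS, hT, rfl⟩
    exact hlow S T hS hT))
  set η : ℝ := ε / 2 with hη
  have hη0 : 0 < η := by positivity
  obtain ⟨z, ⟨S, T, hS, hT, rfl⟩, hz⟩ := exists_lt_of_csInf_lt hne
    (show sInf Φ < (1 + η) * sInf Φ by nlinarith)
  have hS0 : 0 < ‖S.det‖ := norm_pos_iff.2 hS
  have hT0 : 0 < ‖T.det‖ := norm_pos_iff.2 hT
  rw [div_lt_iff₀ (by positivity)] at hz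
  have hL' := N2.lft_det_ne B hB hS hT
  have hR := N2.rgt_det_ne B hB hS hT
  have hmin : ∀ S' T' : Matrix (Fin n) (Fin n) ℂ, S'.det ≠ 0 → T'.det ≠ 0 →
      (∑ k, fro (S * B k * T)) ^ n * (‖S'.det‖ ^ 2 * ‖T'.det‖ ^ 2) ≤
        (1 + η) * (∑ k, fro (S' * B k * T')) ^ n * (‖S.det‖ ^ 2 * ‖T.det‖ ^ 2) := by
    intro S' T' hS' hT'
    have hS0' : 0 < ‖S'.det‖ := norm_pos_iff.2 hS'
    have hT0' : 0 < ‖T'.det‖ := norm_pos_iff.2 hT'
    have h6 : sInf Φ ≤ (∑ k, fro (S' * B k * T')) ^ n / (‖S'.det‖ ^ 2 * ‖T'.det‖ ^ 2) :=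
      csInf_le hbd ⟨S', T', hS', hT', rfl⟩
    rw [le_div_iff₀ (by positivity)] at h6
    calc (∑ k, fro (S * B k * T)) ^ n * (‖S'.det‖ ^ 2 * ‖T'.det‖ ^ 2) ≤
        ((1 + η) * sInf Φ * (‖S.det‖ ^ 2 * ‖T.det‖ ^ 2)) * (‖S'.det‖ ^ 2 * ‖T'.det‖ ^ 2) :=
          mul_le_mul_of_nonneg_right hz.le (by positivity)
      _ = (1 + η) * (sInf Φ * (‖S'.det‖ ^ 2 * ‖T'.det‖ ^ 2)) * (‖S.det‖ ^ 2 * ‖T.det‖ ^ 2) := by
          ring
      _ ≤ (1 + η) * (∑ k, fro (S' * B k * T')) ^ n * (‖S.det‖ ^ 2 * ‖T.det‖ ^ 2) := by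
          gcongr
  obtain ⟨hs0, hleft⟩ := one_side h3 h4 hn (fun k => S * B k * T) hL' (η := η) (by
    intro H hH
    have hH0 : 0 < ‖H.det‖ := norm_pos_iff.2 hH
    have h6 := hmin (H * S) T (by rw [Matrix.det_mul]; exact mul_ne_zero hH hS) hT
    rw [Matrix.det_mul, norm_mul] at h6
    have h7 : ∀ k, H * S * B k * T = H * (S * B k * T) := fun k => by
      simp only [Matrix.mul_assoc]
    simp only [h7] at h6
    have h8 : 0 < ‖S.det‖ ^ 2 * ‖T.det‖ ^ 2 := by positivity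
    refine le_of_mul_le_mul_right ?_ h8
    calc _ = (∑ k, fro (S * B k * T)) ^ n * ((‖H.det‖ * ‖S.det‖) ^ 2 * ‖T.det‖ ^ 2) := by ring
      _ ≤ _ := h6)
  have hfc : ∀ k, fro ((S * B k * T)ᴴ) = fro (S * B k * T) := fun k => fro_conjTranspose _
  obtain ⟨-, hright⟩ := one_side h3 h4 hn (fun k => (S * B k * T)ᴴ) hR (η := η) (by
    intro H hH
    have hH0 : 0 < ‖H.det‖ := norm_pos_iff.2 hH
    have hTH : (T * Hᴴ).det ≠ 0 := by
      rw [Matrix.det_mul, Matrix.det_conjTranspose]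
      exact mul_ne_zero hT (by simpa using hH)
    have h6 := hmin S (T * Hᴴ) hS hTH
    rw [Matrix.det_mul, Matrix.det_conjTranspose, norm_mul, norm_star] at h6
    have h7 : ∀ k, fro (S * B k * (T * Hᴴ)) = fro (H * (S * B k * T)ᴴ) := fun k => by
      rw [← fro_conjTranspose (H * (S * B k * T)ᴴ)]
      rw [Matrix.conjTranspose_mul, Matrix.conjTranspose_conjTranspose]
      simp only [Matrix.mul_assoc]
    simp only [h7] at h6
    simp only [hfc]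
    have h8 : 0 < ‖S.det‖ ^ 2 * ‖T.det‖ ^ 2 := by positivity
    refine le_of_mul_le_mul_right ?_ h8
    calc _ = (∑ k, fro (S * B k * T)) ^ n * (‖S.det‖ ^ 2 * (‖T.det‖ * ‖H.det‖) ^ 2) := by ring
      _ ≤ _ := h6)
  simp only [hfc] at hright
  refine ⟨S, T, hs0, ?_, ?_⟩
  · have e : 1 + 2 * η = 1 + ε := by rw [hη]; ring
    rw [e] at hleft
    exact hleft
  · have e : 1 + 2 * η = 1 + ε := by rw [hη]; ring
    rw [e] at hright
    rw [rgt_eq]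
    exact hright

end Pool.Agent.Lib.MP_64d474_lc.Op
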