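import Mathlib
import Pool.Agent.Lib.MP_64d474_lc.Op.StmtsN

/-!
# N3: base change of nonshrunk families along arbitrary homomorphisms of fields

A shrunk subspace over `L` is given by matrices `A`, `P`, `D`, `X k` over `L` with `P * A = 1` and
`C k * A = D * X k`; the entries generate a `K`-algebra of finite type, and a residue field at a
maximal ideal is finite over `K` (Zariski's lemma).
-/

open Matrix Module

universe u v

namespace Pool.Agent.Lib.MP_64d474_lc.Op

namespace Base3

/-- matrices showing that a family shrinks a subspace of dimension `a` to one of dimension at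
most `w` -/
theorem le_of_factor {F : Type*} [Field F] {n m a w : ℕ} (C : Fin m → Matrix (Fin n) (Fin n) F)
    (hC : Nonshrunk C) (A : Matrix (Fin n) (Fin a) F) (P : Matrix (Fin a) (Fin n) F)
    (D : Matrix (Fin n) (Fin w) F) (X : Fin m → Matrix (Fin w) (Fin a) F)
    (hPA : P * A = 1) (hX : ∀ k, C k * A = D * X k) : a ≤ w := by
  have hinj : Function.Injective A.mulVecLin := by
    intro x y hxy
    have h := congrArg (fun z => P *ᵥ z) hxy
    simpa [Matrix.mulVecLin_apply, Matrix.mulVec_mulVec, hPA] using h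
  have h1 := hC (LinearMap.range A.mulVecLin)
  rw [LinearMap.finrank_range_of_inj hinj, Module.finrank_fin_fun] at h1
  refine h1.trans ?_
  have h2 : (⨆ k, (LinearMap.range A.mulVecLin).map (C k).mulVecLin : Submodule F (Fin n → F)) ≤
      LinearMap.range D.mulVecLin := by
    refine iSup_le fun k => ?_
    rintro _ ⟨_, ⟨y, rfl⟩, rfl⟩
    refine ⟨X k *ᵥ y, ?_⟩
    simp only [Matrix.mulVecLin_apply, Matrix.mulVec_mulVec]
    rw [hX k]
  refine (Submodule.finrank_mono h2).trans ?_
  refine (LinearMap.finrank_range_le _).trans ?_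
  rw [Module.finrank_fin_fun]

theorem exists_factor {F : Type*} [Field F] {n m : ℕ} (C : Fin m → Matrix (Fin n) (Fin n) F)
    (U : Submodule F (Fin n → F)) :
    ∃ (A : Matrix (Fin n) (Fin (finrank F U)) F) (P : Matrix (Fin (finrank F U)) (Fin n) F)
      (D : Matrix (Fin n)
        (Fin (finrank F (⨆ k, U.map (C k).mulVecLin : Submodule F (Fin n → F)))) F)
      (X : Fin m → Matrix
        (Fin (finrank F (⨆ k, U.map (C k).mulVecLin : Submodule F (Fin n → F))))
        (Fin (finrank F U)) F), P * A = 1 ∧ ∀ k, C k * A = D * X k := by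
  classical
  set W : Submodule F (Fin n → F) := ⨆ k, U.map (C k).mulVecLin with hW
  let bU := Module.finBasis F U
  let bW := Module.finBasis F W
  let A : Matrix (Fin n) (Fin (finrank F U)) F := Matrix.of fun i j => (bU j : Fin n → F) i
  let D : Matrix (Fin n) (Fin (finrank F W)) F := Matrix.of fun i j => (bW j : Fin n → F) i
  have hA : ∀ y, A *ᵥ y = ∑ j, y j • (bU j : Fin n → F) := by
    intro y
    ext i
    simp [A, Matrix.mulVec, dotProduct, Finset.sum_apply, mul_comm]
  have hD : ∀ y, D *ᵥ y = ∑ j, y j • (bW j : Fin n → F) := by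
    intro y
    ext i
    simp [D, Matrix.mulVec, dotProduct, Finset.sum_apply, mul_comm]
  have hker : LinearMap.ker A.mulVecLin = ⊥ := by
    rw [LinearMap.ker_eq_bot']
    intro y hy
    rw [Matrix.mulVecLin_apply, hA] at hy
    have h1 : ∑ j, y j • bU j = 0 := by
      apply Subtype.ext
      simpa using hy
    funext j
    exact Fintype.linearIndependent_iff.1 bU.linearIndependent y h1 j
  obtain ⟨g, hg⟩ := A.mulVecLin.exists_leftInverse_of_injective hker
  have hmem : ∀ k j, (C k) *ᵥ (bU j : Fin n → F) ∈ W := by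
    intro k j
    have h1 : U.map (C k).mulVecLin ≤ W := le_iSup (fun k => U.map (C k).mulVecLin) k
    exact h1 ⟨_, (bU j).2, rfl⟩
  refine ⟨A, LinearMap.toMatrix' g, D,
    fun k => Matrix.of fun i j => bW.repr ⟨(C k) *ᵥ (bU j : Fin n → F), hmem k j⟩ i, ?_, ?_⟩
  · have h1 : LinearMap.toMatrix' (g ∘ₗ A.mulVecLin) = 1 := by
      rw [hg, LinearMap.toMatrix'_id]
    rw [← h1, LinearMap.toMatrix'_comp, ← Matrix.toLin'_apply', LinearMap.toMatrix'_toLin']
  · intro k
    ext i j
    have h1 : (C k * A) i j = ((C k) *ᵥ (bU j : Fin n → F)) i := by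
      simp [Matrix.mul_apply, Matrix.mulVec, dotProduct, A]
    have h2 := congrArg (fun z : W => (z : Fin n → F) i)
      (bW.sum_repr ⟨(C k) *ᵥ (bU j : Fin n → F), hmem k j⟩)
    have h3 : (D * Matrix.of fun i j => bW.repr ⟨(C k) *ᵥ (bU j : Fin n → F), hmem k j⟩ i) i j =
        (∑ x, bW.repr ⟨(C k) *ᵥ (bU j : Fin n → F), hmem k j⟩ x • (bW x : Fin n → F)) i := by
      simp [Matrix.mul_apply, D, Finset.sum_apply, mul_comm]
    rw [h1, h3]
    refine h2.symm.trans ?_
    rw [AddSubmonoidClass.coe_finsetSum]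
    rfl

end Base3

open Base3 in
theorem stBase (hf : StFinite.{u, v}) : StBase.{u, v} := by
  intro K L _ _ φ n m B hB U
  classical
  let _ : Algebra K L := φ.toAlgebra
  obtain ⟨A, P, D, X, hPA, hX⟩ := exists_factor (fun k => (B k).map φ) U
  show finrank L U ≤ finrank L (⨆ k, U.map ((B k).map φ).mulVecLin : Submodule L (Fin n → L))
  generalize finrank L U = a at *
  generalize finrank L (⨆ k, U.map ((B k).map φ).mulVecLin : Submodule L (Fin n → L)) = w at *
  let E : Set L := ((Set.range fun p : Fin n × Fin a => A p.1 p.2) ∪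
    (Set.range fun p : Fin a × Fin n => P p.1 p.2)) ∪
    ((Set.range fun p : Fin n × Fin w => D p.1 p.2) ∪
    (Set.range fun p : Fin m × Fin w × Fin a => X p.1 p.2.1 p.2.2))
  have hEf : E.Finite := ((Set.finite_range _).union (Set.finite_range _)).union
    ((Set.finite_range _).union (Set.finite_range _))
  let R : Subalgebra K L := Algebra.adjoin K E
  have hRfg : Algebra.FiniteType K R := by
    rw [← Subalgebra.fg_iff_finiteType]
    obtain ⟨E', hE'⟩ := hEf.exists_finset_coe
    refine ⟨E', ?_⟩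
    rw [hE']
  have hAm : ∀ i j, A i j ∈ R := fun i j =>
    Algebra.subset_adjoin (Or.inl (Or.inl ⟨(i, j), rfl⟩))
  have hPm : ∀ i j, P i j ∈ R := fun i j =>
    Algebra.subset_adjoin (Or.inl (Or.inr ⟨(i, j), rfl⟩))
  have hDm : ∀ i j, D i j ∈ R := fun i j =>
    Algebra.subset_adjoin (Or.inr (Or.inl ⟨(i, j), rfl⟩))
  have hXm : ∀ k i j, X k i j ∈ R := fun k i j =>
    Algebra.subset_adjoin (Or.inr (Or.inr ⟨(k, i, j), rfl⟩))
  let A₀ : Matrix (Fin n) (Fin a) R := fun i j => ⟨A i j, hAm i j⟩
  let P₀ : Matrix (Fin a) (Fin n) R := fun i j => ⟨P i j, hPm i j⟩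
  let D₀ : Matrix (Fin n) (Fin w) R := fun i j => ⟨D i j, hDm i j⟩
  let X₀ : Fin m → Matrix (Fin w) (Fin a) R := fun k i j => ⟨X k i j, hXm k i j⟩
  have hinjR : Function.Injective (R.val : R →+* L) := Subtype.val_injective
  have hA0 : A₀.map (R.val : R →+* L) = A := rfl
  have hP0 : P₀.map (R.val : R →+* L) = P := rfl
  have hD0 : D₀.map (R.val : R →+* L) = D := rfl
  have hX0 : ∀ k, (X₀ k).map (R.val : R →+* L) = X k := fun k => rfl
  have hPA0 : P₀ * A₀ = 1 := by
    apply Matrix.map_injective hinjR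
    show (P₀ * A₀).map (R.val : R →+* L) = (1 : Matrix (Fin a) (Fin a) R).map (R.val : R →+* L)
    rw [Matrix.map_mul, hA0, hP0, hPA, Matrix.map_one _ (map_zero _) (map_one _)]
  have hXX0 : ∀ k, ((B k).map (algebraMap K R)) * A₀ = D₀ * X₀ k := by
    intro k
    apply Matrix.map_injective hinjR
    show ((B k).map (algebraMap K R) * A₀).map (R.val : R →+* L) =
      (D₀ * X₀ k).map (R.val : R →+* L)
    rw [Matrix.map_mul, Matrix.map_mul, hA0, hD0, hX0, ← hX k, Matrix.map_map]
    rfl
  obtain ⟨I, hI⟩ := Ideal.exists_maximal R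
  let _ : Field (R ⧸ I) := Ideal.Quotient.field I
  have _ : Algebra.FiniteType K (R ⧸ I) :=
    Algebra.FiniteType.of_surjective (Ideal.Quotient.mkₐ K I) (Ideal.Quotient.mkₐ_surjective K I)
  have _ : Module.Finite K (R ⧸ I) := finite_of_finite_type_of_isJacobsonRing K (R ⧸ I)
  have hk := hf K (R ⧸ I) n m B hB
  let q : R →+* R ⧸ I := Ideal.Quotient.mk I
  refine le_of_factor _ hk (A₀.map q) (P₀.map q) (D₀.map q) (fun k => (X₀ k).map q) ?_ ?_
  · rw [← Matrix.map_mul, hPA0, Matrix.map_one _ (map_zero _) (map_one _)]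
  · intro k
    rw [← Matrix.map_mul, ← hXX0 k, Matrix.map_mul, Matrix.map_map]
    rfl

end Pool.Agent.Lib.MP_64d474_lc.Op
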