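import Pool.Agent.Lib.MP_64d474_lc.Op.StmtsN

/-!
# Families without shrunk subspaces: direct sums of copies and finite extensions
-/

open Matrix Module

namespace Pool.Agent.Lib.MP_64d474_lc.Op

namespace N3a

universe u

variable {K : Type u} [Field K]

lemma finrank_split {X V V' : Type*} [AddCommGroup X] [Module K X] [AddCommGroup V] [Module K V]
    [AddCommGroup V'] [Module K V'] [FiniteDimensional K X] (i : V' →ₗ[K] X) (p : X →ₗ[K] V)
    (hi : Function.Injective i) (hp : LinearMap.ker p = LinearMap.range i) (U : Submodule K X) :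
    finrank K U = finrank K (U.map p) + finrank K (U.comap i) := by
  have h1 := LinearMap.finrank_range_add_finrank_ker (p.domRestrict U)
  rw [LinearMap.range_domRestrict] at h1
  rw [← h1]
  congr 1
  rw [LinearMap.ker_domRestrict]
  have h2 : (U.comap i).map i = U ⊓ LinearMap.ker p := by
    rw [Submodule.map_comap_eq, hp, inf_comm]
  have h3 : finrank K ((U.comap i).map i : Submodule K X) = finrank K (U.comap i) :=
    (Submodule.equivMapOfInjective i hi (U.comap i)).finrank_eq.symm
  rw [← h3, h2]
  have h4 : ((LinearMap.ker p).submoduleOf U).map U.subtype = U ⊓ LinearMap.ker p := by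
    rw [Submodule.submoduleOf, Submodule.map_comap_eq, Submodule.range_subtype]
  rw [← h4]
  exact (Submodule.equivMapOfInjective U.subtype U.injective_subtype _).finrank_eq

lemma nonshrunk_ext {X V V' : Type*} [AddCommGroup X] [Module K X] [AddCommGroup V] [Module K V]
    [AddCommGroup V'] [Module K V'] [FiniteDimensional K X] (i : V' →ₗ[K] X) (p : X →ₗ[K] V)
    (hi : Function.Injective i) (hp : LinearMap.ker p = LinearMap.range i) {m : ℕ}
    (F : Fin m → X →ₗ[K] X) (f : Fin m → V →ₗ[K] V) (g : Fin m → V' →ₗ[K] V')
    (hf : ∀ k, p ∘ₗ F k = f k ∘ₗ p) (hg : ∀ k, F k ∘ₗ i = i ∘ₗ g k)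
    (nf : ∀ U : Submodule K V, finrank K U ≤ finrank K (⨆ k, U.map (f k) : Submodule K V))
    (ng : ∀ U : Submodule K V', finrank K U ≤ finrank K (⨆ k, U.map (g k) : Submodule K V'))
    (U : Submodule K X) : finrank K U ≤ finrank K (⨆ k, U.map (F k) : Submodule K X) := by
  rw [finrank_split i p hi hp U, finrank_split i p hi hp (⨆ k, U.map (F k))]
  have hV' : FiniteDimensional K V' := FiniteDimensional.of_injective i hi
  refine Nat.add_le_add ?_ ?_
  · refine (nf _).trans (le_of_eq ?_)
    rw [Submodule.map_iSup]
    have h : (⨆ k, (U.map p).map (f k)) = ⨆ k, (U.map (F k)).map p := by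
      refine iSup_congr fun k => ?_
      rw [← Submodule.map_comp, ← Submodule.map_comp, hf]
    rw [h]
  · refine (ng _).trans (Submodule.finrank_mono (iSup_le fun k => ?_))
    rw [Submodule.map_le_iff_le_comap]
    intro x hx
    refine Submodule.mem_iSup_of_mem k ?_
    refine ⟨i x, hx, ?_⟩
    exact LinearMap.congr_fun (hg k) x

/-- Adding a zero coordinate in front. -/
def consL (e n : ℕ) : (Fin e → Fin n → K) →ₗ[K] (Fin (e + 1) → Fin n → K) where
  toFun x := Fin.cons 0 x
  map_add' x y := by
    funext j
    refine Fin.cases ?_ (fun j => ?_) j <;> simp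
  map_smul' c x := by
    funext j
    refine Fin.cases ?_ (fun j => ?_) j <;> simp

lemma consL_zero (e n : ℕ) (x : Fin e → Fin n → K) : consL e n x 0 = 0 := rfl

lemma consL_succ (e n : ℕ) (x : Fin e → Fin n → K) (j : Fin e) : consL e n x j.succ = x j := rfl

end N3a

open N3a in
theorem stCopies.{u} : StCopies.{u} := by
  intro K _ n m e B hB
  induction e with
  | zero =>
    intro U
    have h : finrank K U = 0 := by
      have := Submodule.finrank_le U
      rw [finrank_pi_fintype] at this
      simpa using this
    rw [h]
    exact Nat.zero_le _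
  | succ e ih =>
    refine nonshrunk_ext (V := Fin n → K) (V' := Fin e → Fin n → K)
      (consL e n) (LinearMap.proj 0) ?_ ?_ _
      (fun k => (B k).mulVecLin) (fun k => LinearMap.pi fun i : Fin e =>
        (B k).mulVecLin ∘ₗ LinearMap.proj i) ?_ ?_ hB ih
    · intro x y hxy
      funext j
      exact congrFun hxy j.succ
    · ext x
      rw [LinearMap.mem_ker, LinearMap.mem_range]
      constructor
      · intro hx
        refine ⟨fun j => x j.succ, ?_⟩
        funext j
        refine Fin.cases ?_ (fun j => ?_) j
        · exact hx.symm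
        · rfl
      · rintro ⟨y, rfl⟩
        rfl
    · intro k
      rfl
    · intro k
      refine LinearMap.ext fun x => ?_
      funext j
      refine Fin.cases ?_ (fun j => ?_) j
      · change (B k).mulVecLin 0 = 0
        rw [map_zero]
      · rfl

namespace N3b

variable {K L : Type*} [Field K] [Field L] [Algebra K L]

/-- Coordinates of vectors over an extension. -/
noncomputable def coord {e : ℕ} (b : Basis (Fin e) K L) (n : ℕ) :
    (Fin n → L) →ₗ[K] (Fin e → Fin n → K) where
  toFun v i j := b.repr (v j) i
  map_add' x y := by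
    funext i j
    simp
  map_smul' c x := by
    funext i j
    simp

lemma coord_injective {e : ℕ} (b : Basis (Fin e) K L) (n : ℕ) :
    Function.Injective (coord b n) := by
  intro x y h
  funext j
  apply b.repr.injective
  ext i
  exact congrFun (congrFun h i) j

end N3b

open N3b in
theorem stFinite.{u, v} : StFinite.{u, v} := by
  intro K L _ _ _ _ n m B hB U
  set e := finrank K L with he
  have he0 : 0 < e := finrank_pos
  let b : Basis (Fin e) K L := finBasis K L
  set W : Submodule L (Fin n → L) := ⨆ k, U.map ((B k).map (algebraMap K L)).mulVecLin with hW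
  have h1 := stCopies K n m e B hB ((U.restrictScalars K).map (coord b n))
  have h2 : (⨆ k, ((U.restrictScalars K).map (coord b n)).map (LinearMap.pi fun i : Fin e =>
      (B k).mulVecLin ∘ₗ LinearMap.proj i) : Submodule K (Fin e → Fin n → K)) ≤
      (W.restrictScalars K).map (coord b n) := by
    refine iSup_le fun k => ?_
    rw [Submodule.map_le_iff_le_comap, Submodule.map_le_iff_le_comap]
    intro x hx
    have hx' : x ∈ U := hx
    refine ⟨((B k).map (algebraMap K L)).mulVecLin x, ?_, ?_⟩
    · exact Submodule.mem_iSup_of_mem k ⟨x, hx', rfl⟩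
    · funext i j
      simp only [coord, LinearMap.coe_mk, AddHom.coe_mk, LinearMap.pi_apply, LinearMap.comp_apply,
        LinearMap.proj_apply, mulVecLin_apply, mulVec, dotProduct, map_apply, map_sum]
      rw [Finsupp.finsetSum_apply]
      refine Finset.sum_congr rfl fun l _ => ?_
      rw [← Algebra.smul_def, map_smul, Finsupp.smul_apply, smul_eq_mul]
  have h3 := h1.trans (Submodule.finrank_mono h2)
  rw [← (Submodule.equivMapOfInjective _ (coord_injective b n) (U.restrictScalars K)).finrank_eq,
    ← (Submodule.equivMapOfInjective _ (coord_injective b n) (W.restrictScalars K)).finrank_eq] at h3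
  have h4 : finrank K (U.restrictScalars K) = e * finrank L U :=
    (finrank_mul_finrank K L U).symm
  have h5 : finrank K (W.restrictScalars K) = e * finrank L W :=
    (finrank_mul_finrank K L W).symm
  rw [h4, h5] at h3
  exact Nat.le_of_mul_le_mul_left h3 he0

end Pool.Agent.Lib.MP_64d474_lc.Op
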