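import Mathlib
import Pool.Agent.Lib.MP_64d474_lc.Op.Main
import Pool.Agent.Lib.MP_64d474_lc.Op.N1
import Pool.Agent.Lib.MP_64d474_lc.Op.N2
import Pool.Agent.Lib.MP_64d474_lc.Op.N3
import Pool.Agent.Lib.MP_64d474_lc.Op.N3a
import Pool.Agent.Lib.MP_64d474_lc.YnCompress
import Pool.Agent.Lib.MP_64d474_lc.HnPhase

/-!
Sign vectors reach one third of the noncommutative rank, with a certificate: a subspace that is
mapped to a small space.
-/

open Matrix Module Cardinal

namespace Pool.Agent.Lib.MP_64d474_lc.Op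

theorem stBase'.{u, v} : StBase.{u, v} := stBase stFinite

theorem stScalingN' : StScalingN := stScalingN stAmgm stNormal stLower

/-- descent of nonshrunk families -/
theorem Nonshrunk.descend {K L : Type*} [Field K] [Field L] (φ : K →+* L) {n m : ℕ}
    (B : Fin m → Matrix (Fin n) (Fin n) K) (h : Nonshrunk fun k => (B k).map φ) :
    Nonshrunk B := by
  intro U
  obtain ⟨A, P, D, X, hPA, hX⟩ := Base3.exists_factor B U
  refine Base3.le_of_factor (fun k => (B k).map φ) h (A.map φ) (P.map φ) (D.map φ)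
    (fun k => (X k).map φ) ?_ fun k => ?_
  · rw [← Matrix.map_mul, hPA]
    exact Matrix.map_one φ (map_zero φ) (map_one φ)
  · rw [← Matrix.map_mul, ← Matrix.map_mul, hX k]

theorem third_rank_ns {n m : ℕ} (B : Fin m → Matrix (Fin n) (Fin n) ℂ) (hB : Nonshrunk B)
    {Ω : Type} [Fintype Ω] [Nonempty Ω]
    (a : Ω → Fin m → ℝ) (ha : Moments a) (R : ℕ)
    (hR : ∀ ω, (∑ k, (a ω k : ℂ) • B k).rank ≤ R) : n ≤ 3 * R := by
  rcases Nat.eq_zero_or_pos n with rfl | hn
  · exact Nat.zero_le _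
  refine le_of_forall_eps fun ε hε => ?_
  obtain ⟨S, T, hs, hl, hr⟩ := stScalingN' n m B hn hB ε hε
  set s := ∑ k, fro (S * B k * T) with hsdef
  have h2 := stMoment stRank m n Ω a ha (fun k => S * B k * T) R (fun ω => by
    rw [sum_smul_mul]
    exact (rank_mul_mul_le S T _).trans (hR ω))
  have hR0 : (0 : ℝ) ≤ R := Nat.cast_nonneg R
  have hn0 : (0 : ℝ) < n := by exact_mod_cast hn
  have h3 : (n : ℝ) * s ^ 2 ≤ ((3 * R : ℕ) : ℝ) * (1 + ε) * s ^ 2 := by
    calc (n : ℝ) * s ^ 2 ≤ n * (R * (fro (lft fun k => S * B k * T) +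
          2 * fro (rgt fun k => S * B k * T))) := mul_le_mul_of_nonneg_left h2 hn0.le
      _ = R * (n * fro (lft fun k => S * B k * T) + 2 * (n * fro (rgt fun k => S * B k * T))) := by
          ring
      _ ≤ R * ((1 + ε) * s ^ 2 + 2 * ((1 + ε) * s ^ 2)) := by
          refine mul_le_mul_of_nonneg_left ?_ hR0
          linarith
      _ = ((3 * R : ℕ) : ℝ) * (1 + ε) * s ^ 2 := by
          push_cast
          ring
  exact le_of_mul_le_mul_right h3 (by positivity)

/-- A sign vector reaches one third of the size of a nonshrunk family. -/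
theorem sign_third_ns.{u} {K : Type} [Field K] [CharP K 2] {l m : ℕ} {φ : K → Fin l → ZMod 2}
    {α : Fin m → K} (h : IsCode φ α) {F : Type u} [Field F] [CharZero F] {n : ℕ}
    (B : Fin m → Matrix (Fin n) (Fin n) F) (hB : Nonshrunk B) :
    ∃ ω, n ≤ 3 * (∑ k, (signVec φ α ω k : F) • B k).rank := by
  classical
  set E : Set F := Set.range fun p : Fin m × Fin n × Fin n => B p.1 p.2.1 p.2.2 with hE
  have hEf : E.Finite := Set.finite_range _
  let F₀ : Subfield F := Subfield.closure E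
  have hcard : #F₀ ≤ ℵ₀ := by
    refine (Subfield.cardinalMk_closure_le_max E).trans (max_le ?_ le_rfl)
    exact hEf.countable.le_aleph0
  obtain ⟨σ⟩ := Embed.exists_embed hcard
  have hBF : ∀ k i j, B k i j ∈ F₀ := fun k i j => Subfield.subset_closure ⟨(k, i, j), rfl⟩
  let B₀ : Fin m → Matrix (Fin n) (Fin n) F₀ := fun k i j => ⟨B k i j, hBF k i j⟩
  have hBm : ∀ k, (B₀ k).map F₀.subtype = B k := fun k => rfl
  have hB₀ : Nonshrunk B₀ := Nonshrunk.descend F₀.subtype B₀ hB
  have hBσ := stBase' F₀ ℂ σ n m B₀ hB₀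
  obtain ⟨ω, -, hω⟩ := Finset.exists_mem_eq_sup
    (Finset.univ : Finset ((Fin l → ZMod 2) × (Fin l → ZMod 2))) Finset.univ_nonempty
    (fun ω => (∑ k, (signVec φ α ω k : F) • B k).rank)
  refine ⟨ω, ?_⟩
  rw [← hω]
  refine third_rank_ns _ hBσ _ (stSign K l m φ α h.1 h.2.1 h.2.2) _ fun ω => ?_
  refine le_trans (le_of_eq ?_) (Finset.le_sup
    (f := fun ω => (∑ k, (signVec φ α ω k : F) • B k).rank) (Finset.mem_univ ω))
  have h1 := Embed.sum_map σ (signVec φ α ω) B₀
  have h2 := Embed.sum_map F₀.subtype (signVec φ α ω) B₀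
  have h3 : (∑ k, (signVec φ α ω k : F) • B k) = (∑ k, (signVec φ α ω k : F₀) • B₀ k).map
      F₀.subtype := h2
  rw [h3, Embed.rank_map_field, ← Embed.rank_map_field σ, ← h1]
  congr 1

theorem nonshrunk_of_not_shrunk {F : Type*} [Field F] {n m : ℕ}
    (B : Fin m → Matrix (Fin n) (Fin n) F) (h : ¬ Shrunk 0 B) : Nonshrunk B := by
  intro U
  by_contra hcon
  push Not at hcon
  refine h ⟨U, ?_⟩
  rw [imageSum, Matrix.mulVecLin_zero, Submodule.map_zero, bot_sup_eq]
  exact hcon

/-- Certified approximation of the noncommutative rank by sign vectors. -/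
theorem ncApprox_sign.{u} {K : Type} [Field K] [CharP K 2] {l m : ℕ} {φ : K → Fin l → ZMod 2}
    {α : Fin m → K} (h : IsCode φ α) (F : Type u) [Field F] [CharZero F] (E : Type)
    [Fintype E] [DecidableEq E] :
    NcApprox (F := F) E {x : Fin m → F | ∃ a ∈ signSet φ α, x = castZ F a} 3 := by
  intro C
  obtain ⟨U, r, S, T, hU, hr, hns⟩ := exists_compression (0 : Matrix E E F) C
  rw [Matrix.mul_zero, Matrix.zero_mul] at hns
  obtain ⟨ω, hω⟩ := sign_third_ns h (fun k => S * C k * T) (nonshrunk_of_not_shrunk _ hns)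
  refine ⟨castZ F (signVec φ α ω), ⟨_, Finset.mem_image_of_mem _ (Finset.mem_univ ω), rfl⟩, U, ?_⟩
  rw [hU]
  refine Nat.add_le_add_left (hω.trans (Nat.mul_le_mul_left _ ?_)) _
  have h1 : ∑ k, (signVec φ α ω k : F) • (S * C k * T) =
      S * (∑ k, castZ F (signVec φ α ω) k • C k) * T := by
    rw [Matrix.mul_sum, Matrix.sum_mul]
    refine Finset.sum_congr rfl fun k _ => ?_
    rw [Matrix.mul_smul, Matrix.smul_mul]
    rfl
  rw [h1]
  exact (Matrix.rank_mul_le_left _ _).trans (Matrix.rank_mul_le_right _ _)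

/-- the approximation of the rank for all modules -/
theorem rankApprox_sign.{u} {K : Type} [Field K] [CharP K 2] {l m : ℕ} {φ : K → Fin l → ZMod 2}
    {α : Fin m → K} (h : IsCode φ α) (F : Type u) [Field F] [CharZero F] (V : Type*)
    [AddCommGroup V] [Module F V] [FiniteDimensional F V] :
    RankApprox (F := F) V {x : Fin m → F | ∃ a ∈ signSet φ α, x = castZ F a} 3 :=
  (rankApprox_of_isApprox (signSet_approx h F (finrank F V))).of_le
    (by rw [Module.finrank_fin_fun])

end Pool.Agent.Lib.MP_64d474_lc.Op
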