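import Mathlib
import Pool.Agent.Lib.MP_64d474_lc.Op.Scheme
import Pool.Agent.Lib.MP_64d474_lc.Op.S9
import Pool.Agent.Lib.MP_64d474_lc.Op.Cover
import Pool.Agent.Lib.MP_64d474_lc.HnRankOne

/-!
Rounds for families of bounded nilpotency index: if `M` is invertible and, for the integer points
`h`, the kernels of the powers of `M⁻¹ A(h)` are constant from `e` on, then the points of an
approximating set reach a nonsingular matrix after few rounds.
-/

open Module MvPolynomial

namespace Pool.Agent.Lib.MP_64d474_lc.Op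

section

variable {F : Type*} [Field F] {m : ℕ}

theorem map_eq_sum {E : Type*} [AddCommGroup E] [Module F E] (C : (Fin m → F) →ₗ[F] E)
    (x : Fin m → F) : C x = ∑ k, x k • C (Pi.single k 1) := by
  have e0 : x = ∑ k, x k • (Pi.single k 1 : Fin m → F) := by
    funext j
    rw [Finset.sum_apply, Finset.sum_eq_single j]
    · rw [Pi.smul_apply, Pi.single_eq_same, smul_eq_mul, mul_one]
    · intro k _ hkj
      rw [Pi.smul_apply, Pi.single_eq_of_ne hkj.symm, smul_zero]
    · intro h
      exact absurd (Finset.mem_univ j) h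
  conv_lhs => rw [e0]
  rw [map_sum]
  exact Finset.sum_congr rfl fun k _ => map_smul _ _ _

/-- One point at which the ranks of finitely many linear families are all large. -/
theorem generic_rk [CharZero F] {Λ : Type*} [Fintype Λ] {W : Λ → Type*}
    [∀ b, AddCommGroup (W b)] [∀ b, Module F (W b)] [∀ b, FiniteDimensional F (W b)]
    (C : ∀ b, (Fin m → F) →ₗ[F] Module.End F (W b)) (y : Λ → Fin m → F) :
    ∃ y₀ : Fin m → F, ∀ b, rk (C b (y b)) ≤ rk (C b y₀) := by
  classical
  let bs := fun b => finBasis F (W b)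
  let D : ∀ b, (Fin m → F) → Matrix (Fin (finrank F (W b))) (Fin (finrank F (W b))) F :=
    fun b x => LinearMap.toMatrix (bs b) (bs b) (C b x)
  have hrk : ∀ b x, rk (C b x) = (D b x).rank := by
    intro b x
    rw [Matrix.rank_eq_finrank_range_toLin (D b x) (bs b) (bs b), Matrix.toLin_toMatrix]
    rfl
  have hD : ∀ b x, D b x = 0 + ∑ k, x k • D b (Pi.single k 1) := by
    intro b x
    rw [zero_add]
    show LinearMap.toMatrix (bs b) (bs b) (C b x) = _
    rw [map_eq_sum (C b) x, map_sum]
    simp only [map_smul]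
    rfl
  choose P Q hPQ using fun b => exists_minor_of_le_rank (D b (y b)) _ le_rfl
  let f : Λ → MvPolynomial (Fin m) F := fun b =>
    (symb 0 fun k => P b * D b (Pi.single k 1) * Q b).det
  have hev : ∀ b x, eval x (f b) = (P b * D b x * Q b).det := by
    intro b x
    rw [eval_symb_det, hD b x]
    congr 1
    rw [zero_add, zero_add, Matrix.mul_sum, Matrix.sum_mul]
    refine Finset.sum_congr rfl fun k _ => ?_
    rw [Matrix.mul_smul, Matrix.smul_mul]
  have hf : ∀ b, f b ≠ 0 := by
    intro b h
    have h1 := hev b (y b)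
    rw [h, map_zero] at h1
    exact hPQ b h1.symm
  have hprod : ∏ b, f b ≠ 0 := Finset.prod_ne_zero_iff.mpr fun b _ => hf b
  obtain ⟨y₀, hy₀⟩ : ∃ y₀, eval y₀ (∏ b, f b) ≠ 0 := by
    by_contra hcon
    push Not at hcon
    exact hprod (MvPolynomial.funext fun x => by rw [hcon x, map_zero])
  refine ⟨y₀, fun b => ?_⟩
  rw [map_prod, Finset.prod_ne_zero_iff] at hy₀
  have h1 := hy₀ b (Finset.mem_univ b)
  rw [hev] at h1
  rw [hrk, hrk]
  have h2 : (P b * D b y₀ * Q b).rank = (D b (y b)).rank := by
    rw [Matrix.rank_of_det_ne_zero h1, Fintype.card_fin]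
  rw [← h2]
  exact (Matrix.rank_mul_le_left _ _).trans (Matrix.rank_mul_le_right _ _)

end

section

variable {F V : Type*} [Field F] [AddCommGroup V] [Module F V]

theorem mul_mem_lastS (M N : Module.End F V) (i : ℕ) (v : V) (hv : (N ^ i) v = 0) :
    M v ∈ lastS (M * N) M i := by
  rw [mem_lastS]
  cases i with
  | zero =>
    refine ⟨0, ?_⟩
    rw [pow_zero, Module.End.one_apply] at hv
    rw [map_zero, hv, map_zero, Pi.single_zero]
  | succ i =>
    refine ⟨fun k => if (k : ℕ) = i + 1 then 0 else ((-N) ^ (i - k)) v, ?_⟩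
    funext k
    refine Fin.cases ?_ (fun k => ?_) k
    · rw [toep_zero]
      have h0 : (0 : Fin (i + 1 + 1)) ≠ Fin.last (i + 1) := by
        intro h
        have := congrArg Fin.val h
        simp at this
      rw [Pi.single_eq_of_ne h0, if_neg (by simp), Fin.val_zero, Nat.sub_zero]
      rw [Module.End.mul_apply, ← Module.End.mul_apply N, neg_pow, ← mul_assoc]
      have h1 : (N * (-1) ^ i * N ^ i : Module.End F V) = (-1) ^ i * N ^ (i + 1) := by
        rcases Nat.even_or_odd i with h | h
        · rw [h.neg_one_pow, mul_one, one_mul, pow_succ']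
        · rw [h.neg_one_pow, mul_neg, mul_one, neg_mul, neg_mul, one_mul, pow_succ']
      rw [h1, Module.End.mul_apply, hv, map_zero, map_zero]
    · rw [toep_succ]
      have hk : ((k.castSucc : Fin (i + 1 + 1)) : ℕ) ≠ i + 1 := by
        rw [Fin.val_castSucc]
        exact k.isLt.ne
      rw [if_neg hk, Fin.val_castSucc, Fin.val_succ]
      by_cases hki : (k : ℕ) + 1 = i + 1
      · have hk' : k = Fin.last i := by
          apply Fin.ext
          rw [Fin.val_last]
          omega
        rw [if_pos hki, map_zero, zero_add, hk', Fin.val_last, Nat.sub_self, pow_zero,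
          Module.End.one_apply]
        have h1 : (Fin.last i).succ = Fin.last (i + 1) := rfl
        rw [h1, Pi.single_eq_same]
      · rw [if_neg hki]
        have h1 : (k.succ : Fin (i + 1 + 1)) ≠ Fin.last (i + 1) := by
          intro h
          have := congrArg Fin.val h
          rw [Fin.val_succ, Fin.val_last] at this
          exact hki this
        rw [Pi.single_eq_of_ne h1]
        have h2 : i - (k : ℕ) = (i - (k + 1)) + 1 := by
          have := k.isLt
          omega
        rw [h2, pow_succ', Module.End.mul_apply, Module.End.mul_apply, LinearMap.neg_apply,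
          map_neg]
        exact add_neg_cancel _

theorem apply_mem_lastS (A M : Module.End F V) (i : ℕ) (x : V) : A x ∈ lastS A M i := by
  rw [mem_lastS]
  refine ⟨Pi.single (Fin.last i) x, ?_⟩
  funext k
  cases i with
  | zero =>
    have hk : k = Fin.last 0 := by
      apply Fin.ext
      have := k.isLt
      rw [Fin.val_last]
      omega
    rw [hk, Pi.single_eq_same]
    show A ((Pi.single (Fin.last 0) x : Fin 1 → V) 0) = A x
    have h0 : (0 : Fin 1) = Fin.last 0 := rfl
    rw [h0, Pi.single_eq_same]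
  | succ i =>
    refine Fin.cases ?_ (fun k => ?_) k
    · have h0 : (0 : Fin (i + 1 + 1)) ≠ Fin.last (i + 1) := by
        intro h
        have := congrArg Fin.val h
        simp at this
      rw [toep_zero, Pi.single_eq_of_ne h0, Pi.single_eq_of_ne h0, map_zero]
    · rw [toep_succ]
      have h1 : (k.castSucc : Fin (i + 1 + 1)) ≠ Fin.last (i + 1) := by
        intro h
        have := congrArg Fin.val h
        rw [Fin.val_castSucc, Fin.val_last] at this
        exact k.isLt.ne this
      rw [Pi.single_eq_of_ne h1, map_zero, add_zero]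
      by_cases hk : k.succ = Fin.last (i + 1)
      · rw [hk, Pi.single_eq_same, Pi.single_eq_same]
      · rw [Pi.single_eq_of_ne hk, Pi.single_eq_of_ne hk, map_zero]

/-- If the ranks of the powers of `N` are constant from `e` on and `M` is surjective, then the
vectors `M v` are all last coefficients. -/
theorem lastS_top [FiniteDimensional F V] (M N : Module.End F V) (hM : Function.Surjective M)
    (e : ℕ) (h : rk (N ^ e) ≤ rk (N ^ (e + 1))) : lastS (M * N) M e = ⊤ := by
  rw [eq_top_iff]
  rintro w -
  obtain ⟨x, rfl⟩ := hM w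
  have h1 : LinearMap.range (N ^ (e + 1)) = LinearMap.range (N ^ e) := by
    refine Submodule.eq_of_le_of_finrank_le ?_ h
    rintro _ ⟨v, rfl⟩
    refine ⟨N v, ?_⟩
    rw [pow_succ, Module.End.mul_apply]
  have h2 : (N ^ e) x ∈ LinearMap.range (N ^ (e + 1)) := by
    rw [h1]
    exact ⟨x, rfl⟩
  obtain ⟨y, hy⟩ := h2
  have h3 : (N ^ e) (x - N y) = 0 := by
    rw [map_sub, ← hy, pow_succ, Module.End.mul_apply, sub_self]
  have h4 : M x = M (x - N y) + (M * N) y := by
    rw [Module.End.mul_apply, ← map_add, sub_add_cancel]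
  rw [h4]
  exact Submodule.add_mem _ (mul_mem_lastS M N e _ h3) (apply_mem_lastS _ M e y)

end

section

variable {F : Type*} [Field F] [CharZero F] {m : ℕ}

/-- One round. -/
theorem round_index {κ e : ℕ} {S : Set (Fin m → F)} {Λ : Type*} [Fintype Λ]
    {W : Λ → Type*} [∀ b, AddCommGroup (W b)] [∀ b, Module F (W b)]
    [∀ b, FiniteDimensional F (W b)]
    (hX : RankApprox (F := F) ((b : Λ) → TSpace (W b) e) S κ)
    (A M : ∀ b, Module.End F (W b)) (B : ∀ b, (Fin m → F) →ₗ[F] Module.End F (W b))
    (y : Λ → Fin m → F) (hy : ∀ b, B b (y b) = M b - A b)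
    (hidx : ∀ b, lastS (A b) (M b) e = ⊤) (c : ℕ)
    (hc : ∀ a ∈ S, ∀ z : F, ∑ b, pot (A b + z • B b a) (M b) e ≤ ∑ b, pot (A b) (M b) e + c) :
    ∑ b, finrank F (W b) ≤ ∑ b, rk (A b) + κ * c := by
  classical
  choose G hG using fun (b : Λ) (i : Fin e) => exists_ginv (toep (A b) (M b) ((i : ℕ) + 1))
  set T : ∀ (b : Λ) (i : Fin e), Module.End F (Fin ((i : ℕ) + 1) → W b) :=
    fun b i => toep (A b) (M b) ((i : ℕ) + 1) with hT
  have hbG1 : ∀ b, GInv (bdg (T b)) (bdg (G b)) := fun b => GInv.bdgInv (hG b)
  have hbG : GInv (bdg fun b => bdg (T b)) (bdg fun b => bdg (G b)) := GInv.bdgInv hbG1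
  let Em : ∀ b, (Fin m → F) →ₗ[F] Module.End F (TSpace (W b) e) := fun b =>
    { toFun := fun x => bdg fun i : Fin e => mapV (B b x) ((i : ℕ) + 1)
      map_add' := fun a a' => by
        refine LinearMap.ext fun x => funext fun i => funext fun k => ?_
        rw [LinearMap.add_apply, Pi.add_apply, bdg_apply, bdg_apply, bdg_apply, Pi.add_apply,
          mapV_apply, mapV_apply, mapV_apply, map_add, LinearMap.add_apply]
      map_smul' := fun s a => by
        refine LinearMap.ext fun x => funext fun i => funext fun k => ?_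
        rw [RingHom.id_apply, LinearMap.smul_apply, Pi.smul_apply, bdg_apply, bdg_apply,
          Pi.smul_apply, mapV_apply, mapV_apply, map_smul, LinearMap.smul_apply] }
  have hEm : ∀ b x, Em b x = bdg fun i : Fin e => mapV (B b x) ((i : ℕ) + 1) := fun _ _ => rfl
  let Cb : ∀ b, (Fin m → F) →ₗ[F] Module.End F (TSpace (W b) e) := fun b =>
    LinearMap.mulLeftRight F (1 - bdg (T b) * bdg (G b), 1 - bdg (G b) * bdg (T b)) ∘ₗ Em b
  have hCb : ∀ b x, Cb b x = (1 - bdg (T b) * bdg (G b)) * Em b x *
      (1 - bdg (G b) * bdg (T b)) := fun _ _ => rfl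
  obtain ⟨y₀, hy₀⟩ := generic_rk Cb y
  let Cm : (Fin m → F) →ₗ[F] Module.End F ((b : Λ) → TSpace (W b) e) :=
    { toFun := fun x => bdg fun b => Cb b x
      map_add' := fun a a' => by
        refine LinearMap.ext fun x => funext fun b => ?_
        rw [LinearMap.add_apply, Pi.add_apply, bdg_apply, bdg_apply, bdg_apply, map_add,
          LinearMap.add_apply]
      map_smul' := fun s a => by
        refine LinearMap.ext fun x => funext fun b => ?_
        rw [RingHom.id_apply, LinearMap.smul_apply, Pi.smul_apply, bdg_apply, bdg_apply,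
          map_smul, LinearMap.smul_apply] }
  have hCm : ∀ x, Cm x = bdg fun b => Cb b x := fun _ => rfl
  obtain ⟨a, ha, h1⟩ := hX Cm y₀
  -- the gain at the point `a`
  have h2 : rk (Cm a) ≤ c := by
    have h3 := hbG.gain (bdg fun b => Em b a) c (by
      intro z
      have h4 := hc a ha z
      have h5 : (bdg fun b => bdg (T b)) + z • (bdg fun b => Em b a) =
          bdg fun b => bdg (W := fun i : Fin e => Fin ((i : ℕ) + 1) → W b)
            fun i => toep (A b + z • B b a) (M b) ((i : ℕ) + 1) := by
        refine LinearMap.ext fun x => funext fun b => funext fun i => ?_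
        rw [bdg_apply, bdg_apply, toep_add_smul]
        rfl
      rw [h5, rk_bdg, rk_bdg]
      exact h4) 0
    rw [pow_zero, mul_one, zero_add, one_mul] at h3
    have h6 : Cm a = (1 - (bdg fun b => bdg (T b)) * bdg fun b => bdg (G b)) *
        (bdg fun b => Em b a) * (1 - (bdg fun b => bdg (G b)) * bdg fun b => bdg (T b)) := by
      rw [hCm, bdg_mul, bdg_mul, bdg_one, bdg_sub, bdg_sub, bdg_mul, bdg_mul]
      congr 1
    rw [h6]
    exact h3
  -- the generic gain
  have h3 : ∀ b, rk (Cb b (y b)) = ∑ i : Fin e, rk ((1 - T b i * G b i) *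
      mapV (M b - A b) ((i : ℕ) + 1) * (1 - G b i * T b i)) := by
    intro b
    rw [hCb, hEm, hy, bdg_mul, bdg_mul, bdg_one, bdg_sub, bdg_sub, bdg_mul, bdg_mul, rk_bdg]
  have h4 : ∀ b, ∑ i ∈ Finset.range e, (tt (A b) (M b) (i + 2) + tt (A b) (M b) i) ≤
      2 * ∑ i ∈ Finset.range e, tt (A b) (M b) (i + 1) + rk (Cb b (y b)) := by
    intro b
    rw [h3, Finset.mul_sum, Finset.sum_range, Finset.sum_range, ← Finset.sum_add_distrib]
    exact Finset.sum_le_sum fun i _ => tt_gain (A b) (M b) i (G b i)
  -- telescoping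
  have h5 : ∀ (t : ℕ → ℕ) (l : ℕ), ∑ i ∈ Finset.range l, (t (i + 2) + t i) + t 1 + t l =
      2 * ∑ i ∈ Finset.range l, t (i + 1) + t (l + 1) + t 0 := by
    intro t l
    induction l with
    | zero => simp
    | succ l ih =>
      rw [Finset.sum_range_succ, Finset.sum_range_succ]
      have h6 : t (l + 1 + 1) = t (l + 2) := rfl
      rw [h6]
      omega
  have h6 : ∀ b, finrank F (W b) ≤ rk (A b) + rk (Cb b (y b)) := by
    intro b
    have h7 := h5 (tt (A b) (M b)) e
    have h8 := h4 b
    have h9 := tt_succ (A b) (M b) e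
    rw [hidx b, finrank_top] at h9
    rw [tt_one, tt_zero] at h7
    omega
  calc ∑ b, finrank F (W b) ≤ ∑ b, (rk (A b) + rk (Cb b (y b))) :=
        Finset.sum_le_sum fun b _ => h6 b
    _ ≤ ∑ b, (rk (A b) + rk (Cb b y₀)) :=
        Finset.sum_le_sum fun b _ => Nat.add_le_add_left (hy₀ b) _
    _ = ∑ b, rk (A b) + rk (Cm y₀) := by rw [Finset.sum_add_distrib, hCm, rk_bdg]
    _ ≤ ∑ b, rk (A b) + κ * c :=
        Nat.add_le_add_left (h1.trans (Nat.mul_le_mul_left _ h2)) _

end

end Pool.Agent.Lib.MP_64d474_lc.Op
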