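import Mathlib
import Pool.Agent.Lib.MP_64d474_lc.Op.Index

/-!
Rounds for families of bounded index: after `κ e² t` rounds all blocks are nonsingular.
-/

open Module

namespace Pool.Agent.Lib.MP_64d474_lc.Op

section

variable {F V : Type*} [Field F] [AddCommGroup V] [Module F V] [FiniteDimensional F V]

theorem mul_le_tt (A M : Module.End F V) (i : ℕ) : i * rk A ≤ tt A M i := by
  induction i with
  | zero => rw [zero_mul]; exact Nat.zero_le _
  | succ i ih =>
    have h1 : ∀ j, rk A ≤ finrank F (lastS A M j) := by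
      intro j
      induction j with
      | zero => rw [lastS_zero]; exact le_rfl
      | succ j ih => exact ih.trans (Submodule.finrank_mono (lastS_mono A M j))
    rw [tt_succ, Nat.add_mul, one_mul]
    exact Nat.add_le_add ih (h1 i)

theorem tt_le_mul (A M : Module.End F V) (i : ℕ) : tt A M i ≤ i * finrank F V := by
  induction i with
  | zero => rw [tt_zero, zero_mul]
  | succ i ih =>
    rw [tt_succ, Nat.add_mul, one_mul]
    exact Nat.add_le_add ih (Submodule.finrank_le _)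

/-- the largest value of the potential -/
def cap (e d : ℕ) : ℕ := ∑ i ∈ Finset.range e, (i + 1) * d

theorem pot_le_cap (A M : Module.End F V) (e : ℕ) : pot A M e ≤ cap e (finrank F V) := by
  rw [pot_eq, cap]
  exact Finset.sum_le_sum fun i _ => tt_le_mul A M (i + 1)

theorem cap_le_sq (e d : ℕ) : cap e d ≤ e ^ 2 * d := by
  rw [cap, pow_two, mul_assoc]
  refine (Finset.sum_le_card_nsmul _ _ (e * d) fun i hi => ?_).trans (le_of_eq ?_)
  · exact Nat.mul_le_mul_right _ (Finset.mem_range.mp hi)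
  · rw [Finset.card_range, smul_eq_mul]

theorem cap_sub_pot_le (A M : Module.End F V) (e : ℕ) :
    cap e (finrank F V) ≤ pot A M e + e ^ 2 * (finrank F V - rk A) := by
  have h1 : rk A ≤ finrank F V := Submodule.finrank_le _
  have h2 : ∑ i ∈ Finset.range e, (i + 1) * finrank F V =
      ∑ i ∈ Finset.range e, (i + 1) * rk A + cap e (finrank F V - rk A) := by
    rw [cap, ← Finset.sum_add_distrib]
    refine Finset.sum_congr rfl fun i _ => ?_
    rw [← Nat.mul_add]
    congr 1
    omega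
  rw [cap, h2]
  refine Nat.add_le_add ?_ (cap_le_sq _ _)
  rw [pot_eq]
  exact Finset.sum_le_sum fun i _ => mul_le_tt A M (i + 1)

theorem cap_le_start (A M : Module.End F V) (hM : finrank F V ≤ rk M) (e : ℕ) :
    cap e (finrank F V) ≤ pot A M e + e * finrank F V := by
  rw [pot_eq, cap]
  have h1 : ∑ i ∈ Finset.range e, (i + 1) * finrank F V =
      ∑ i ∈ Finset.range e, i * finrank F V + e * finrank F V := by
    have h4 : ∀ i ∈ Finset.range e, (i + 1) * finrank F V = i * finrank F V + finrank F V :=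
      fun i _ => by ring
    rw [Finset.sum_congr rfl h4, Finset.sum_add_distrib, Finset.sum_const, Finset.card_range,
      smul_eq_mul]
  rw [h1]
  refine Nat.add_le_add_right (Finset.sum_le_sum fun i _ => ?_) _
  exact (Nat.mul_le_mul_left _ hM).trans (mul_rk_le_tt A M i)

theorem rk_of_pot (A M : Module.End F V) {e : ℕ} (he : 1 ≤ e)
    (h : cap e (finrank F V) ≤ pot A M e) : finrank F V ≤ rk A := by
  obtain ⟨e, rfl⟩ : ∃ e', e = e' + 1 := ⟨e - 1, by omega⟩
  rw [pot_eq, cap, Finset.sum_range_succ', Finset.sum_range_succ' (n := e)] at h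
  have h1 : ∑ i ∈ Finset.range e, tt A M (i + 1 + 1) ≤
      ∑ i ∈ Finset.range e, (i + 1 + 1) * finrank F V :=
    Finset.sum_le_sum fun i _ => tt_le_mul A M (i + 1 + 1)
  rw [zero_add, tt_one, one_mul] at h
  omega

end

section

variable {F : Type*} [Field F] [CharZero F] {m : ℕ} {X : Finset (Fin m → ℤ)} {κ e : ℕ}
  {Λ : Type} [Fintype Λ] {W : Λ → Type*} [∀ b, AddCommGroup (W b)] [∀ b, Module F (W b)]
  [∀ b, FiniteDimensional F (W b)]

/-- The total potential. -/
noncomputable def tpot (A : ∀ b, Module.End F (W b)) (M : ∀ b, Module.End F (W b)) (e : ℕ) : ℕ :=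
  ∑ b, pot (A b) (M b) e

theorem tpot_pencil (A B M : ∀ b, Module.End F (W b)) (z₀ : F) :
    ∃ z : ℕ, tpot (fun b => A b + z₀ • B b) M e ≤ tpot (fun b => A b + (z : F) • B b) M e := by
  classical
  let T : Module.End F ((b : Λ) → TSpace (W b) e) := bdg fun b =>
    bdg (W := fun i : Fin e => Fin ((i : ℕ) + 1) → W b) fun i => toep (A b) (M b) ((i : ℕ) + 1)
  let E : Module.End F ((b : Λ) → TSpace (W b) e) := bdg fun b =>
    bdg (W := fun i : Fin e => Fin ((i : ℕ) + 1) → W b) fun i => mapV (B b) ((i : ℕ) + 1)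
  have h1 : ∀ z : F, rk (T + z • E) = tpot (fun b => A b + z • B b) M e := by
    intro z
    have h5 : T + z • E = bdg fun b =>
        bdg (W := fun i : Fin e => Fin ((i : ℕ) + 1) → W b)
          fun i => toep (A b + z • B b) (M b) ((i : ℕ) + 1) := by
      refine LinearMap.ext fun x => funext fun b => funext fun i => ?_
      rw [bdg_apply, bdg_apply, toep_add_smul]
      rfl
    rw [h5, rk_bdg]
    rfl
  set D := rk (T + z₀ • E) + 1 with hD
  obtain ⟨z, hz, h2⟩ := pencil_end stPencil T E z₀ D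
  refine ⟨z, ?_⟩
  rw [← h1, ← h1]
  by_contra hcon
  push Not at hcon
  have h3 : D * rk (T + z₀ • E) = D * (rk (T + z₀ • E) - 1) + D := by
    obtain ⟨p, hp⟩ : ∃ p, rk (T + z₀ • E) = p + 1 := ⟨rk (T + z₀ • E) - 1, by omega⟩
    rw [hp, Nat.add_sub_cancel]
    ring
  have h4 : (D + 1) * rk (T + (z : F) • E) ≤ (D + 1) * (rk (T + z₀ • E) - 1) :=
    Nat.mul_le_mul_left _ (by omega)
  have h5 : (D + 1) * (rk (T + z₀ • E) - 1) = D * (rk (T + z₀ • E) - 1) + (rk (T + z₀ • E) - 1) := by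
    ring
  omega

/-- One step. -/
theorem index_step (hκ : 1 ≤ κ) (hne : X.Nonempty)
    (hX : RankApprox (F := F) ((b : Λ) → TSpace (W b) e) {x | ∃ a ∈ X, x = castZ F a} κ)
    (A M : ∀ b, Module.End F (W b)) (B : ∀ b, (Fin m → F) →ₗ[F] Module.End F (W b))
    (y : Λ → Fin m → F) (hy : ∀ b, B b (y b) = M b - A b)
    (hidx : ∀ b, lastS (A b) (M b) e = ⊤) :
    ∃ a ∈ X, ∃ z : ℕ, κ * tpot A M e + ∑ b, finrank F (W b) ≤
      κ * tpot (fun b => A b + (z : F) • B b (castZ F a)) M e + ∑ b, rk (A b) := by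
  classical
  by_contra hcon
  push Not at hcon
  have h0 : ∀ a, tpot (fun b => A b + ((0 : ℕ) : F) • B b (castZ F a)) M e = tpot A M e := by
    intro a
    congr 1
    funext b
    rw [Nat.cast_zero, zero_smul, add_zero]
  obtain ⟨a₀, ha₀⟩ := hne
  have h1 := hcon a₀ ha₀ 0
  rw [h0] at h1
  set R := ∑ b, rk (A b) with hR
  set Dm := ∑ b, finrank F (W b) with hDm
  set P := tpot A M e with hP
  have h2 : R < Dm := by omega
  set c := (Dm - R - 1) / κ with hc
  have hc1 : κ * c ≤ Dm - R - 1 := Nat.mul_div_le _ _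
  have h3 := round_index hX A M B y hy hidx c (by
    rintro _ ⟨a, ha, rfl⟩ z₀
    obtain ⟨z, hz⟩ := tpot_pencil (e := e) A (fun b => B b (castZ F a)) M z₀
    refine hz.trans ?_
    have h4 := hcon a ha z
    show _ ≤ P + c
    set Q := tpot (fun b => A b + (z : F) • B b (castZ F a)) M e with hQ
    by_contra hcon2
    push Not at hcon2
    have h6 : κ * (P + c + 1) ≤ κ * Q := Nat.mul_le_mul_left _ hcon2
    have h8 : Dm - R - 1 < κ * (c + 1) := by
      rw [hc]
      exact Nat.lt_mul_div_succ _ hκ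
    have h9 : κ * (P + c + 1) = κ * P + κ * (c + 1) := by ring
    omega)
  omega

/-- The rounds. -/
theorem index_rounds (hκ : 1 ≤ κ) (hne : X.Nonempty)
    (hX : RankApprox (F := F) ((b : Λ) → TSpace (W b) e) {x | ∃ a ∈ X, x = castZ F a} κ)
    (A₀ M : ∀ b, Module.End F (W b)) (B : ∀ b, (Fin m → F) →ₗ[F] Module.End F (W b))
    (y : Λ → Fin m → F) (hM : ∀ b, A₀ b + B b (y b) = M b)
    (hsurj : ∀ b, Function.Surjective (M b)) (N : (Fin m → ℤ) → ∀ b, Module.End F (W b))
    (hN : ∀ h b, M b * N h b = A₀ b + B b (castZ F h))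
    (hidx : ∀ h b, rk (N h b ^ e) ≤ rk (N h b ^ (e + 1))) (t : ℕ)
    (ht : e * ∑ b, finrank F (W b) < 2 ^ t) :
    ∃ a : Fin (κ * e ^ 2 * t) → Fin m → ℤ, (∀ i, a i ∈ X) ∧ ∃ z : Fin (κ * e ^ 2 * t) → ℕ,
      ∀ b, finrank F (W b) ≤ rk (A₀ b + B b (castZ F (∑ i, (z i : ℤ) • a i))) := by
  classical
  have hlast : ∀ h b, lastS (A₀ b + B b (castZ F h)) (M b) e = ⊤ := by
    intro h b
    rw [← hN h b]
    exact lastS_top (M b) (N h b) (hsurj b) e (hidx h b)
  rcases Nat.eq_zero_or_pos e with rfl | he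
  · obtain ⟨a₀, ha₀⟩ := hne
    refine ⟨fun _ => a₀, fun _ => ha₀, fun _ => 0, fun b => ?_⟩
    have h1 := hlast (∑ i : Fin (κ * 0 ^ 2 * t), ((0 : ℕ) : ℤ) • a₀) b
    rw [lastS_zero] at h1
    rw [rk, h1, finrank_top]
  -- the defect of the potential
  set C := ∑ b, cap e (finrank F (W b)) with hC
  let P : (Fin m → ℤ) → ℕ := fun x => tpot (fun b => A₀ b + B b (castZ F x)) M e
  have hPC : ∀ x, P x ≤ C := fun x => Finset.sum_le_sum fun b _ => pot_le_cap _ _ _
  have hstep : ∀ x : Fin m → ℤ, ∃ a ∈ X, ∃ z : ℕ,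
      κ * e ^ 2 * (C - P (x + (z : ℤ) • a)) + (C - P x) ≤ κ * e ^ 2 * (C - P x) := by
    intro x
    obtain ⟨a, ha, z, h1⟩ := index_step hκ hne hX (fun b => A₀ b + B b (castZ F x)) M B
      (fun b => y b - castZ F x) (fun b => by
        rw [map_sub, ← hM b]
        abel) (hlast x)
    refine ⟨a, ha, z, ?_⟩
    have h2 : tpot (fun b => A₀ b + B b (castZ F x) + (z : F) • B b (castZ F a)) M e =
        P (x + (z : ℤ) • a) := by
      show _ = tpot (fun b => A₀ b + B b (castZ F (x + (z : ℤ) • a))) M e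
      congr 1
      funext b
      rw [castZ_add, castZ_smul, map_add, map_smul, add_assoc]
    rw [h2] at h1
    have h3 : C ≤ P x + e ^ 2 * ((∑ b, finrank F (W b)) -
        ∑ b, rk (A₀ b + B b (castZ F x))) := by
      have h4 : ∀ b ∈ Finset.univ, rk (A₀ b + B b (castZ F x)) ≤ finrank F (W b) :=
        fun b _ => Submodule.finrank_le _
      rw [← Finset.sum_tsub_distrib Finset.univ h4, Finset.mul_sum]
      show C ≤ tpot (fun b => A₀ b + B b (castZ F x)) M e + _
      rw [tpot, ← Finset.sum_add_distrib]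
      exact Finset.sum_le_sum fun b _ => cap_sub_pot_le _ _ _
    set Q := P (x + (z : ℤ) • a) with hQ
    set D := ∑ b, finrank F (W b) with hD
    set R := ∑ b, rk (A₀ b + B b (castZ F x)) with hR
    have h4 : e ^ 2 * (κ * P x + D) ≤ e ^ 2 * (κ * Q + R) := Nat.mul_le_mul_left _ h1
    have h5 : R ≤ D := Finset.sum_le_sum fun b _ => Submodule.finrank_le _
    have h6 : κ * e ^ 2 * (C - Q) + κ * e ^ 2 * Q = κ * e ^ 2 * C := by
      rw [← Nat.mul_add, Nat.sub_add_cancel (hPC _)]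
    have h7 : κ * e ^ 2 * (C - P x) + κ * e ^ 2 * P x = κ * e ^ 2 * C := by
      rw [← Nat.mul_add, Nat.sub_add_cancel (hPC _)]
    have h8 : e ^ 2 * (κ * P x + D) = κ * e ^ 2 * P x + e ^ 2 * R + e ^ 2 * (D - R) := by
      have h9 : D = R + (D - R) := by omega
      conv_lhs => rw [h9]
      ring
    have h9 : e ^ 2 * (κ * Q + R) = κ * e ^ 2 * Q + e ^ 2 * R := by ring
    have h10 : C - P x ≤ e ^ 2 * (D - R) := by omega
    omega
  have key : ∀ N : ℕ, ∃ a : Fin N → Fin m → ℤ, (∀ i, a i ∈ X) ∧ ∃ z : Fin N → ℕ,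
      (κ * e ^ 2) ^ N * (C - P (∑ i, (z i : ℤ) • a i)) ≤ (κ * e ^ 2 - 1) ^ N * (C - P 0) := by
    intro N
    induction N with
    | zero =>
      refine ⟨fun i => i.elim0, fun i => i.elim0, fun i => i.elim0, ?_⟩
      rw [pow_zero, pow_zero, one_mul, one_mul, Finset.univ_eq_empty, Finset.sum_empty]
    | succ N ih =>
      obtain ⟨a, ha, z, h1⟩ := ih
      obtain ⟨a', ha', z', h2⟩ := hstep (∑ i, (z i : ℤ) • a i)
      refine ⟨Fin.snoc a a', fun i => ?_, Fin.snoc z z', ?_⟩
      · refine Fin.lastCases ?_ (fun i => ?_) i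
        · rw [Fin.snoc_last]
          exact ha'
        · rw [Fin.snoc_castSucc]
          exact ha i
      · have h3 : (∑ i : Fin (N + 1), (((Fin.snoc z z' : Fin (N + 1) → ℕ) i : ℕ) : ℤ) •
            (Fin.snoc a a' : Fin (N + 1) → Fin m → ℤ) i) =
            ∑ i, (z i : ℤ) • a i + (z' : ℤ) • a' := by
          rw [Fin.sum_univ_castSucc]
          simp only [Fin.snoc_castSucc, Fin.snoc_last]
        rw [h3]
        set G := C - P (∑ i, (z i : ℤ) • a i) with hG
        set G' := C - P (∑ i, (z i : ℤ) • a i + (z' : ℤ) • a') with hG'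
        obtain ⟨x, hx⟩ : ∃ x, κ * e ^ 2 = x + 1 := ⟨κ * e ^ 2 - 1, by
          have := Nat.mul_pos hκ (Nat.pow_pos (n := 2) he)
          omega⟩
        rw [hx] at h1 h2 ⊢
        rw [Nat.add_sub_cancel] at h1 ⊢
        have h4 : (x + 1) * G' ≤ x * G := by
          have h5 : (x + 1) * G = x * G + G := by ring
          omega
        calc (x + 1) ^ (N + 1) * G' = (x + 1) ^ N * ((x + 1) * G') := by ring
          _ ≤ (x + 1) ^ N * (x * G) := Nat.mul_le_mul_left _ h4
          _ = x * ((x + 1) ^ N * G) := by ring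
          _ ≤ x * (x ^ N * (C - P 0)) := Nat.mul_le_mul_left _ h1
          _ = x ^ (N + 1) * (C - P 0) := by ring
  obtain ⟨a, ha, z, h1⟩ := key (κ * e ^ 2 * t)
  refine ⟨a, ha, z, fun b => ?_⟩
  have h2 : C - P 0 < 2 ^ t := by
    refine lt_of_le_of_lt ?_ ht
    have h3 : C ≤ P 0 + e * ∑ b, finrank F (W b) := by
      show C ≤ tpot (fun b => A₀ b + B b (castZ F 0)) M e + _
      rw [tpot, Finset.mul_sum, ← Finset.sum_add_distrib]
      refine Finset.sum_le_sum fun b _ => cap_le_start _ _ ?_ _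
      rw [rk, LinearMap.range_eq_top.mpr (hsurj b), finrank_top]
    omega
  have h3 := decay_zero (Nat.mul_pos hκ (Nat.pow_pos he)) h2 h1
  refine rk_of_pot _ (M b) he ?_
  by_contra hcon
  push Not at hcon
  have h4 : P (∑ i, (z i : ℤ) • a i) < C := by
    refine Finset.sum_lt_sum (fun b _ => pot_le_cap _ _ _) ⟨b, Finset.mem_univ b, hcon⟩
  omega

end

end Pool.Agent.Lib.MP_64d474_lc.Op
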