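import Mathlib
import Pool.Agent.Lib.MP_64d474_lc.Op.NcSign
import Pool.Agent.Lib.MP_64d474_lc.Op.CompR
import Pool.Agent.Lib.MP_64d474_lc.Op.Rounds

/-!
Block triangular systems whose diagonal blocks are of one of two types.
-/

open Matrix Module MvPolynomial

namespace Pool.Agent.Lib.MP_64d474_lc.Op

section

variable {F : Type*} [Field F] {r m : ℕ}

/-- the inclusion of the indices with label `b` -/
def incl (F : Type*) [Field F] (β : Fin r → ℕ) (b : ℕ) : Matrix (Fin r) {i // β i = b} F :=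
  Matrix.of fun i j => if i = j.1 then 1 else 0

theorem incl_mul (β : Fin r → ℕ) (b : ℕ) {τ : Type*} (Y : Matrix {i // β i = b} τ F) (i : Fin r)
    (j : τ) : (incl F β b * Y) i j = if h : β i = b then Y ⟨i, h⟩ j else 0 := by
  rw [Matrix.mul_apply]
  split_ifs with h
  · rw [Finset.sum_eq_single ⟨i, h⟩]
    · rw [incl, Matrix.of_apply, if_pos rfl, one_mul]
    · intro a _ ha
      rw [incl, Matrix.of_apply, if_neg (fun h' => ha (Subtype.ext h'.symm)), zero_mul]
    · intro h'
      exact absurd (Finset.mem_univ _) h'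
  · refine Finset.sum_eq_zero fun a _ => ?_
    rw [incl, Matrix.of_apply, if_neg, zero_mul]
    intro h'
    exact h (by rw [h']; exact a.2)

theorem mul_incl (β : Fin r → ℕ) (b : ℕ) {τ : Type*} (Y : Matrix τ {i // β i = b} F) (i : τ)
    (j : Fin r) : (Y * (incl F β b)ᵀ) i j = if h : β j = b then Y i ⟨j, h⟩ else 0 := by
  rw [← Matrix.transpose_transpose Y, ← Matrix.transpose_mul, Matrix.transpose_apply, incl_mul]
  rfl

theorem incl_block (β : Fin r → ℕ) (b : ℕ) (X : Matrix (Fin r) (Fin r) F) (i j : Fin r) :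
    (incl F β b * X.toSquareBlock β b * (incl F β b)ᵀ) i j =
      if β i = b ∧ β j = b then X i j else 0 := by
  rw [mul_incl]
  by_cases hj : β j = b
  · rw [dif_pos hj, incl_mul]
    by_cases hi : β i = b
    · rw [dif_pos hi, if_pos ⟨hi, hj⟩]
      rfl
    · rw [dif_neg hi, if_neg (fun h => hi h.1)]
  · rw [dif_neg hj, if_neg (fun h => hj h.2)]

theorem block_add_sum (A₀ : Matrix (Fin r) (Fin r) F) (A : Fin m → Matrix (Fin r) (Fin r) F)
    (β : Fin r → ℕ) (b : ℕ) (x : Fin m → F) :
    (A₀ + ∑ k, x k • A k).toSquareBlock β b =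
      A₀.toSquareBlock β b + ∑ k, x k • (A k).toSquareBlock β b := by
  refine Matrix.ext fun i j => ?_
  show (A₀ + ∑ k, x k • A k) i.1 j.1 = _
  rw [Matrix.add_apply, Matrix.add_apply, Matrix.sum_apply, Matrix.sum_apply]
  rfl

/-- rank one generators of the block, in terms of the block itself -/
def BlockR (c : ℕ) (A : Fin m → Matrix (Fin r) (Fin r) F) (β : Fin r → ℕ) (b : ℕ) : Prop :=
  ∃ V : Submodule F (Fin m → F), m ≤ finrank F V + c ∧ ∀ x ∈ V,
    (∑ k, x k • A k).toSquareBlock β b ∈ Submodule.span F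
      {M | M.rank ≤ 1 ∧ ∃ y ∈ V, (∑ k, y k • A k).toSquareBlock β b = M}

/-- bounded index of the block -/
def BlockI (e : ℕ) (A₀ : Matrix (Fin r) (Fin r) F) (A : Fin m → Matrix (Fin r) (Fin r) F)
    (β : Fin r → ℕ) (b : ℕ) : Prop :=
  ∃ y : Fin m → F, ((A₀ + ∑ k, y k • A k).toSquareBlock β b).det ≠ 0 ∧ ∀ h : Fin m → ℤ,
    (((((A₀ + ∑ k, y k • A k).toSquareBlock β b)⁻¹ *
      (A₀ + ∑ k, (h k : F) • A k).toSquareBlock β b)) ^ e).rank ≤
    (((((A₀ + ∑ k, y k • A k).toSquareBlock β b)⁻¹ *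
      (A₀ + ∑ k, (h k : F) • A k).toSquareBlock β b)) ^ (e + 1)).rank

theorem rankOneSpanned_of (A : Fin m → Matrix (Fin r) (Fin r) F) (β : Fin r → ℕ) (b : ℕ)
    (V : Submodule F (Fin m → F)) (h : ∀ x ∈ V,
    (∑ k, x k • A k).toSquareBlock β b ∈ Submodule.span F
      {M | M.rank ≤ 1 ∧ ∃ y ∈ V, (∑ k, y k • A k).toSquareBlock β b = M}) :
    RankOneSpanned (V.map (blockMap A β b)) := by
  let f : Matrix {i // β i = b} {i // β i = b} F →ₗ[F] Matrix (Fin r) (Fin r) F :=
    { toFun := fun M => incl F β b * M * (incl F β b)ᵀ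
      map_add' := fun M N => by rw [Matrix.mul_add, Matrix.add_mul]
      map_smul' := fun z M => by rw [Matrix.mul_smul, Matrix.smul_mul, RingHom.id_apply] }
  have hf : ∀ M, f M = incl F β b * M * (incl F β b)ᵀ := fun _ => rfl
  have hb : ∀ x, blockMap A β b x = f ((∑ k, x k • A k).toSquareBlock β b) := by
    intro x
    refine Matrix.ext fun i j => ?_
    rw [hf, incl_block]
    rfl
  intro M' hM'
  obtain ⟨x, hx, rfl⟩ := Submodule.mem_map.mp hM'
  have h2 := Submodule.mem_map_of_mem (f := f) (h x hx)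
  rw [Submodule.map_span] at h2
  rw [hb]
  refine Submodule.span_mono ?_ h2
  intro M'' hM''
  obtain ⟨M, ⟨hrk, y, hy, rfl⟩, rfl⟩ := hM''
  refine ⟨Submodule.mem_map.mpr ⟨y, hy, hb y⟩, ?_⟩
  rw [hf]
  exact ((Matrix.rank_mul_le_left _ _).trans (Matrix.rank_mul_le_right _ _)).trans hrk

end

theorem det_ne_zero_of_rank {F ι : Type*} [Field F] [Fintype ι] [DecidableEq ι]
    (A : Matrix ι ι F) (h : Fintype.card ι ≤ A.rank) : A.det ≠ 0 := by
  have h1 : Function.Surjective A.mulVecLin := by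
    rw [← LinearMap.range_eq_top]
    refine Submodule.eq_top_of_finrank_eq ?_
    rw [finrank_fintype_fun_eq_card]
    exact le_antisymm (Matrix.rank_le_card_height A) h
  have h2 : Function.Injective A.mulVecLin := LinearMap.injective_iff_surjective.mpr h1
  exact isUnit_iff_ne_zero.mp ((Matrix.isUnit_iff_isUnit_det _).mp
    (Matrix.mulVec_injective_iff_isUnit.mp h2))

/-- From points at which single blocks are nonsingular to one integer point. -/
theorem finish {F : Type*} [Field F] [CharZero F] {n m r N₁ N₂ N₃ : ℕ} {X : Finset (Fin m → ℤ)}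
    (hrn : r ≤ n) (A₀ : Matrix (Fin r) (Fin r) F) (A : Fin m → Matrix (Fin r) (Fin r) F)
    (β : Fin r → ℕ) (htri : ∀ y : Fin m → F, (A₀ + ∑ k, y k • A k).BlockTriangular β)
    (a : Fin N₁ → Fin m → ℤ) (ha : ∀ i, a i ∈ X) (w : Fin N₂ → Fin m → ℤ) (hw : ∀ i, w i ∈ X)
    (g : Fin N₃ → Fin m → ℤ) (hg : ∀ i, g i ∈ X)
    (hpt : ∀ b ∈ Finset.univ.image β, ∃ x ∈ Submodule.span F (Set.range fun i => castZ F (a i)) ⊔
      Submodule.span F (Set.range fun i => castZ F (w i)) ⊔
      Submodule.span F (Set.range fun i => castZ F (g i)),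
      ((A₀ + ∑ k, x k • A k).toSquareBlock β b).det ≠ 0) :
    ∃ h ∈ sums n X (N₁ + N₂ + N₃), (A₀ + ∑ k, (h k : F) • A k).det ≠ 0 := by
  classical
  let v : Fin (N₁ + N₂ + N₃) → Fin m → ℤ := Fin.append (Fin.append a w) g
  have hvX : ∀ i, v i ∈ X := by
    intro i
    refine Fin.addCases (motive := fun i => v i ∈ X) (fun j => ?_) (fun j => ?_) i
    · refine Fin.addCases (motive := fun j => v (Fin.castAdd N₃ j) ∈ X) (fun k => ?_)
        (fun k => ?_) j
      · show Fin.append (Fin.append a w) g _ ∈ X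
        rw [Fin.append_left, Fin.append_left]
        exact ha k
      · show Fin.append (Fin.append a w) g _ ∈ X
        rw [Fin.append_left, Fin.append_right]
        exact hw k
    · show Fin.append (Fin.append a w) g _ ∈ X
      rw [Fin.append_right]
      exact hg j
  set U : Submodule F (Fin m → F) := Submodule.span F (Set.range fun i => castZ F (v i)) with hU
  have hle : Submodule.span F (Set.range fun i => castZ F (a i)) ⊔
      Submodule.span F (Set.range fun i => castZ F (w i)) ⊔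
      Submodule.span F (Set.range fun i => castZ F (g i)) ≤ U := by
    refine sup_le (sup_le ?_ ?_) ?_
    · rw [Submodule.span_le]
      rintro _ ⟨i, rfl⟩
      refine Submodule.subset_span ⟨Fin.castAdd N₃ (Fin.castAdd N₂ i), ?_⟩
      show castZ F (Fin.append (Fin.append a w) g _) = castZ F (a i)
      rw [Fin.append_left, Fin.append_left]
    · rw [Submodule.span_le]
      rintro _ ⟨i, rfl⟩
      refine Submodule.subset_span ⟨Fin.castAdd N₃ (Fin.natAdd N₁ i), ?_⟩
      show castZ F (Fin.append (Fin.append a w) g _) = castZ F (w i)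
      rw [Fin.append_left, Fin.append_right]
    · rw [Submodule.span_le]
      rintro _ ⟨i, rfl⟩
      refine Submodule.subset_span ⟨Fin.natAdd (N₁ + N₂) i, ?_⟩
      show castZ F (Fin.append (Fin.append a w) g _) = castZ F (g i)
      rw [Fin.append_right]
  -- polynomials on `U`
  let B' : Fin (N₁ + N₂ + N₃) → Matrix (Fin r) (Fin r) F := fun i =>
    ∑ k, castZ F (v i) k • A k
  have hB' : ∀ s : Fin (N₁ + N₂ + N₃) → F,
      ∑ i, s i • B' i = ∑ k, (∑ i, s i • castZ F (v i)) k • A k := by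
    intro s
    show ∑ i, s i • ∑ k, castZ F (v i) k • A k = _
    simp only [Finset.sum_apply, Pi.smul_apply, smul_eq_mul, Finset.sum_smul, Finset.smul_sum,
      smul_smul]
    exact Finset.sum_comm
  let f : ℕ → MvPolynomial (Fin (N₁ + N₂ + N₃)) F := fun b =>
    (symb (A₀.toSquareBlock β b) fun i => (B' i).toSquareBlock β b).det
  have hev : ∀ b s, eval s (f b) = ((A₀ + ∑ i, s i • B' i).toSquareBlock β b).det := by
    intro b s
    rw [eval_symb_det, block_add_sum]
  have hfne : ∀ b ∈ Finset.univ.image β, f b ≠ 0 := by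
    intro b hb hfb
    obtain ⟨x, hx, hdet⟩ := hpt b hb
    obtain ⟨s, hs⟩ := (Submodule.mem_span_range_iff_exists_fun F).mp (hle hx)
    have h1 := hev b s
    rw [hfb, map_zero, hB', hs] at h1
    exact hdet h1.symm
  have hprod : ∏ b ∈ Finset.univ.image β, f b ≠ 0 := Finset.prod_ne_zero_iff.mpr hfne
  obtain ⟨s, hs⟩ : ∃ s, eval s (∏ b ∈ Finset.univ.image β, f b) ≠ 0 := by
    by_contra hcon
    push Not at hcon
    exact hprod (MvPolynomial.funext fun x => by rw [hcon x, map_zero])
  rw [map_prod] at hs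
  have hdet : (A₀ + ∑ i, s i • B' i).det ≠ 0 := by
    have h1 : (A₀ + ∑ i, s i • B' i).BlockTriangular β := by
      rw [hB']
      exact htri _
    rw [h1.det]
    refine fun h => hs ?_
    rw [← h]
    exact Finset.prod_congr rfl fun b _ => hev b s
  have hrank : r ≤ (A₀ + ∑ i, s i • B' i).rank := by
    rw [Matrix.rank_of_det_ne_zero hdet, Fintype.card_fin]
  obtain ⟨c', hc', hr'⟩ := exists_grid_point A₀ B' r n hrn _ hrank
  refine ⟨∑ i, (c' i : ℤ) • v i, mem_sums.mpr ⟨v, c', hvX, hc', rfl⟩, ?_⟩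
  have e1 : ∑ k, (((∑ i, (c' i : ℤ) • v i) k : ℤ) : F) • A k = ∑ i, (c' i : F) • B' i := by
    rw [hB']
    refine Finset.sum_congr rfl fun k _ => ?_
    congr 1
    simp [castZ, Finset.sum_apply]
  rw [e1]
  refine det_ne_zero_of_rank _ ?_
  rw [Fintype.card_fin]
  exact hr'

/-- The core of the hitting set theorem for composition factors. -/
theorem comp_core.{u} {K : Type} [Field K] [CharP K 2] {l m : ℕ} {φ : K → Fin l → ZMod 2}
    {α : Fin m → K} (hcode : IsCode φ α) {F : Type u} [Field F] [CharZero F] {n c e r : ℕ}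
    (hrn : r ≤ n)
    (A₀ : Matrix (Fin r) (Fin r) F) (A : Fin m → Matrix (Fin r) (Fin r) F) (β : Fin r → ℕ)
    (h0 : ∀ i j, A₀ i j ≠ 0 → β i ≤ β j) (hA : ∀ k i j, A k i j ≠ 0 → β i ≤ β j)
    (hlab : ∀ b, BlockR c A β b ∨ BlockI e A₀ A β b)
    (x₀ : Fin m → F) (hx₀ : (A₀ + ∑ k, x₀ k • A k).det ≠ 0) :
    ∃ h ∈ sums n (signSet φ α) (108 * (Nat.log 2 n + 1) ^ 2 +
      3 * c * (c + (Nat.log 2 n + 1)) + 3 * e ^ 2 * (e + (Nat.log 2 n + 1))),
      (A₀ + ∑ k, (h k : F) • A k).det ≠ 0 := by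
  classical
  set L := Nat.log 2 n + 1 with hL
  have hnL : n < 2 ^ L := Nat.lt_pow_succ_log_self (by norm_num) n
  have hbound : ∀ c : ℕ, c * n < 2 ^ (c + L) := by
    intro c
    rw [pow_add]
    calc c * n ≤ 2 ^ c * n := Nat.mul_le_mul_right _ Nat.lt_two_pow_self.le
      _ < 2 ^ c * 2 ^ L := Nat.mul_lt_mul_of_pos_left hnL (Nat.pow_pos (by norm_num))
  set X := signSet φ α with hX
  have hXne : X.Nonempty := signSet_nonempty φ α
  set S : Set (Fin m → F) := {x | ∃ a ∈ X, x = castZ F a} with hS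
  have hSne : S.Nonempty := by
    obtain ⟨a, ha⟩ := hXne
    exact ⟨_, a, ha, rfl⟩
  let R : ℕ → Prop := fun b => BlockR c A β b
  have htri : ∀ y : Fin m → F, (A₀ + ∑ k, y k • A k).BlockTriangular β := by
    intro y i j hij
    by_contra h
    refine absurd ?_ (not_le.mpr hij)
    by_cases h1 : A₀ i j = 0
    · rw [Matrix.add_apply, h1, zero_add, Matrix.sum_apply] at h
      obtain ⟨k, _, hk⟩ := Finset.exists_ne_zero_of_sum_ne_zero h
      rw [Matrix.smul_apply] at hk
      exact hA k i j (right_ne_zero_of_mul hk)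
    · exact h0 i j h1
  -- the blocks with rank one generators
  have hV : ∀ b, ∃ V : Submodule F (Fin m → F), R b → m ≤ finrank F V + c ∧
      RankOneSpanned (V.map (blockMap A β b)) := by
    intro b
    by_cases hb : R b
    · obtain ⟨V, hV1, hV2⟩ := hb
      exact ⟨V, fun _ => ⟨hV1, rankOneSpanned_of A β b V hV2⟩⟩
    · exact ⟨⊤, fun h => absurd h hb⟩
  choose V hV using hV
  have hrp := r_phase (c := c) (t := c + L) hrn S hSne
    (fun E _ _ => ncApprox_sign hcode F E) (fun E _ => rankApprox_sign hcode F (E → F))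
    A₀ A β h0 hA R V (fun b hb => (hV b hb).1) (fun b hb => (hV b hb).2) x₀ hx₀
    (by rw [mul_comm]; exact hbound c)
  rw [← hL] at hrp
  obtain ⟨w, hw, a, ha, hRb⟩ := hrp
  -- the blocks of bounded index
  let Λ : Type := {b : ↥(Finset.univ.image β) // ¬ R b.1}
  have hI : ∀ b : Λ, BlockI e A₀ A β b.1.1 := fun b => (hlab b.1.1).resolve_left b.2
  choose y hy1 hy2 using hI
  let W : Λ → Type _ := fun b => {i // β i = b.1.1} → F
  let C₀ : ∀ b : Λ, Module.End F (W b) := fun b => Matrix.toLin' (A₀.toSquareBlock β b.1.1)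
  let C : ∀ b : Λ, (Fin m → F) →ₗ[F] Module.End F (W b) := fun b =>
    (Matrix.toLin' : Matrix _ _ F ≃ₗ[F] _).toLinearMap ∘ₗ
      Fintype.linearCombination F (fun k => (A k).toSquareBlock β b.1.1)
  have hC : ∀ (b : Λ) (x : Fin m → F), C₀ b + C b x =
      Matrix.toLin' ((A₀ + ∑ k, x k • A k).toSquareBlock β b.1.1) := by
    intro b x
    rw [block_add_sum, map_add]
    rfl
  obtain ⟨g, hg, z, hz⟩ := index_rounds (W := W) (by norm_num : 1 ≤ 3) hXne
    (rankApprox_sign hcode F ((b : Λ) → TSpace (W b) e)) C₀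
    (fun b => Matrix.toLin' ((A₀ + ∑ k, y b k • A k).toSquareBlock β b.1.1)) C y
    (fun b => hC b (y b)) (fun b => by
      intro v
      refine ⟨((A₀ + ∑ k, y b k • A k).toSquareBlock β b.1.1)⁻¹ *ᵥ v, ?_⟩
      rw [Matrix.toLin'_apply, Matrix.mulVec_mulVec,
        Matrix.mul_nonsing_inv _ (isUnit_iff_ne_zero.mpr (hy1 b)), Matrix.one_mulVec])
    (fun h b => Matrix.toLin' (((A₀ + ∑ k, y b k • A k).toSquareBlock β b.1.1)⁻¹ *
      (A₀ + ∑ k, (h k : F) • A k).toSquareBlock β b.1.1))
    (fun h b => by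
      rw [hC, Module.End.mul_eq_comp, ← Matrix.toLin'_mul, ← Matrix.mul_assoc,
        Matrix.mul_nonsing_inv _ (isUnit_iff_ne_zero.mpr (hy1 b)), Matrix.one_mul]
      rfl)
    (fun h b => by
      rw [← Matrix.toLin'_pow, ← Matrix.toLin'_pow, rk_toLin', rk_toLin']
      exact hy2 b h) (e + L) (by
      refine lt_of_le_of_lt (Nat.mul_le_mul_left _ ?_) (hbound e)
      refine le_trans ?_ hrn
      have h1 : ∀ b : Λ, finrank F (W b) = (Finset.univ.filter fun i => β i = b.1.1).card := by
        intro b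
        rw [finrank_fintype_fun_eq_card, Fintype.card_subtype]
      rw [Finset.sum_congr rfl fun b _ => h1 b]
      have h2 : ∑ b : Λ, (Finset.univ.filter fun i => β i = b.1.1).card ≤
          ∑ b ∈ Finset.univ.image β, (Finset.univ.filter fun i => β i = b).card := by
        rw [← Finset.sum_coe_sort (Finset.univ.image β) fun b =>
          (Finset.univ.filter fun i => β i = b).card]
        rw [← Fintype.sum_subtype_add_sum_subtype (fun b : ↥(Finset.univ.image β) => ¬ R b.1)]
        exact Nat.le_add_right _ _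
      refine h2.trans (le_of_eq ?_)
      rw [← Finset.card_eq_sum_card_image, Finset.card_univ, Fintype.card_fin])
  -- all vectors together
  have hN : 6 * L * (18 * L) = 108 * L ^ 2 := by ring
  choose w' hw' hww using hw
  choose a' ha' haa using ha
  have hfin := finish hrn A₀ A β htri a' ha' w' hw' g hg (by
    intro b hb
    by_cases hR : R b
    · obtain ⟨x, hx, hdet⟩ := hRb b hb hR
      refine ⟨x, ?_, hdet⟩
      have h1 : Submodule.span F (Set.range w) ⊔ Submodule.span F (Set.range a) ≤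
          Submodule.span F (Set.range fun i => castZ F (a' i)) ⊔
          Submodule.span F (Set.range fun i => castZ F (w' i)) ⊔
          Submodule.span F (Set.range fun i => castZ F (g i)) := by
        rw [funext hww, funext haa]
        refine le_trans ?_ le_sup_left
        rw [sup_comm]
      exact h1 hx
    · have h1 := hz ⟨⟨b, hb⟩, hR⟩
      rw [hC, rk_toLin', finrank_fintype_fun_eq_card] at h1
      refine ⟨castZ F (∑ i, (z i : ℤ) • g i), ?_, det_ne_zero_of_rank _ h1⟩
      have h2 : castZ F (∑ i, (z i : ℤ) • g i) = ∑ i, (z i : F) • castZ F (g i) := by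
        funext k
        simp [castZ, Finset.sum_apply]
      rw [h2]
      exact Submodule.mem_sup_right (Submodule.sum_mem _ fun i _ =>
        Submodule.smul_mem _ _ (Submodule.subset_span ⟨i, rfl⟩)))
  rw [hN] at hfin
  exact hfin

end Pool.Agent.Lib.MP_64d474_lc.Op
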