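import Mathlib
import Pool.Agent.Lib.MP_64d474_lc.Op.StmtsN

/-!
# L3: symmetric pencils, the nilpotency index
-/

open Matrix Module

namespace Pool.Agent.Lib.MP_64d474_lc.Op

namespace L3

variable {F : Type*} [Field F] {ι : Type} [Fintype ι] [DecidableEq ι]

theorem adj_pow {A M : Matrix ι ι F} (hA : Aᵀ = A) (hM : Mᵀ = M) (hd : M.det ≠ 0) (a : ℕ) :
    ((M⁻¹ * A) ^ a)ᵀ * M = M * (M⁻¹ * A) ^ a := by
  have hu : IsUnit M.det := isUnit_iff_ne_zero.2 hd
  have h1 : (M⁻¹ * A)ᵀ * M = M * (M⁻¹ * A) := by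
    rw [transpose_mul, transpose_nonsing_inv, hA, hM, Matrix.mul_assoc, nonsing_inv_mul _ hu,
      Matrix.mul_one, ← Matrix.mul_assoc, mul_nonsing_inv _ hu, Matrix.one_mul]
  induction a with
  | zero => simp
  | succ a ih =>
    rw [pow_succ, transpose_mul, Matrix.mul_assoc, ih, ← Matrix.mul_assoc, h1, Matrix.mul_assoc,
      ← pow_succ', ← pow_succ]

theorem form_pow {A M : Matrix ι ι F} (hA : Aᵀ = A) (hM : Mᵀ = M) (hd : M.det ≠ 0) (v : ι → F)
    (a c : ℕ) : ((M⁻¹ * A) ^ a *ᵥ v) ⬝ᵥ (M *ᵥ ((M⁻¹ * A) ^ c *ᵥ v)) =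
      v ⬝ᵥ (M *ᵥ ((M⁻¹ * A) ^ (a + c) *ᵥ v)) := by
  set N := M⁻¹ * A with hN
  have h1 : (N ^ a *ᵥ v) = v ᵥ* (N ^ a)ᵀ := (vecMul_transpose _ _).symm
  rw [h1, ← dotProduct_mulVec, mulVec_mulVec, mulVec_mulVec, mulVec_mulVec, hN,
    adj_pow hA hM hd, Matrix.mul_assoc, ← pow_add]

theorem indep {N : Matrix ι ι F} {v : ι → F} {ν : ℕ} (h0 : N ^ (2 * ν + 2) *ᵥ v = 0)
    (h1 : N ^ (2 * ν + 1) *ᵥ v ≠ 0) :
    LinearIndependent F (fun j : Fin (ν + 1) => N ^ (ν + 1 + (j : ℕ)) *ᵥ v) := by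
  have hbig : ∀ e, 2 * ν + 2 ≤ e → N ^ e *ᵥ v = 0 := by
    intro e he
    obtain ⟨e', rfl⟩ := Nat.exists_eq_add_of_le he
    rw [add_comm, pow_add, ← mulVec_mulVec, h0, mulVec_zero]
  rw [Fintype.linearIndependent_iff]
  intro g hg
  have key : ∀ n : ℕ, ∀ j : Fin (ν + 1), (j : ℕ) = n → g j = 0 := by
    intro n
    induction n using Nat.strong_induction_on with
    | _ n ih =>
      intro j hj
      have h2 := congrArg (fun x => N ^ (ν - (j : ℕ)) *ᵥ x) hg
      simp only [mulVec_zero] at h2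
      rw [mulVec_sum, Finset.sum_eq_single j] at h2
      · rw [mulVec_smul, mulVec_mulVec, ← pow_add] at h2
        have e : ν - (j : ℕ) + (ν + 1 + (j : ℕ)) = 2 * ν + 1 := by omega
        rw [e] at h2
        exact (smul_eq_zero.1 h2).resolve_right h1
      · intro i _ hij
        rw [mulVec_smul, mulVec_mulVec, ← pow_add]
        rcases lt_or_gt_of_ne (fun h => hij (Fin.ext h) : (i : ℕ) ≠ (j : ℕ)) with h | h
        · rw [ih i (by omega) i rfl, zero_smul]
        · rw [hbig _ (by omega), smul_zero]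
      · intro h
        exact absurd (Finset.mem_univ _) h
  exact fun j => key j j rfl

end L3

open L3 in
theorem stIndex.{u} : StIndex.{u} := by
  intro F _ ι _ _ A M ν hA hM hd hiso
  set N := M⁻¹ * A with hN
  have hker : ∀ v : ι → F, N ^ (2 * ν + 2) *ᵥ v = 0 → N ^ (2 * ν + 1) *ᵥ v = 0 := by
    intro v h0
    by_contra h1
    have hind := indep h0 h1
    have hspan := finrank_span_eq_card hind
    rw [Fintype.card_fin] at hspan
    have hbig : ∀ e, 2 * ν + 2 ≤ e → N ^ e *ᵥ v = 0 := by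
      intro e he
      obtain ⟨e', rfl⟩ := Nat.exists_eq_add_of_le he
      rw [add_comm, pow_add, ← mulVec_mulVec, h0, mulVec_zero]
    have h2 := hiso (Submodule.span F (Set.range fun j : Fin (ν + 1) =>
      N ^ (ν + 1 + (j : ℕ)) *ᵥ v)) (by
        intro x hx y hy
        induction hx using Submodule.span_induction with
        | mem x hx =>
          obtain ⟨a, rfl⟩ := hx
          induction hy using Submodule.span_induction with
          | mem y hy =>
            obtain ⟨c, rfl⟩ := hy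
            show (N ^ (ν + 1 + (a : ℕ)) *ᵥ v) ⬝ᵥ (M *ᵥ (N ^ (ν + 1 + (c : ℕ)) *ᵥ v)) = 0
            rw [hN, form_pow hA hM hd, ← hN, hbig _ (by omega), mulVec_zero, dotProduct_zero]
          | zero => rw [mulVec_zero, dotProduct_zero]
          | add y y' _ _ h h' => rw [mulVec_add, dotProduct_add, h, h', add_zero]
          | smul r y _ h => rw [mulVec_smul, dotProduct_smul, h, smul_zero]
        | zero => rw [zero_dotProduct]
        | add x x' _ _ h h' => rw [add_dotProduct, h, h', add_zero]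
        | smul r x _ h => rw [smul_dotProduct, h, smul_zero])
    rw [hspan] at h2
    omega
  have hkeq : LinearMap.ker (N ^ (2 * ν + 2)).mulVecLin = LinearMap.ker (N ^ (2 * ν + 1)).mulVecLin := by
    ext v
    rw [LinearMap.mem_ker, LinearMap.mem_ker, mulVecLin_apply, mulVecLin_apply]
    constructor
    · exact hker v
    · intro h
      have e : 2 * ν + 2 = 1 + (2 * ν + 1) := by ring
      rw [e, pow_add, ← mulVec_mulVec, h, mulVec_zero]
  have h3 := LinearMap.finrank_range_add_finrank_ker (N ^ (2 * ν + 2)).mulVecLin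
  have h4 := LinearMap.finrank_range_add_finrank_ker (N ^ (2 * ν + 1)).mulVecLin
  rw [hkeq] at h3
  unfold Matrix.rank
  omega

end Pool.Agent.Lib.MP_64d474_lc.Op
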