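import Mathlib
import Pool.Agent.Lib.MP_64d474_lc.Op.Comp
import Pool.Agent.Lib.MP_64d474_lc.Op.L3

/-!
The types of diagonal blocks.
-/

open Matrix Module

namespace Pool.Agent.Lib.MP_64d474_lc.Op

section

variable {F : Type*} [Field F]

theorem rank_pow_stable {ι : Type*} [Fintype ι] [DecidableEq ι] (N : Matrix ι ι F) {i : ℕ}
    (h : (N ^ i).rank ≤ (N ^ (i + 1)).rank) {j : ℕ} (hij : i ≤ j) :
    (N ^ j).rank ≤ (N ^ (j + 1)).rank := by
  have hle : ∀ j, LinearMap.range (N ^ (j + 1)).mulVecLin ≤ LinearMap.range (N ^ j).mulVecLin := by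
    intro j
    rw [pow_succ, Matrix.mulVecLin_mul]
    exact LinearMap.range_comp_le_range _ _
  have hstep : ∀ j, LinearMap.range (N ^ (j + 1)).mulVecLin =
      (LinearMap.range (N ^ j).mulVecLin).map N.mulVecLin := by
    intro j
    rw [pow_succ', Matrix.mulVecLin_mul, LinearMap.range_comp]
  have h0 : LinearMap.range (N ^ (i + 1)).mulVecLin = LinearMap.range (N ^ i).mulVecLin :=
    Submodule.eq_of_le_of_finrank_le (hle i) h
  have h1 : ∀ k, LinearMap.range (N ^ (i + k + 1)).mulVecLin =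
      LinearMap.range (N ^ (i + k)).mulVecLin := by
    intro k
    induction k with
    | zero => exact h0
    | succ k ih =>
      have e1 : i + (k + 1) = i + k + 1 := by omega
      rw [e1, hstep (i + k + 1), ih, ← hstep, ih]
  obtain ⟨k, rfl⟩ := Nat.exists_eq_add_of_le hij
  rw [Matrix.rank, Matrix.rank, h1 k]

theorem rank_pow_card {ι : Type*} [Fintype ι] [DecidableEq ι] (N : Matrix ι ι F) {e : ℕ}
    (h : Fintype.card ι ≤ e) : (N ^ e).rank ≤ (N ^ (e + 1)).rank := by
  have hd : finrank F (ι → F) ≤ e := by rwa [finrank_fintype_fun_eq_card]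
  have h1 : ∀ j, (N ^ j).rank + finrank F (LinearMap.ker ((Matrix.toLin' N) ^ j)) =
      finrank F (ι → F) := by
    intro j
    rw [← Matrix.toLin'_pow]
    exact LinearMap.finrank_range_add_finrank_ker (Matrix.toLin' (N ^ j))
  have h2 := h1 e
  have h3 := h1 (e + 1)
  rw [Module.End.ker_pow_eq_ker_pow_finrank_of_le hd] at h2
  rw [Module.End.ker_pow_eq_ker_pow_finrank_of_le (hd.trans (Nat.le_succ e))] at h3
  omega

end

end Pool.Agent.Lib.MP_64d474_lc.Op
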