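import Mathlib
import Pool.Agent.Lib.MP_64d474_lc.Op.NcSign

/-!
Pairs of sign vectors reach one half of the noncommutative rank, with a certificate.
-/

open Matrix Module Cardinal

namespace Pool.Agent.Lib.MP_64d474_lc.Op

theorem half_rank_ns {n m : ℕ} (B : Fin m → Matrix (Fin n) (Fin n) ℂ) (hB : Nonshrunk B)
    {Ω : Type} [Fintype Ω] [Nonempty Ω]
    (a : Ω → Fin (m + m) → ℝ) (ha : Moments a) (R : ℕ)
    (hR : ∀ ω, (∑ k, (a ω (Fin.castAdd m k) : ℂ) • B k +
      Complex.I • ∑ k, (a ω (Fin.natAdd m k) : ℂ) • B k).rank ≤ R) : n ≤ 2 * R := by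
  rcases Nat.eq_zero_or_pos n with rfl | hn
  · exact Nat.zero_le _
  refine le_of_forall_eps fun ε hε => ?_
  obtain ⟨S, T, hs, hl, hr⟩ := stScalingN' n m B hn hB ε hε
  set s := ∑ k, fro (S * B k * T) with hsdef
  have h2 := moment_complex stRank a ha (fun k => S * B k * T) R (fun ω => by
    rw [sum_smul_mul, sum_smul_mul]
    refine le_trans (le_of_eq ?_) ((rank_mul_mul_le S T _).trans (hR ω))
    congr 1
    rw [Matrix.mul_add, Matrix.add_mul, Matrix.mul_smul, Matrix.smul_mul])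
  have hR0 : (0 : ℝ) ≤ R := Nat.cast_nonneg R
  have hn0 : (0 : ℝ) < n := by exact_mod_cast hn
  have h3 : (n : ℝ) * s ^ 2 ≤ ((2 * R : ℕ) : ℝ) * (1 + ε) * s ^ 2 := by
    calc (n : ℝ) * s ^ 2 ≤ n * (R * (fro (lft fun k => S * B k * T) +
          fro (rgt fun k => S * B k * T))) := mul_le_mul_of_nonneg_left h2 hn0.le
      _ = R * (n * fro (lft fun k => S * B k * T) + n * fro (rgt fun k => S * B k * T)) := by
          ring
      _ ≤ R * ((1 + ε) * s ^ 2 + (1 + ε) * s ^ 2) := by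
          refine mul_le_mul_of_nonneg_left ?_ hR0
          linarith
      _ = ((2 * R : ℕ) : ℝ) * (1 + ε) * s ^ 2 := by
          push_cast
          ring
  exact le_of_mul_le_mul_right h3 (by positivity)

/-- A nonshrunk family over a field of characteristic zero can be moved to the complex numbers. -/
theorem exists_complex.{u} {F : Type u} [Field F] [CharZero F] {n m : ℕ}
    (B : Fin m → Matrix (Fin n) (Fin n) F) (hB : Nonshrunk B) :
    ∃ B' : Fin m → Matrix (Fin n) (Fin n) ℂ, Nonshrunk B' ∧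
      ∀ a : Fin m → ℤ, (∑ k, (a k : ℂ) • B' k).rank = (∑ k, (a k : F) • B k).rank := by
  classical
  set E : Set F := Set.range fun p : Fin m × Fin n × Fin n => B p.1 p.2.1 p.2.2 with hE
  have hEf : E.Finite := Set.finite_range _
  let F₀ : Subfield F := Subfield.closure E
  have hcard : #F₀ ≤ ℵ₀ := by
    refine (Subfield.cardinalMk_closure_le_max E).trans (max_le ?_ le_rfl)
    exact hEf.countable.le_aleph0
  obtain ⟨σ⟩ := Embed.exists_embed hcard
  have hBF : ∀ k i j, B k i j ∈ F₀ := fun k i j => Subfield.subset_closure ⟨(k, i, j), rfl⟩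
  let B₀ : Fin m → Matrix (Fin n) (Fin n) F₀ := fun k i j => ⟨B k i j, hBF k i j⟩
  have hBm : ∀ k, (B₀ k).map F₀.subtype = B k := fun k => rfl
  have hB₀ : Nonshrunk B₀ := Nonshrunk.descend F₀.subtype B₀ hB
  refine ⟨_, stBase' F₀ ℂ σ n m B₀ hB₀, fun a => ?_⟩
  have h1 := Embed.sum_map σ a B₀
  have h2 := Embed.sum_map F₀.subtype a B₀
  have h3 : (∑ k, (a k : F) • B k) = (∑ k, (a k : F₀) • B₀ k).map F₀.subtype := h2
  rw [h3, Embed.rank_map_field, ← Embed.rank_map_field σ, ← h1]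

/-- Pairs of sign vectors reach one half of the size of a nonshrunk family. -/
theorem pair_half_ns.{u} {K : Type} [Field K] [CharP K 2] {l m : ℕ} {φ : K → Fin l → ZMod 2}
    {α : Fin (m + m) → K} (h : IsCode φ α) {F : Type u} [Field F] [CharZero F] {n : ℕ}
    (B : Fin m → Matrix (Fin n) (Fin n) F) (hB : Nonshrunk B) (L : ℕ) :
    ∃ a ∈ pairSet φ α L, L * n ≤ 2 * ((L + 1) * (∑ k, (a k : F) • B k).rank) := by
  classical
  obtain ⟨B', hB', hle⟩ := exists_complex B hB
  obtain ⟨ω, -, hω⟩ := Finset.exists_mem_eq_sup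
    (Finset.univ : Finset ((Fin l → ZMod 2) × (Fin l → ZMod 2))) Finset.univ_nonempty
    (fun ω => (∑ k, (signVec φ α ω (Fin.castAdd m k) : ℂ) • B' k +
      Complex.I • ∑ k, (signVec φ α ω (Fin.natAdd m k) : ℂ) • B' k).rank)
  have h2 : n ≤ 2 * (∑ k, (signVec φ α ω (Fin.castAdd m k) : ℂ) • B' k +
      Complex.I • ∑ k, (signVec φ α ω (Fin.natAdd m k) : ℂ) • B' k).rank := by
    rw [← hω]
    refine half_rank_ns B' hB' _ (stSign K l (m + m) φ α h.1 h.2.1 h.2.2) _ fun ω => ?_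
    refine le_trans (le_of_eq ?_) (Finset.le_sup (f := fun ω =>
      (∑ k, (signVec φ α ω (Fin.castAdd m k) : ℂ) • B' k +
      Complex.I • ∑ k, (signVec φ α ω (Fin.natAdd m k) : ℂ) • B' k).rank) (Finset.mem_univ ω))
    push_cast
    rfl
  obtain ⟨z, hz, h3⟩ := stPencil ℂ n n L (∑ k, (signVec φ α ω (Fin.castAdd m k) : ℂ) • B' k)
    (∑ k, (signVec φ α ω (Fin.natAdd m k) : ℂ) • B' k) Complex.I
  refine ⟨_, Finset.mem_image.mpr ⟨(signVec φ α ω, z), Finset.mem_product.mpr
    ⟨Finset.mem_image_of_mem _ (Finset.mem_univ ω),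
      Finset.mem_range.mpr (Nat.lt_succ_of_le hz)⟩, rfl⟩, ?_⟩
  have h4 := hle fun k => signVec φ α ω (Fin.castAdd m k) + z * signVec φ α ω (Fin.natAdd m k)
  have h5 : ∑ k, (signVec φ α ω (Fin.castAdd m k) : ℂ) • B' k +
      (z : ℂ) • ∑ k, (signVec φ α ω (Fin.natAdd m k) : ℂ) • B' k =
      ∑ k, ((signVec φ α ω (Fin.castAdd m k) + z * signVec φ α ω (Fin.natAdd m k) : ℤ) : ℂ) •
        B' k := by
    rw [Finset.smul_sum, ← Finset.sum_add_distrib]
    refine Finset.sum_congr rfl fun k _ => ?_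
    rw [smul_smul, ← add_smul]
    push_cast
    rfl
  rw [h5, h4] at h3
  calc L * n ≤ L * (2 * (∑ k, (signVec φ α ω (Fin.castAdd m k) : ℂ) • B' k +
        Complex.I • ∑ k, (signVec φ α ω (Fin.natAdd m k) : ℂ) • B' k).rank) :=
        Nat.mul_le_mul_left _ h2
    _ = 2 * (L * (∑ k, (signVec φ α ω (Fin.castAdd m k) : ℂ) • B' k +
        Complex.I • ∑ k, (signVec φ α ω (Fin.natAdd m k) : ℂ) • B' k).rank) := by ring
    _ ≤ _ := Nat.mul_le_mul_left _ h3

/-- the space spanned by the images of `U` -/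
def imageSpace {F : Type*} [Field F] {n m : ℕ} (B : Fin m → Matrix (Fin n) (Fin n) F)
    (U : Submodule F (Fin n → F)) : Submodule F (Fin n → F) :=
  ⨆ k, U.map (B k).mulVecLin

/-- the reduction to nonshrunk families -/
theorem exists_nonshrunk {F : Type*} [Field F] [CharZero F] {n m : ℕ}
    (B : Fin m → Matrix (Fin n) (Fin n) F) :
    ∃ (U : Submodule F (Fin n → F)) (r : ℕ) (S : Matrix (Fin r) (Fin n) F)
      (T : Matrix (Fin n) (Fin r) F), n + finrank F (imageSpace B U) = finrank F U + r ∧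
      Nonshrunk (fun k => S * B k * T) := by
  obtain ⟨U, r, S, T, hU, hr, hns⟩ := exists_compression (0 : Matrix (Fin n) (Fin n) F) B
  rw [Matrix.mul_zero, Matrix.zero_mul] at hns
  refine ⟨U, r, S, T, ?_, nonshrunk_of_not_shrunk _ hns⟩
  rw [Fintype.card_fin, imageSum, Matrix.mulVecLin_zero, Submodule.map_zero, bot_sup_eq] at hU
  exact hU

theorem rank_compress_le {F : Type*} [Field F] {n m r : ℕ}
    (B : Fin m → Matrix (Fin n) (Fin n) F) (S : Matrix (Fin r) (Fin n) F)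
    (T : Matrix (Fin n) (Fin r) F) (a : Fin m → F) :
    (∑ k, a k • (S * B k * T)).rank ≤ (∑ k, a k • B k).rank := by
  have h1 : ∑ k, a k • (S * B k * T) = S * (∑ k, a k • B k) * T := by
    rw [Matrix.mul_sum, Matrix.sum_mul]
    refine Finset.sum_congr rfl fun k _ => ?_
    rw [Matrix.mul_smul, Matrix.smul_mul]
  rw [h1]
  exact (Matrix.rank_mul_le_left _ _).trans (Matrix.rank_mul_le_right _ _)

/-- certified version for sign vectors -/
theorem signSet_certified.{u} {K : Type} [Field K] [CharP K 2] {l m : ℕ}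
    {φ : K → Fin l → ZMod 2} {α : Fin m → K} (h : IsCode φ α) {F : Type u} [Field F] [CharZero F]
    {n : ℕ} (B : Fin m → Matrix (Fin n) (Fin n) F) :
    ∃ a ∈ signSet φ α, ∃ U : Submodule F (Fin n → F),
      n + finrank F (imageSpace B U) ≤ finrank F U + 3 * (∑ k, (a k : F) • B k).rank := by
  obtain ⟨U, r, S, T, hU, hns⟩ := exists_nonshrunk B
  obtain ⟨ω, hω⟩ := sign_third_ns h _ hns
  refine ⟨_, Finset.mem_image_of_mem _ (Finset.mem_univ ω), U, ?_⟩
  rw [hU]
  exact Nat.add_le_add_left (hω.trans (Nat.mul_le_mul_left _ (rank_compress_le B S T _))) _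

/-- certified version for pairs -/
theorem pairSet_certified.{u} {K : Type} [Field K] [CharP K 2] {l m : ℕ}
    {φ : K → Fin l → ZMod 2} {α : Fin (m + m) → K} (h : IsCode φ α) (L : ℕ) {F : Type u}
    [Field F] [CharZero F] {n : ℕ} (B : Fin m → Matrix (Fin n) (Fin n) F) :
    ∃ a ∈ pairSet φ α L, ∃ U : Submodule F (Fin n → F),
      L * (n + finrank F (imageSpace B U)) ≤
        L * finrank F U + 2 * ((L + 1) * (∑ k, (a k : F) • B k).rank) := by
  obtain ⟨U, r, S, T, hU, hns⟩ := exists_nonshrunk B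
  obtain ⟨a, ha, h1⟩ := pair_half_ns h _ hns L
  refine ⟨a, ha, U, ?_⟩
  rw [hU, Nat.mul_add]
  exact Nat.add_le_add_left (h1.trans (Nat.mul_le_mul_left _ (Nat.mul_le_mul_left _
    (rank_compress_le B S T _)))) _

end Pool.Agent.Lib.MP_64d474_lc.Op
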