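import Mathlib
import Pool.Agent.Lib.MP_64d474_lc.Op.NcPair
import Pool.Agent.Lib.MP_64d474_lc.HnEntropy

/-!
The noncommutative rank.
-/

open Matrix Module

namespace Pool.Agent.Lib.MP_64d474_lc.Op

section

variable {F : Type*} [Field F] {n m : ℕ}

/-- the noncommutative rank of `B₁, …, B_m`: the minimum of `n + dim (∑ B_k U) - dim U` over all
subspaces `U` of `F ^ n` -/
noncomputable def ncRank (B : Fin m → Matrix (Fin n) (Fin n) F) : ℕ :=
  ⨅ U : Submodule F (Fin n → F),
    n + finrank F (⨆ k, U.map (B k).mulVecLin : Submodule F (Fin n → F)) - finrank F U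

theorem ncRank_le (B : Fin m → Matrix (Fin n) (Fin n) F) (U : Submodule F (Fin n → F)) :
    ncRank B ≤ n + finrank F (⨆ k, U.map (B k).mulVecLin : Submodule F (Fin n → F)) -
      finrank F U :=
  Nat.sInf_le ⟨U, rfl⟩

theorem rank_le_ncRank (B : Fin m → Matrix (Fin n) (Fin n) F) (y : Fin m → F) :
    (∑ k, y k • B k).rank ≤ ncRank B := by
  obtain ⟨U, hU⟩ := Nat.sInf_mem (Set.range_nonempty fun U : Submodule F (Fin n → F) =>
    n + finrank F (⨆ k, U.map (B k).mulVecLin : Submodule F (Fin n → F)) - finrank F U)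
  have h1 := rank_add_finrank_le (∑ k, y k • B k) U
    (⨆ k, U.map (B k).mulVecLin : Submodule F (Fin n → F)) (by
      rintro _ ⟨x, hx, rfl⟩
      rw [Matrix.mulVecLin_apply, Matrix.sum_mulVec]
      refine Submodule.sum_mem _ fun k _ => ?_
      rw [Matrix.smul_mulVec]
      exact Submodule.smul_mem _ _ (Submodule.mem_iSup_of_mem k ⟨x, hx, rfl⟩))
  rw [Fintype.card_fin] at h1
  have h2 : ncRank B = n + finrank F (⨆ k, U.map (B k).mulVecLin : Submodule F (Fin n → F)) -
      finrank F U := hU.symm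
  omega

end

/-- Sign vectors reach one third of the noncommutative rank. -/
theorem signSet_ncRank.{u} {K : Type} [Field K] [CharP K 2] {l m : ℕ}
    {φ : K → Fin l → ZMod 2} {α : Fin m → K} (h : IsCode φ α) {F : Type u} [Field F] [CharZero F]
    {n : ℕ} (B : Fin m → Matrix (Fin n) (Fin n) F) :
    ∃ a ∈ signSet φ α, ncRank B ≤ 3 * (∑ k, (a k : F) • B k).rank := by
  obtain ⟨a, ha, U, hU⟩ := signSet_certified h B
  refine ⟨a, ha, (ncRank_le B U).trans ?_⟩
  rw [imageSpace] at hU
  omega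

/-- Pairs of sign vectors reach one half of the noncommutative rank. -/
theorem pairSet_ncRank.{u} {K : Type} [Field K] [CharP K 2] {l m : ℕ}
    {φ : K → Fin l → ZMod 2} {α : Fin (m + m) → K} (h : IsCode φ α) (L : ℕ) {F : Type u}
    [Field F] [CharZero F] {n : ℕ} (B : Fin m → Matrix (Fin n) (Fin n) F) :
    ∃ a ∈ pairSet φ α L, L * ncRank B ≤ 2 * ((L + 1) * (∑ k, (a k : F) • B k).rank) := by
  obtain ⟨a, ha, U, hU⟩ := pairSet_certified h L B
  refine ⟨a, ha, (Nat.mul_le_mul_left _ (ncRank_le B U)).trans ?_⟩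
  rw [imageSpace] at hU
  rw [Nat.mul_sub]
  omega

end Pool.Agent.Lib.MP_64d474_lc.Op
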