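import Mathlib
import Pool.Agent.Lib.MP_64d474_lc.Op.Main
import Pool.Agent.Lib.MP_64d474_lc.Op.NcRank

/-!
Dimension-free explicit points for the rank of symbolic matrices: summary.
-/

open Matrix Module

namespace Pool.Agent.Lib.MP_64d474_lc.Op

/-- The points of `signSet` and `scheme` work for all matrices. -/
theorem dimFree_hits.{u} (K : Type) [Field K] [CharP K 2] (l m : ℕ) (φ : K → Fin l → ZMod 2)
    (α : Fin m → K) (h : IsCode φ α) (F : Type u) [Field F] [CharZero F] (n : ℕ)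
    (B₀ : Matrix (Fin n) (Fin n) F) (B : Fin m → Matrix (Fin n) (Fin n) F) :
    (∃ a ∈ signSet φ α, ncRank B ≤ 3 * (∑ k, (a k : F) • B k).rank) ∧
    ∀ q : ℕ, ∃ h ∈ scheme φ α q, ∀ x : Fin m → F,
      (q - 1) * (B₀ + ∑ k, x k • B k).rank ≤ q * (B₀ + ∑ k, (h k : F) • B k).rank :=
  ⟨signSet_ncRank h B, fun q => amplified (by norm_num) (signSet_approx h F _) B₀ B⟩

/-- The number of points and the size of the entries. -/
theorem dimFree_card (m q : ℕ) (hm : 1 ≤ m) (hq : 1 ≤ q) :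
    ∃ (K : Type) (_ : Field K) (_ : CharP K 2) (l : ℕ)
      (φ : K → Fin l → ZMod 2) (α : Fin m → K), IsCode φ α ∧ 2 ^ l ≤ 2 * m ∧
        (signSet φ α).card ≤ 4 * m ^ 2 ∧ (scheme φ α q).card ≤ (9 * m * q ^ 2) ^ (24 * q ^ 2) ∧
        ∀ h ∈ scheme φ α q, ∀ k, |h k| ≤ 216 * q ^ 6 := by
  obtain ⟨K, hK, hK2, l, φ, α, hc, hl⟩ := exists_code m hm
  have h6 : 4 ^ l ≤ 4 * m ^ 2 := by
    calc 4 ^ l = (2 ^ l) ^ 2 := by
          rw [← pow_mul, mul_comm l 2, pow_mul]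
          norm_num
      _ ≤ (2 * m) ^ 2 := Nat.pow_le_pow_left hl 2
      _ = 4 * m ^ 2 := by ring
  have h4 : (scheme φ α q).card ≤ (4 ^ l * (6 * (q ^ 3 * (2 * q + 1)) + 1)) ^ (12 * q ^ 2) ∧
      ∀ h ∈ scheme φ α q, ∀ k, |h k| ≤ 12 * q ^ 2 * (6 * (q ^ 3 * (2 * q + 1))) := by
    refine ⟨(card_sums_le _).trans (Nat.pow_le_pow_left (Nat.mul_le_mul_right _
      (card_signSet_le φ α)) _), ?_⟩
    intro h hh k
    have h1 := sums_coord_le (abs_signSet φ α) h hh k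
    have h2 : ((mul 3 q : ℕ) : ℤ) = 6 * (q ^ 3 * (2 * q + 1)) := by
      rw [mul]
      push_cast
      ring
    rw [h2] at h1
    push_cast at h1
    exact h1
  refine ⟨K, hK, hK2, l, φ, α, hc, hl, (card_signSet_le φ α).trans h6, h4.1.trans ?_,
    fun h hh k => (h4.2 h hh k).trans ?_⟩
  · have h5 : (9 * m * q ^ 2) ^ (24 * q ^ 2) = (81 * m ^ 2 * q ^ 4) ^ (12 * q ^ 2) := by
      rw [show 24 * q ^ 2 = 2 * (12 * q ^ 2) by ring, pow_mul]
      ring_nf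
    rw [h5]
    refine Nat.pow_le_pow_left ?_ _
    have h7 : 6 * (q ^ 3 * (2 * q + 1)) + 1 ≤ 19 * q ^ 4 := by
      have h8 : q ^ 3 ≤ q ^ 4 := Nat.pow_le_pow_right hq (by norm_num)
      have h9 : 1 ≤ q ^ 4 := Nat.one_le_pow _ _ hq
      have h10 : q ^ 3 * (2 * q + 1) = 2 * q ^ 4 + q ^ 3 := by ring
      rw [h10]
      omega
    calc 4 ^ l * (6 * (q ^ 3 * (2 * q + 1)) + 1) ≤ (4 * m ^ 2) * (19 * q ^ 4) :=
          Nat.mul_le_mul h6 h7
      _ = 76 * (m ^ 2 * q ^ 4) := by ring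
      _ ≤ 81 * (m ^ 2 * q ^ 4) := Nat.mul_le_mul_right _ (by norm_num)
      _ = 81 * m ^ 2 * q ^ 4 := by ring
  · have hq' : (1 : ℤ) ≤ q := by exact_mod_cast hq
    have h5 : (q : ℤ) ^ 5 ≤ (q : ℤ) ^ 6 := pow_le_pow_right₀ hq' (by norm_num)
    have h6 : 12 * (q : ℤ) ^ 2 * (6 * (q ^ 3 * (2 * q + 1))) =
        144 * (q : ℤ) ^ 6 + 72 * (q : ℤ) ^ 5 := by ring
    rw [h6]
    linarith

end Pool.Agent.Lib.MP_64d474_lc.Op
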