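import Mathlib
import Pool.Agent.Lib.MP_64d474_lc.Op.StmtsN

/-!
# L1: a nonzero form of degree `d` that vanishes at few points
-/

open Matrix Module

namespace Pool.Agent.Lib.MP_64d474_lc.Op

theorem stForm.{u} : StForm.{u} := by
  intro F _ _ m d H hH
  classical
  have hcard : Fintype.card (Sym (Fin m) d) = (m + d - 1).choose d := by
    rw [Sym.card_sym_eq_choose, Fintype.card_fin]
  let f : (Sym (Fin m) d → F) →ₗ[F] (H → F) :=
    { toFun := fun c h => ∑ s, c s * (Multiset.map h.1 (s : Multiset (Fin m))).prod
      map_add' := by
        intro c c'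
        ext h
        simp only [Pi.add_apply, add_mul, Finset.sum_add_distrib]
      map_smul' := by
        intro a c
        ext h
        simp only [Pi.smul_apply, smul_eq_mul, RingHom.id_apply, Finset.mul_sum, mul_assoc] }
  have hker : LinearMap.ker f ≠ ⊥ := by
    apply LinearMap.ker_ne_bot_of_finrank_lt
    rw [Module.finrank_fintype_fun_eq_card, Module.finrank_fintype_fun_eq_card, hcard,
      Fintype.card_coe]
    exact hH
  obtain ⟨c, hc, hc0⟩ := Submodule.exists_mem_ne_zero_of_ne_bot hker
  refine ⟨c, ?_, ?_⟩
  · intro h hh
    have := congrFun (LinearMap.mem_ker.1 hc) ⟨h, hh⟩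
    simpa [f] using this
  · by_contra hcon
    push Not at hcon
    apply hc0
    -- the polynomial
    set p : MvPolynomial (Fin m) F :=
      ∑ s : Sym (Fin m) d, MvPolynomial.monomial (Multiset.toFinsupp (s : Multiset (Fin m))) (c s)
      with hp
    have hev : ∀ y : Fin m → F, MvPolynomial.eval y p =
        ∑ s, c s * (Multiset.map y (s : Multiset (Fin m))).prod := by
      intro y
      rw [hp, map_sum]
      refine Finset.sum_congr rfl fun s _ => ?_
      rw [MvPolynomial.eval_monomial, Finset.prod_multiset_map_count, Finsupp.prod,
        Multiset.toFinsupp_support]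
      congr 1
    have hp0 : p = 0 := by
      apply MvPolynomial.funext
      intro y
      rw [hev, hcon, map_zero]
    ext s
    have h1 : MvPolynomial.coeff (Multiset.toFinsupp (s : Multiset (Fin m))) p = c s := by
      rw [hp, MvPolynomial.coeff_sum, Finset.sum_eq_single s]
      · rw [MvPolynomial.coeff_monomial, if_pos rfl]
      · intro t _ hts
        rw [MvPolynomial.coeff_monomial, if_neg]
        intro h
        exact hts (Subtype.ext (Multiset.toFinsupp.injective h))
      · intro h
        exact absurd (Finset.mem_univ _) h
    rw [← h1, hp0, MvPolynomial.coeff_zero]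
    rfl

end Pool.Agent.Lib.MP_64d474_lc.Op
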