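import Pool.Agent.Lib.MP_64d474_lc.Op.StmtsN

/-!
# L2. Linear matrix factorisation of forms
-/

open Matrix Module Finset

namespace Pool.Agent.Lib.MP_64d474_lc.Op

namespace Factor

universe u

section QBinomial

variable {F : Type u} [Field F]

/-- The q-binomial coefficients. -/
def g (ζ : F) : ℕ → ℕ → F
  | 0, 0 => 1
  | 0, _ + 1 => 0
  | n + 1, 0 => g ζ n 0
  | n + 1, k + 1 => g ζ n k + ζ ^ (k + 1) * g ζ n (k + 1)

lemma g_zero (ζ : F) (n : ℕ) : g ζ n 0 = 1 := by
  induction n with
  | zero => rfl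
  | succ n ih => simpa [g] using ih

lemma g_big (ζ : F) (n : ℕ) : ∀ k, n < k → g ζ n k = 0 := by
  induction n with
  | zero =>
    intro k hk
    obtain ⟨k, rfl⟩ := Nat.exists_eq_succ_of_ne_zero hk.ne'
    rfl
  | succ n ih =>
    intro k hk
    rcases k with _ | k
    · omega
    · simp only [g]
      rw [ih k (by omega), ih (k + 1) (by omega)]
      simp

lemma g_self (ζ : F) (n : ℕ) : g ζ n n = 1 := by
  induction n with
  | zero => rfl
  | succ n ih =>
    simp only [g]
    rw [ih, g_big ζ n (n + 1) (Nat.lt_succ_self n)]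
    simp

lemma g_prod (ζ : F) (n : ℕ) : ∀ k, g ζ n k * ∏ i ∈ range k, (1 - ζ ^ (i + 1)) =
    ∏ i ∈ range k, (1 - ζ ^ (n - i)) := by
  induction n with
  | zero =>
    intro k
    rcases k with _ | k
    · simp [g]
    · rw [prod_range_succ' (fun i => 1 - ζ ^ (0 - i))]
      simp [g]
  | succ n ih =>
    intro k
    rcases k with _ | k
    · simp [g, g_zero]
    · have h1 := ih k
      have h2 := ih (k + 1)
      rw [prod_range_succ' (fun i => 1 - ζ ^ (n + 1 - i))]
      simp only [Nat.add_sub_add_right, Nat.sub_zero]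
      rw [prod_range_succ (fun i => 1 - ζ ^ (n - i))] at h2
      have h3 : g ζ (n + 1) (k + 1) * ∏ i ∈ range (k + 1), (1 - ζ ^ (i + 1)) =
          (1 - ζ ^ (k + 1)) * (g ζ n k * ∏ i ∈ range k, (1 - ζ ^ (i + 1))) +
          ζ ^ (k + 1) * (g ζ n (k + 1) * ∏ i ∈ range (k + 1), (1 - ζ ^ (i + 1))) := by
        rw [show g ζ (n + 1) (k + 1) = g ζ n k + ζ ^ (k + 1) * g ζ n (k + 1) from rfl]
        rw [prod_range_succ]
        ring
      rw [h3, h1, h2]
      rcases le_or_gt k n with hk | hk
      · have h4 : ζ ^ (k + 1) * ζ ^ (n - k) = ζ ^ (n + 1) := by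
          rw [← pow_add]
          congr 1
          omega
        linear_combination (-(∏ i ∈ range k, (1 - ζ ^ (n - i)))) * h4
      · have h5 : ∏ i ∈ range k, (1 - ζ ^ (n - i)) = 0 := by
          apply prod_eq_zero (mem_range.2 hk)
          simp
        rw [h5]
        simp

lemma g_vanish {ζ : F} {d : ℕ} (hζ : IsPrimitiveRoot ζ d) {k : ℕ} (h0 : 0 < k) (hk : k < d) :
    g ζ d k = 0 := by
  have h1 := g_prod ζ d k
  have h2 : ∏ i ∈ range k, (1 - ζ ^ (d - i)) = 0 := by
    apply prod_eq_zero (mem_range.2 h0)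
    rw [Nat.sub_zero, hζ.pow_eq_one, sub_self]
  have h3 : ∏ i ∈ range k, (1 - ζ ^ (i + 1)) ≠ 0 := by
    apply prod_ne_zero_iff.2
    intro i hi
    rw [mem_range] at hi
    have := hζ.pow_ne_one_of_pos_of_lt (Nat.succ_ne_zero i) (by omega)
    exact sub_ne_zero.2 (Ne.symm this)
  rw [h2] at h1
  exact (mul_eq_zero.1 h1).resolve_right h3

variable {R : Type*} [Ring R] [Algebra F R]

lemma yx_pow {ζ : F} {X Y : R} (h : Y * X = ζ • (X * Y)) (k : ℕ) :
    Y * X ^ k = ζ ^ k • (X ^ k * Y) := by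
  induction k with
  | zero => simp
  | succ k ih =>
    rw [pow_succ, ← mul_assoc, ih, smul_mul_assoc, mul_assoc, h, mul_smul_comm, smul_smul,
      ← mul_assoc, ← pow_succ]

lemma add_pow_q {ζ : F} {X Y : R} (h : Y * X = ζ • (X * Y)) (n : ℕ) :
    (X + Y) ^ n = ∑ k ∈ range (n + 1), g ζ n k • (X ^ k * Y ^ (n - k)) := by
  induction n with
  | zero => simp [g]
  | succ n ih =>
    have hL : (X + Y) ^ (n + 1) = ∑ k ∈ range (n + 1), g ζ n k • (X ^ (k + 1) * Y ^ (n - k)) +
        ∑ k ∈ range (n + 1), (ζ ^ k * g ζ n k) • (X ^ k * Y ^ (n + 1 - k)) := by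
      rw [pow_succ', ih, mul_sum, ← sum_add_distrib]
      apply sum_congr rfl
      intro k hk
      have hk' : k ≤ n := Nat.lt_succ_iff.1 (mem_range.1 hk)
      rw [mul_smul_comm, add_mul, smul_add]
      congr 1
      · rw [← mul_assoc, ← pow_succ']
      · rw [← mul_assoc, yx_pow h, smul_mul_assoc, smul_smul, mul_assoc, ← pow_succ',
          mul_comm (g ζ n k), show n - k + 1 = n + 1 - k by omega]
    rw [hL, sum_range_succ' (fun k => g ζ (n + 1) k • (X ^ k * Y ^ (n + 1 - k)))]
    have h2 : ∑ k ∈ range (n + 1), (ζ ^ k * g ζ n k) • (X ^ k * Y ^ (n + 1 - k)) =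
        ∑ k ∈ range (n + 1), (ζ ^ (k + 1) * g ζ n (k + 1)) • (X ^ (k + 1) * Y ^ (n - k)) +
          g ζ n 0 • (X ^ 0 * Y ^ (n + 1 - 0)) := by
      have h3 := sum_range_succ (fun k => (ζ ^ k * g ζ n k) • (X ^ k * Y ^ (n + 1 - k))) (n + 1)
      rw [g_big ζ n (n + 1) (Nat.lt_succ_self n), mul_zero, zero_smul, add_zero] at h3
      rw [← h3, sum_range_succ' (fun k => (ζ ^ k * g ζ n k) • (X ^ k * Y ^ (n + 1 - k)))]
      congr 1
      · apply sum_congr rfl
        intro k _
        rw [Nat.add_sub_add_right]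
      · simp
    rw [h2, ← add_assoc, ← sum_add_distrib]
    congr 1
    apply sum_congr rfl
    intro k _
    rw [← add_smul, Nat.add_sub_add_right]
    rfl

lemma add_pow_root {ζ : F} {d : ℕ} (hd : 0 < d) (hζ : IsPrimitiveRoot ζ d) {X Y : R}
    (h : Y * X = ζ • (X * Y)) : (X + Y) ^ d = X ^ d + Y ^ d := by
  rw [add_pow_q h]
  have hne : (0 : ℕ) ≠ d := hd.ne
  rw [← sum_subset (s₁ := {0, d})]
  · rw [sum_pair hne, g_zero, g_self, Nat.sub_self, Nat.sub_zero, add_comm]
    simp
  · intro k hk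
    simp only [mem_insert, mem_singleton] at hk
    rw [mem_range]
    omega
  · intro k hk hk'
    simp only [mem_insert, mem_singleton, not_or] at hk'
    rw [mem_range] at hk
    rw [g_vanish hζ (Nat.pos_of_ne_zero hk'.1) (by omega), zero_smul]

end QBinomial

section Shift

variable {F : Type u} [Field F] {d : ℕ} [NeZero d]

/-- The weighted cyclic shift. -/
def shift (w : Fin d → F) : Matrix (Fin d) (Fin d) F :=
  Matrix.of fun j k => if k = j + 1 then w j else 0

lemma shift_pow (w : Fin d → F) (t : ℕ) (j k : Fin d) :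
    (shift w ^ t) j k =
      if k = j + (Fin.ofNat d t) then ∏ s ∈ range t, w (j + Fin.ofNat d s) else 0 := by
  induction t generalizing j k with
  | zero =>
    have : Fin.ofNat d 0 = 0 := rfl
    rw [this, pow_zero, Matrix.one_apply]
    simp [eq_comm]
  | succ t ih =>
    rw [pow_succ, Matrix.mul_apply]
    have hsucc : Fin.ofNat d (t + 1) = Fin.ofNat d t + 1 := by
      apply Fin.ext
      rw [Fin.val_add]
      simp [Nat.add_mod]
    rw [Finset.sum_eq_single (j + Fin.ofNat d t)]
    · rw [ih, if_pos rfl, hsucc, ← add_assoc]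
      simp only [shift, Matrix.of_apply]
      rw [prod_range_succ]
      split_ifs <;> simp
    · intro l _ hl
      rw [ih, if_neg hl, zero_mul]
    · intro h
      exact absurd (Finset.mem_univ _) h

lemma ofNat_self : Fin.ofNat d d = 0 := by
  apply Fin.ext
  simp

lemma shift_pow_self (w : Fin d → F) :
    shift w ^ d = (∏ j, w j) • (1 : Matrix (Fin d) (Fin d) F) := by
  ext j k
  rw [shift_pow, ofNat_self, add_zero, Matrix.smul_apply, Matrix.one_apply]
  have h1 : ∏ s ∈ range d, w (j + Fin.ofNat d s) = ∏ i, w i := by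
    rw [← Fin.prod_univ_eq_prod_range (fun s => w (j + Fin.ofNat d s)) d]
    rw [← Equiv.prod_comp (Equiv.addLeft j) w]
    apply Finset.prod_congr rfl
    intro i _
    congr 1
    simp
  rw [h1]
  by_cases h : j = k
  · subst h
    simp
  · rw [if_neg (Ne.symm h), if_neg h]
    simp

/-- The diagonal matrix of the powers of a root of unity. -/
def dg (d : ℕ) (ζ : F) : Matrix (Fin d) (Fin d) F := Matrix.diagonal fun j => ζ ^ (j : ℕ)

lemma shift_dg {ζ : F} (hζ : ζ ^ d = 1) (w : Fin d → F) :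
    shift w * dg d ζ = ζ • (dg d ζ * shift w) := by
  ext j k
  rw [dg, Matrix.mul_diagonal, Matrix.smul_apply, Matrix.diagonal_mul]
  simp only [shift, Matrix.of_apply, smul_eq_mul]
  split_ifs with h
  · subst h
    have h1 : ζ ^ ((j + 1 : Fin d) : ℕ) = ζ ^ ((j : ℕ) + 1) := by
      rw [Fin.val_add]
      have h2 : ((1 : Fin d) : ℕ) = 1 % d := Fin.val_one' d
      rw [h2, Nat.add_mod_mod]
      conv_rhs => rw [← Nat.div_add_mod ((j : ℕ) + 1) d, pow_add, pow_mul, hζ, one_pow, one_mul]
    rw [h1, pow_succ]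
    ring
  · simp

omit [NeZero d] in
lemma dg_pow {ζ : F} (hζ : ζ ^ d = 1) : dg d ζ ^ d = 1 := by
  rw [dg, Matrix.diagonal_pow]
  rw [← Matrix.diagonal_one]
  congr 1
  ext j
  simp only [Pi.pow_apply]
  rw [← pow_mul, mul_comm, pow_mul, hζ, one_pow]

end Shift

section Kron

variable {F : Type u} [Field F] {ι κ : Type} [Fintype ι] [Fintype κ] [DecidableEq ι]
  [DecidableEq κ]

lemma kron_pow (A : Matrix ι ι F) (B : Matrix κ κ F) (n : ℕ) :
    Matrix.kroneckerMap (· * ·) A B ^ n = Matrix.kroneckerMap (· * ·) (A ^ n) (B ^ n) := by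
  induction n with
  | zero => simp
  | succ n ih =>
    rw [pow_succ, ih, pow_succ, pow_succ, Matrix.mul_kronecker_mul]

end Kron

/-- A function on vectors is a linear matrix factor. -/
def Lin {F : Type u} [Field F] (m d : ℕ) (p : (Fin m → F) → F) : Prop :=
  ∃ (ι : Type) (_ : Fintype ι) (_ : DecidableEq ι) (_ : Nonempty ι)
    (B : Fin m → Matrix ι ι F), ∀ x : Fin m → F, (∑ k, x k • B k) ^ d = p x • (1 : Matrix ι ι F)

variable {F : Type u} [Field F] {m d : ℕ}

lemma lin_zero (hd : 0 < d) : Lin m d (fun _ : Fin m → F => (0 : F)) := by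
  refine ⟨Unit, inferInstance, inferInstance, inferInstance, fun _ => 0, fun x => ?_⟩
  simp [hd.ne']

lemma lin_add [NeZero d] {ζ : F} (hζ : IsPrimitiveRoot ζ d) {p : (Fin m → F) → F}
    (hp : Lin m d p) (c : F) (i : Fin d → Fin m) :
    Lin m d (fun x => p x + c * ∏ j, x (i j)) := by
  obtain ⟨ι, _, _, _, B, hB⟩ := hp
  have hd : 0 < d := Nat.pos_of_ne_zero (NeZero.ne d)
  set M : Fin m → Matrix (Fin d) (Fin d) F := fun k =>
    shift fun j => (if j = 0 then c else 1) * (if i j = k then 1 else 0) with hM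
  have hMx : ∀ x : Fin m → F, ∑ k, x k • M k =
      shift fun j => (if j = 0 then c else 1) * x (i j) := by
    intro x
    ext a b
    rw [Matrix.sum_apply]
    simp only [hM, shift, Matrix.smul_apply, Matrix.of_apply, smul_eq_mul]
    split_ifs with h1 h2
    · rw [Finset.sum_eq_single (i a)]
      · simp [mul_comm]
      · intro b _ hb
        rw [if_neg (Ne.symm hb)]
        simp
      · intro h
        exact absurd (Finset.mem_univ _) h
    · rw [Finset.sum_eq_single (i a)]
      · simp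
      · intro b _ hb
        rw [if_neg (Ne.symm hb)]
        simp
      · intro h
        exact absurd (Finset.mem_univ _) h
    · simp
  refine ⟨ι × Fin d, inferInstance, inferInstance, inferInstance,
    fun k => Matrix.kroneckerMap (· * ·) (B k) (dg d ζ) +
      Matrix.kroneckerMap (· * ·) (1 : Matrix ι ι F) (M k), fun x => ?_⟩
  set Lx : Matrix ι ι F := ∑ k, x k • B k with hLx
  set Mx : Matrix (Fin d) (Fin d) F := ∑ k, x k • M k with hMxd
  have hsum : ∑ k, x k • (Matrix.kroneckerMap (· * ·) (B k) (dg d ζ) +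
      Matrix.kroneckerMap (· * ·) (1 : Matrix ι ι F) (M k)) =
      Matrix.kroneckerMap (· * ·) Lx (dg d ζ) + Matrix.kroneckerMap (· * ·) (1 : Matrix ι ι F) Mx := by
    ext ⟨a, b⟩ ⟨a', b'⟩
    rw [Matrix.sum_apply]
    simp only [Matrix.smul_apply, Matrix.add_apply, Matrix.kroneckerMap_apply, smul_eq_mul,
      hLx, hMxd, Matrix.sum_apply]
    rw [Finset.sum_mul, Finset.mul_sum, ← Finset.sum_add_distrib]
    apply Finset.sum_congr rfl
    intro k _
    ring
  have hMxx : Mx = shift fun j => (if j = 0 then c else 1) * x (i j) := hMx x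
  rw [hsum]
  have hcomm : Matrix.kroneckerMap (· * ·) (1 : Matrix ι ι F) Mx *
      Matrix.kroneckerMap (· * ·) Lx (dg d ζ) =
      ζ • (Matrix.kroneckerMap (· * ·) Lx (dg d ζ) *
        Matrix.kroneckerMap (· * ·) (1 : Matrix ι ι F) Mx) := by
    rw [← Matrix.mul_kronecker_mul, ← Matrix.mul_kronecker_mul, one_mul, mul_one, hMxx,
      shift_dg hζ.pow_eq_one]
    ext ⟨a, b⟩ ⟨a', b'⟩
    simp only [Matrix.smul_apply, Matrix.kroneckerMap_apply, smul_eq_mul]
    ring
  rw [add_pow_root hd hζ hcomm, kron_pow, kron_pow, hB, dg_pow hζ.pow_eq_one, one_pow, hMxx,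
    shift_pow_self]
  have hprod : ∏ j : Fin d, ((if j = 0 then c else 1) * x (i j)) = c * ∏ j, x (i j) := by
    rw [Finset.prod_mul_distrib]
    congr 1
    rw [Finset.prod_ite_eq' Finset.univ (0 : Fin d) (fun _ => c)]
    simp
  rw [hprod]
  ext ⟨a, b⟩ ⟨a', b'⟩
  simp only [Matrix.smul_apply, Matrix.add_apply, Matrix.kroneckerMap_apply, smul_eq_mul,
    Matrix.one_apply, Prod.mk.injEq]
  by_cases h1 : a = a' <;> by_cases h2 : b = b' <;> simp [h1, h2]

lemma exists_fun (s : Sym (Fin m) d) : ∃ i : Fin d → Fin m, ∀ x : Fin m → F,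
    (Multiset.map x (s : Multiset (Fin m))).prod = ∏ j, x (i j) := by
  obtain ⟨s, hs⟩ := s
  induction s using Quotient.inductionOn with
  | h l =>
    have hl : l.length = d := by simpa using hs
    subst hl
    refine ⟨fun j => l.get j, fun x => ?_⟩
    have h1 : (Multiset.map x (⟦l⟧ : Multiset (Fin m))).prod = (l.map x).prod := by
      change (Multiset.map x (l : Multiset (Fin m))).prod = _
      rw [Multiset.map_coe, Multiset.prod_coe]
    change (Multiset.map x (⟦l⟧ : Multiset (Fin m))).prod = _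
    rw [h1]
    have h2 := List.prod_ofFn (f := fun j : Fin l.length => x (l.get j))
    rw [← h2]
    congr 1
    have h3 : List.ofFn (fun j : Fin l.length => x (l.get j)) = l.map x := by
      have h4 : (List.ofFn l.get).map x = List.ofFn (x ∘ l.get) := List.map_ofFn
      rw [List.ofFn_get] at h4
      exact h4.symm
    exact h3.symm

lemma lin_sum [NeZero d] {ζ : F} (hζ : IsPrimitiveRoot ζ d) (c : Sym (Fin m) d → F)
    (T : Finset (Sym (Fin m) d)) :
    Lin m d (fun x : Fin m → F => ∑ s ∈ T, c s * (Multiset.map x (s : Multiset (Fin m))).prod) := by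
  classical
  induction T using Finset.induction_on with
  | empty =>
    simpa using lin_zero (F := F) (m := m) (Nat.pos_of_ne_zero (NeZero.ne d))
  | insert a T ha ih =>
    obtain ⟨i, hi⟩ := exists_fun (F := F) a
    have h1 := lin_add hζ ih (c a) i
    convert h1 using 2 with x
    rw [Finset.sum_insert ha, hi, add_comm]

end Factor

open Factor in
/-- L2. -/
theorem stFactor.{u} : StFactor.{u} := by
  intro F _ m d ζ hd hζ c
  have : NeZero d := ⟨hd.ne'⟩
  obtain ⟨ι, _, _, _, B, hB⟩ := lin_sum hζ c Finset.univ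
  refine ⟨Fintype.card ι, Fintype.card_pos, fun k =>
    Matrix.reindexAlgEquiv F F (Fintype.equivFin ι) (B k), fun x => ?_⟩
  have h1 := congrArg (Matrix.reindexAlgEquiv F F (Fintype.equivFin ι)) (hB x)
  rw [map_pow, map_sum, map_smul, map_one] at h1
  rw [← h1]
  congr 1

end Pool.Agent.Lib.MP_64d474_lc.Op
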