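import Mathlib
import Pool.Agent.Lib.MP_64d474_lc.Op.L1
import Pool.Agent.Lib.MP_64d474_lc.Op.L2
import Pool.Agent.Lib.MP_64d474_lc.ZtToep

/-!
Lower bound for dimension-free sets of points.
-/

open Matrix Module

namespace Pool.Agent.Lib.MP_64d474_lc.Op

/-- Sylvester's inequality -/
theorem rank_mul_lower {F : Type*} [Field F] {n : ℕ} (M A : Matrix (Fin n) (Fin n) F) :
    M.rank + A.rank ≤ n + (M * A).rank := by
  have h1 := finrank_map_add_inf M.mulVecLin (LinearMap.range A.mulVecLin)
  have h2 := LinearMap.finrank_range_add_finrank_ker M.mulVecLin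
  rw [Module.finrank_fin_fun] at h2
  have h3 : finrank F (LinearMap.range A.mulVecLin ⊓ LinearMap.ker M.mulVecLin :
      Submodule F (Fin n → F)) ≤ finrank F (LinearMap.ker M.mulVecLin) :=
    Submodule.finrank_mono inf_le_right
  have h4 : (LinearMap.range A.mulVecLin).map M.mulVecLin =
      LinearMap.range (M * A).mulVecLin := by
    rw [Matrix.mulVecLin_mul, LinearMap.range_comp]
  rw [h4] at h1
  have h5 : (M * A).rank = finrank F (LinearMap.range (M * A).mulVecLin) := rfl
  have h6 : M.rank = finrank F (LinearMap.range M.mulVecLin) := rfl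
  have h7 : A.rank = finrank F (LinearMap.range A.mulVecLin) := rfl
  omega

/-- Frobenius' inequality for powers -/
theorem rank_pow_bound {F : Type*} [Field F] {n : ℕ} (A : Matrix (Fin n) (Fin n) F) (i : ℕ) :
    n ≤ (A ^ i).rank + i * (n - A.rank) := by
  induction i with
  | zero => rw [pow_zero, Matrix.rank_one, Fintype.card_fin]; omega
  | succ i ih =>
    have h1 := rank_mul_lower (A ^ i) A
    rw [← pow_succ] at h1
    have h2 : A.rank ≤ n := by
      have := Matrix.rank_le_card_width A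
      rwa [Fintype.card_fin] at this
    have h3 : (i + 1) * (n - A.rank) = i * (n - A.rank) + (n - A.rank) := by ring
    omega

theorem rank_of_pow_zero {F : Type*} [Field F] {n d : ℕ} (hd : 0 < d)
    (A : Matrix (Fin n) (Fin n) F) (h : A ^ d = 0) : d * A.rank ≤ (d - 1) * n := by
  have h1 := rank_pow_bound A d
  rw [h, Matrix.rank_zero, zero_add] at h1
  have h2 : A.rank ≤ n := by
    have := Matrix.rank_le_card_width A
    rwa [Fintype.card_fin] at this
  obtain ⟨e, rfl⟩ : ∃ e, d = e + 1 := ⟨d - 1, by omega⟩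
  rw [Nat.add_sub_cancel]
  rw [Nat.mul_sub] at h1
  have h3 : (e + 1) * n = e * n + n := by ring
  have h4 : (e + 1) * A.rank ≤ (e + 1) * n := Nat.mul_le_mul_left _ h2
  omega

/-- The lower bound. -/
theorem lower_bound.{u} {F : Type u} [Field F] [CharZero F] {m d : ℕ} (hd : 0 < d) {ζ : F}
    (hζ : IsPrimitiveRoot ζ d) (H : Finset (Fin m → F)) (hH : H.card < (m + d - 1).choose d) :
    ∃ n : ℕ, 0 < n ∧ ∃ B : Fin m → Matrix (Fin n) (Fin n) F,
      (∃ y : Fin m → F, (∑ k, y k • B k).det ≠ 0) ∧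
      ∀ h ∈ H, d * (∑ k, h k • B k).rank ≤ (d - 1) * n := by
  obtain ⟨c, hc, y, hy⟩ := stForm F m d H hH
  obtain ⟨n, hn, B, hB⟩ := stFactor F m d ζ hd hζ c
  refine ⟨n, hn, B, ⟨y, fun h0 => ?_⟩, fun h hh => ?_⟩
  · have h1 := congrArg Matrix.det (hB y)
    rw [Matrix.det_pow, h0, zero_pow hd.ne', Matrix.det_smul, Matrix.det_one, mul_one] at h1
    exact pow_ne_zero _ hy h1.symm
  · refine rank_of_pow_zero hd _ ?_
    rw [hB h, hc h hh, zero_smul]

end Pool.Agent.Lib.MP_64d474_lc.Op
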